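import Pool.Agent.H74.UC.WIND

/-!
UC-ARCS: a curve in `B` from `δ e^(i s)` to `δ e^(i t)` cannot be closed by both arcs without
separating `0` from infinity.
-/

set_option autoImplicit false

open Complex MeasureTheory Set Filter Topology Metric
open scoped ContDiff RealInnerProductSpace ComplexConjugate

namespace Pool.Agent.H74.UC

open Pool.Agent.H74.PH

/-- two continuous logarithms of the same curve have the same increment -/
theorem log_incr {l l' : ℝ → ℂ} {a b : ℝ} (hab : a ≤ b) (hl : ContinuousOn l (Icc a b))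
    (hl' : ContinuousOn l' (Icc a b)) (h : ∀ x ∈ Icc a b, exp (l x) = exp (l' x)) :
    l b - l a = l' b - l' a := by
  have cov := Complex.isCoveringMap_exp
  have : PreconnectedSpace (Icc a b) := Subtype.preconnectedSpace isPreconnected_Icc
  let d : Icc a b → ℂ := fun x => l x - l' x
  have hd : Continuous d :=
    (continuousOn_iff_continuous_domRestrict.1 hl).sub (continuousOn_iff_continuous_domRestrict.1 hl')
  have hd1 : ∀ x, exp (d x) = 1 := by
    intro x
    show exp (l x - l' x) = 1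
    rw [exp_sub, h x x.2, div_self (exp_ne_zero _)]
  have := cov.const_of_comp hd (fun x x' => Subtype.ext (by
    show exp (d x) = exp (d x')
    rw [hd1, hd1])) ⟨a, left_mem_Icc.2 hab⟩ ⟨b, right_mem_Icc.2 hab⟩
  have h2 : l a - l' a = l b - l' b := this
  linear_combination -h2

theorem arc_close {B C : Set ℂ} {δ s t e R : ℝ} (hδ : 0 < δ)
    (α : Path ((δ : ℂ) * exp (s * I)) ((δ : ℂ) * exp (t * I))) (hα : ∀ x, α x ∈ B)
    (hB : ∀ z ∈ B, ‖z‖ < R) (hδR : δ < R) (he : exp (e * I) = exp (s * I))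
    (hC : ∀ x ∈ Icc (0 : ℝ) 1, (δ : ℂ) * exp (((t + x * (e - t) : ℝ) : ℂ) * I) ∈ C) {p : ℂ}
    (hp : R ≤ ‖p‖) (ha : JoinedIn (B ∪ C)ᶜ 0 p) :
    ∃ l : ℝ → ℂ, ContinuousOn l (Icc 0 (1 / 2)) ∧
      (∀ x ∈ Icc (0 : ℝ) (1 / 2), exp (l x) = α.extend (2 * x)) ∧
      l (1 / 2) - l 0 = (t - e) * I := by
  let γ : ℝ → ℂ := fun x => if x ≤ 1 / 2 then α.extend (2 * x) else
    (δ : ℂ) * exp (((t + (2 * x - 1) * (e - t) : ℝ) : ℂ) * I)
  have hγc : Continuous γ := by
    refine Continuous.if_le ?_ ?_ continuous_id continuous_const ?_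
    · exact α.continuous_extend.comp (by fun_prop)
    · fun_prop
    · intro x hx
      have hx' : x = 1 / 2 := hx
      subst hx'
      norm_num
  have hext : ∀ x, α.extend x ∈ B := by
    intro x
    have : α.extend x ∈ range α := by
      rw [← α.extend_range]
      exact mem_range_self x
    obtain ⟨y, hy⟩ := this
    rw [← hy]
    exact hα y
  have hnorm : ∀ θ : ℝ, ‖(δ : ℂ) * exp ((θ : ℂ) * I)‖ = δ := by
    intro θ
    rw [norm_mul, norm_exp_ofReal_mul_I, mul_one, norm_real, Real.norm_of_nonneg hδ.le]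
  have hcl : γ 0 = γ 1 := by
    show (if (0 : ℝ) ≤ 1 / 2 then α.extend (2 * 0) else _) = (if (1 : ℝ) ≤ 1 / 2 then _ else _)
    rw [if_pos (by norm_num), if_neg (by norm_num)]
    have : (((t + (2 * 1 - 1) * (e - t) : ℝ) : ℂ)) = e := by
      norm_num
    rw [this, he]
    norm_num
  have himg : γ '' Icc 0 1 ⊆ B ∪ C := by
    rintro _ ⟨x, hx, rfl⟩
    by_cases h : x ≤ 1 / 2
    · left
      show (if x ≤ 1 / 2 then α.extend (2 * x) else _) ∈ B
      rw [if_pos h]
      exact hext _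
    · right
      show (if x ≤ 1 / 2 then α.extend (2 * x) else _) ∈ C
      rw [if_neg h]
      push Not at h
      exact hC (2 * x - 1) ⟨by linarith, by linarith [hx.2]⟩
  have hj : JoinedIn (γ '' Icc 0 1)ᶜ 0 p := ha.mono (compl_subset_compl.2 himg)
  have hfar : ∀ x ∈ Icc (0 : ℝ) 1, ‖γ x‖ < ‖p‖ := by
    intro x hx
    refine lt_of_lt_of_le ?_ hp
    show ‖(if x ≤ 1 / 2 then α.extend (2 * x) else _)‖ < R
    split_ifs with h
    · exact hB _ (hext _)
    · rw [hnorm]
      exact hδR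
  obtain ⟨l, hlc, hl, hl01⟩ := wind hγc.continuousOn hcl hj hfar
  refine ⟨l, hlc.mono (Icc_subset_Icc_right (by norm_num)), ?_, ?_⟩
  · intro x hx
    rw [hl x ⟨hx.1, hx.2.trans (by norm_num)⟩, sub_zero]
    show (if x ≤ 1 / 2 then α.extend (2 * x) else _) = _
    rw [if_pos hx.2]
  · -- the arc
    let m : ℝ → ℂ := fun x => Real.log δ + ((t + (2 * x - 1) * (e - t) : ℝ) : ℂ) * I
    have hm : Continuous m := by fun_prop
    have hδ' : exp ((Real.log δ : ℝ) : ℂ) = δ := by
      rw [← ofReal_exp, Real.exp_log hδ]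
    have key := log_incr (l := l) (l' := m) (a := 1 / 2) (b := 1) (by norm_num)
      (hlc.mono (Icc_subset_Icc_left (by norm_num))) hm.continuousOn (by
        intro x hx
        rw [hl x ⟨le_trans (by norm_num) hx.1, hx.2⟩, sub_zero]
        show (if x ≤ 1 / 2 then α.extend (2 * x) else _) = exp (Real.log δ + _)
        rw [exp_add, hδ']
        split_ifs with h
        · have hx' : x = 1 / 2 := le_antisymm h hx.1
          subst hx'
          norm_num
        · rfl)
    have hm1 : m 1 - m (1 / 2) = (e - t) * I := by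
      show (Real.log δ + ((t + (2 * 1 - 1) * (e - t) : ℝ) : ℂ) * I) -
        (Real.log δ + ((t + (2 * (1 / 2) - 1) * (e - t) : ℝ) : ℂ) * I) = _
      push_cast
      ring
    rw [hm1] at key
    linear_combination -key - hl01

theorem two_arcs {B : Set ℂ} {δ s t R : ℝ} (hδ : 0 < δ) (h1 : s < t) (h2 : t < s + 2 * Real.pi)
    (hj : JoinedIn B ((δ : ℂ) * exp (s * I)) ((δ : ℂ) * exp (t * I))) (hB : ∀ z ∈ B, ‖z‖ < R)
    (hδR : δ < R) {p1 p2 : ℂ} (hp1 : R ≤ ‖p1‖) (hp2 : R ≤ ‖p2‖)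
    (ha1 : JoinedIn (B ∪ arc δ s t)ᶜ 0 p1) (ha2 : JoinedIn (B ∪ arc δ t (s + 2 * Real.pi))ᶜ 0 p2) :
    False := by
  obtain ⟨α, hα⟩ := hj
  obtain ⟨l1, hc1, he1, hi1⟩ := arc_close (e := s) hδ α hα hB hδR rfl (C := arc δ s t) (by
    intro x hx
    refine ⟨t + x * (s - t), ⟨?_, ?_⟩, rfl⟩
    · nlinarith [hx.1, hx.2]
    · nlinarith [hx.1, hx.2]) hp1 ha1
  obtain ⟨l2, hc2, he2, hi2⟩ := arc_close (e := s + 2 * Real.pi) hδ α hα hB hδR (by
    push_cast
    rw [add_mul, exp_add, exp_two_pi_mul_I, mul_one]) (C := arc δ t (s + 2 * Real.pi)) (by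
    intro x hx
    refine ⟨t + x * (s + 2 * Real.pi - t), ⟨?_, ?_⟩, rfl⟩
    · nlinarith [hx.1, hx.2]
    · nlinarith [hx.1, hx.2]) hp2 ha2
  have key := log_incr (l := l1) (l' := l2) (a := 0) (b := 1 / 2) (by norm_num) hc1 hc2 (by
    intro x hx
    rw [he1 x hx, he2 x hx])
  rw [hi1, hi2] at key
  have h3 : (2 * Real.pi : ℂ) * I = 0 := by
    push_cast at key
    linear_combination key
  exact Complex.two_pi_I_ne_zero (by simpa using h3)

end Pool.Agent.H74.UC
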