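import Pool.Agent.H74.UC.Defs

set_option autoImplicit false

open Complex MeasureTheory Set Filter Topology Metric
open scoped ContDiff RealInnerProductSpace ComplexConjugate

namespace Pool.Agent.H74.UC

open Pool.Agent.H74.PH

/-- the trigonometric inequality -/
theorem bdry_trig {φ ψ : ℝ} (h1 : Real.pi / 6 ≤ φ) (h2 : φ ≤ ψ) (h3 : ψ ≤ Real.pi / 3) :
    ψ - φ ≤ Real.cos (2 * φ) - Real.cos (2 * ψ) := by
  have hpi := Real.pi_pos
  have hpi4 : Real.pi < 3.15 := Real.pi_lt_d2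
  have e : Real.cos (2 * φ) - Real.cos (2 * ψ) = 2 * Real.sin (ψ + φ) * Real.sin (ψ - φ) := by
    have a1 : Real.cos (2 * φ) = Real.cos ((ψ + φ) - (ψ - φ)) := by congr 1; ring
    have a2 : Real.cos (2 * ψ) = Real.cos ((ψ + φ) + (ψ - φ)) := by congr 1; ring
    rw [a1, a2, Real.cos_sub (ψ + φ) (ψ - φ), Real.cos_add (ψ + φ) (ψ - φ)]
    ring
  rw [e]
  have hs : Real.sqrt 3 / 2 ≤ Real.sin (ψ + φ) := by
    rcases le_total (ψ + φ) (Real.pi / 2) with h | h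
    · rw [← Real.sin_pi_div_three]
      exact Real.sin_le_sin_of_le_of_le_pi_div_two (by linarith) h (by linarith)
    · rw [← Real.sin_pi_div_three, ← Real.sin_pi_sub (ψ + φ)]
      exact Real.sin_le_sin_of_le_of_le_pi_div_two (by linarith) (by linarith) (by linarith)
  have hj : 2 / Real.pi * (ψ - φ) ≤ Real.sin (ψ - φ) :=
    Real.mul_le_sin (by linarith) (by linarith)
  have h3' : (1.7 : ℝ) ≤ Real.sqrt 3 := by
    apply Real.le_sqrt_of_sq_le; norm_num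
  have hd : 0 ≤ ψ - φ := by linarith
  have hj' : 0.6 * (ψ - φ) ≤ Real.sin (ψ - φ) := by
    refine le_trans ?_ hj
    apply mul_le_mul_of_nonneg_right _ hd
    rw [le_div_iff₀ hpi]; linarith
  have hs' : (0.85 : ℝ) ≤ Real.sin (ψ + φ) := by linarith
  have : 2 * (0.85 * (0.6 * (ψ - φ))) ≤ 2 * (Real.sin (ψ + φ) * Real.sin (ψ - φ)) := by
    apply mul_le_mul_of_nonneg_left _ (by norm_num)
    apply mul_le_mul hs' hj' (by positivity) (by linarith)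
  have h5 : ψ - φ ≤ 2 * (0.85 * (0.6 * (ψ - φ))) := by
    have : 2 * (0.85 * (0.6 * (ψ - φ))) = 1.02 * (ψ - φ) := by ring
    rw [this]; linarith
  linarith

/-- the parametrisation of a quarter of the circle -/
noncomputable def qarc (τ s1 s2 φ : ℝ) : ℂ := ⟨τ * (s1 * Real.cos φ), τ * (s2 * Real.sin φ)⟩

theorem qarc_norm {τ s1 s2 φ : ℝ} (hτ : 0 < τ) (h1 : s1 ^ 2 = 1) (h2 : s2 ^ 2 = 1) :
    ‖qarc τ s1 s2 φ‖ = τ := by
  have h : ‖qarc τ s1 s2 φ‖ ^ 2 = τ ^ 2 := by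
    rw [← Complex.normSq_eq_norm_sq, Complex.normSq_apply]
    simp only [qarc]
    have := Real.sin_sq_add_cos_sq φ
    linear_combination (τ ^ 2) * this + τ ^ 2 * Real.cos φ ^ 2 * h1 + τ ^ 2 * Real.sin φ ^ 2 * h2
  have h3 := norm_nonneg (qarc τ s1 s2 φ)
  nlinarith

theorem qarc_sq {τ s1 s2 φ : ℝ} (hτ : 0 < τ) (h1 : s1 ^ 2 = 1) (h2 : s2 ^ 2 = 1) :
    ((qarc τ s1 s2 φ) ^ 2).re / τ ^ 2 = Real.cos (2 * φ) := by
  have h : ((qarc τ s1 s2 φ) ^ 2).re = τ ^ 2 * Real.cos (2 * φ) := by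
    rw [pow_two, Complex.mul_re, Real.cos_two_mul']
    simp only [qarc]
    linear_combination τ ^ 2 * Real.cos φ ^ 2 * h1 - τ ^ 2 * Real.sin φ ^ 2 * h2
  rw [h]; field_simp

theorem qarc_dist {τ s1 s2 φ ψ : ℝ} (hτ : 0 < τ) (h1 : s1 ^ 2 = 1) (h2 : s2 ^ 2 = 1)
    (h : φ ≤ ψ) : ‖qarc τ s1 s2 ψ - qarc τ s1 s2 φ‖ ≤ τ * (ψ - φ) := by
  have h3 : ‖qarc τ s1 s2 ψ - qarc τ s1 s2 φ‖ ^ 2 ≤ (τ * (ψ - φ)) ^ 2 := by
    rw [← Complex.normSq_eq_norm_sq, Complex.normSq_apply]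
    simp only [qarc, Complex.sub_re, Complex.sub_im]
    have e1 := Real.sin_sq_add_cos_sq φ
    have e2 := Real.sin_sq_add_cos_sq ψ
    have e3 := Real.cos_sub ψ φ
    have e4 := Real.one_sub_sq_div_two_le_cos (x := ψ - φ)
    have e5 : (τ * (s1 * Real.cos ψ) - τ * (s1 * Real.cos φ)) *
        (τ * (s1 * Real.cos ψ) - τ * (s1 * Real.cos φ)) +
        (τ * (s2 * Real.sin ψ) - τ * (s2 * Real.sin φ)) *
        (τ * (s2 * Real.sin ψ) - τ * (s2 * Real.sin φ)) =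
        τ ^ 2 * (2 - 2 * Real.cos (ψ - φ)) := by
      rw [e3]
      linear_combination τ ^ 2 * e1 + τ ^ 2 * e2 + τ ^ 2 * (Real.cos ψ - Real.cos φ) ^ 2 * h1 +
        τ ^ 2 * (Real.sin ψ - Real.sin φ) ^ 2 * h2
    rw [e5, mul_pow]
    apply mul_le_mul_of_nonneg_left _ (sq_nonneg τ)
    linarith
  have h4 : 0 ≤ τ * (ψ - φ) := mul_nonneg hτ.le (by linarith)
  exact abs_le_of_sq_le_sq' h3 h4 |>.2

theorem qarc_cont (τ s1 s2 : ℝ) : Continuous (qarc τ s1 s2) := by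
  have : qarc τ s1 s2 = fun φ => ((τ * (s1 * Real.cos φ) : ℝ) : ℂ) +
      ((τ * (s2 * Real.sin φ) : ℝ) : ℂ) * I := by
    funext φ
    apply Complex.ext <;> simp [qarc, -Complex.ofReal_mul, -Complex.ofReal_cos, -Complex.ofReal_sin]
  rw [this]
  fun_prop

theorem qarc_exists {τ : ℝ} (hτ : 0 < τ) {v : ℂ} (hv : ‖v‖ = τ) {s2 : ℝ} (h2 : s2 ^ 2 = 1)
    (him : 0 ≤ s2 * v.im) : ∃ s1 φ : ℝ, s1 ^ 2 = 1 ∧ 0 ≤ φ ∧ φ ≤ Real.pi / 2 ∧
      v = qarc τ s1 s2 φ := by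
  have hn : v.re ^ 2 + v.im ^ 2 = τ ^ 2 := by
    rw [← hv, ← Complex.normSq_eq_norm_sq, Complex.normSq_apply]; ring
  obtain ⟨s1, hs1, hre⟩ : ∃ s1 : ℝ, s1 ^ 2 = 1 ∧ 0 ≤ s1 * v.re := by
    rcases le_total 0 v.re with h | h
    · exact ⟨1, by norm_num, by simpa using h⟩
    · exact ⟨-1, by norm_num, by simpa using h⟩
  set y := s2 * v.im / τ with hy
  have hy0 : 0 ≤ y := div_nonneg him hτ.le
  have hy2 : y ^ 2 ≤ 1 := by
    rw [hy, div_pow, div_le_one (by positivity), mul_pow, h2]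
    nlinarith [sq_nonneg v.re]
  have hy1 : y ≤ 1 := by nlinarith
  refine ⟨s1, Real.arcsin y, hs1, Real.arcsin_nonneg.mpr hy0, Real.arcsin_le_pi_div_two y, ?_⟩
  have hsin : Real.sin (Real.arcsin y) = y := Real.sin_arcsin (by linarith) hy1
  have hcos : Real.cos (Real.arcsin y) = s1 * v.re / τ := by
    have hc0 : 0 ≤ Real.cos (Real.arcsin y) := Real.cos_arcsin_nonneg y
    have hx0 : 0 ≤ s1 * v.re / τ := div_nonneg hre hτ.le
    have h5 : Real.cos (Real.arcsin y) ^ 2 = (s1 * v.re / τ) ^ 2 := by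
      have := Real.sin_sq_add_cos_sq (Real.arcsin y)
      rw [hsin] at this
      have h6 : (s1 * v.re / τ) ^ 2 + y ^ 2 = 1 := by
        rw [hy, div_pow, div_pow, mul_pow, mul_pow, hs1, h2, ← add_div, one_mul, one_mul, hn]
        field_simp
      linarith
    nlinarith [sq_nonneg (Real.cos (Real.arcsin y) - s1 * v.re / τ)]
  apply Complex.ext
  · simp only [qarc]
    rw [hcos]
    field_simp
    linear_combination (-v.re) * hs1
  · simp only [qarc]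
    rw [hsin, hy]
    field_simp
    linear_combination (-v.im) * h2

theorem bdry_join {τ c : ℝ} (hτ : 0 < τ) (hc : 0 < c) {F : ℂ → ℝ}
    (hF : ∀ v, ‖v‖ = τ → |F v| ≤ c / 4)
    (hL : ∀ v w, ‖v‖ = τ → ‖w‖ = τ → |F v - F w| ≤ c / τ * ‖v - w‖) {v : ℂ} (hv : ‖v‖ = τ)
    (hpos : 0 < F v - c * (v ^ 2).re / τ ^ 2) {s2 : ℝ} (h2 : s2 ^ 2 = 1) (him : 0 ≤ s2 * v.im) :
    JoinedIn {v | ‖v‖ = τ ∧ 0 < F v - c * (v ^ 2).re / τ ^ 2} v ⟨0, τ * s2⟩ := by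
  obtain ⟨s1, φ, h1, h0, hpi2, rfl⟩ := qarc_exists hτ hv h2 him
  have key : ∀ ψ, φ ≤ ψ → ψ ≤ Real.pi / 2 →
      qarc τ s1 s2 ψ ∈ {v | ‖v‖ = τ ∧ 0 < F v - c * (v ^ 2).re / τ ^ 2} := by
    intro ψ hψ hψ2
    refine ⟨qarc_norm hτ h1 h2, ?_⟩
    rw [mul_div_assoc, qarc_sq hτ h1 h2] at hpos ⊢
    have b1 := abs_le.mp (hF _ (qarc_norm (φ := φ) hτ h1 h2))
    have b2 := abs_le.mp (hF _ (qarc_norm (φ := ψ) hτ h1 h2))
    have hφ6 : Real.pi / 6 ≤ φ := by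
      by_contra hlt
      push Not at hlt
      have : 1 / 2 ≤ Real.cos (2 * φ) := by
        rw [← Real.cos_pi_div_three]
        exact Real.cos_le_cos_of_nonneg_of_le_pi (by linarith) (by linarith [Real.pi_pos])
          (by linarith)
      nlinarith
    rcases le_total ψ (Real.pi / 3) with h | h
    · have t := bdry_trig hφ6 hψ h
      have l := (abs_le.mp (hL _ _ (qarc_norm (φ := ψ) hτ h1 h2)
        (qarc_norm (φ := φ) hτ h1 h2))).1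
      have d := qarc_dist hτ h1 h2 hψ (s1 := s1) (s2 := s2)
      have d2 : c / τ * ‖qarc τ s1 s2 ψ - qarc τ s1 s2 φ‖ ≤ c * (ψ - φ) := by
        calc c / τ * ‖qarc τ s1 s2 ψ - qarc τ s1 s2 φ‖ ≤ c / τ * (τ * (ψ - φ)) :=
              mul_le_mul_of_nonneg_left d (by positivity)
          _ = c * (ψ - φ) := by field_simp
      have t2 := mul_le_mul_of_nonneg_left t hc.le
      linarith
    · have : Real.cos (2 * ψ) ≤ -(1 / 2) := by
        rw [← Real.cos_pi_div_three, ← Real.cos_pi_sub]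
        apply Real.cos_le_cos_of_nonneg_of_le_pi (by linarith [Real.pi_pos]) (by linarith)
          (by linarith)
      nlinarith
  have hend : qarc τ s1 s2 (Real.pi / 2) = ⟨0, τ * s2⟩ := by
    apply Complex.ext <;> simp [qarc]
  rw [← hend]
  refine JoinedIn.ofLine (f := fun t => qarc τ s1 s2 (φ + t * (Real.pi / 2 - φ))) ?_ ?_ ?_ ?_
  · apply Continuous.continuousOn
    exact (qarc_cont τ s1 s2).comp (by fun_prop)
  · simp
  · simp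
  · rintro _ ⟨t, ht, rfl⟩
    apply key
    · nlinarith [ht.1]
    · nlinarith [ht.2]

/-- UC-BDRY: the sign structure on the boundary circle. -/
theorem bdry {τ c : ℝ} (hτ : 0 < τ) (hc : 0 < c) {F : ℂ → ℝ} (hF : ∀ v, ‖v‖ = τ → |F v| ≤ c / 4)
    (hL : ∀ v w, ‖v‖ = τ → ‖w‖ = τ → |F v - F w| ≤ c / τ * ‖v - w‖) :
    ∃ A1 A2 : Set ℂ, (∀ v, ‖v‖ = τ → 0 < F v - c * (v ^ 2).re / τ ^ 2 → v ∈ A1 ∨ v ∈ A2) ∧
      (∀ x ∈ A1, ∀ y ∈ A1, JoinedIn {v | ‖v‖ = τ ∧ 0 < F v - c * (v ^ 2).re / τ ^ 2} x y) ∧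
      (∀ x ∈ A2, ∀ y ∈ A2, JoinedIn {v | ‖v‖ = τ ∧ 0 < F v - c * (v ^ 2).re / τ ^ 2} x y) := by
  have j1 : ∀ x, ‖x‖ = τ → 0 < F x - c * (x ^ 2).re / τ ^ 2 → 0 ≤ x.im →
      JoinedIn {v | ‖v‖ = τ ∧ 0 < F v - c * (v ^ 2).re / τ ^ 2} x ⟨0, τ * 1⟩ := by
    intro x hx hp him
    exact bdry_join hτ hc hF hL hx hp (by norm_num) (by simpa using him)
  have j2 : ∀ x, ‖x‖ = τ → 0 < F x - c * (x ^ 2).re / τ ^ 2 → x.im ≤ 0 →
      JoinedIn {v | ‖v‖ = τ ∧ 0 < F v - c * (v ^ 2).re / τ ^ 2} x ⟨0, τ * (-1)⟩ := by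
    intro x hx hp him
    exact bdry_join hτ hc hF hL hx hp (by norm_num) (by simpa using him)
  refine ⟨{v | ‖v‖ = τ ∧ 0 < F v - c * (v ^ 2).re / τ ^ 2 ∧ 0 ≤ v.im},
    {v | ‖v‖ = τ ∧ 0 < F v - c * (v ^ 2).re / τ ^ 2 ∧ v.im ≤ 0}, ?_, ?_, ?_⟩
  · intro v hv hp
    rcases le_total 0 v.im with h | h
    · exact Or.inl ⟨hv, hp, h⟩
    · exact Or.inr ⟨hv, hp, h⟩
  · intro x hx y hy
    exact (j1 x hx.1 hx.2.1 hx.2.2).trans (j1 y hy.1 hy.2.1 hy.2.2).symm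
  · intro x hx y hy
    exact (j2 x hx.1 hx.2.1 hx.2.2).trans (j2 y hy.1 hy.2.1 hy.2.2).symm

end Pool.Agent.H74.UC
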