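import Pool.Agent.H74.UC.Defs

/-!
# UC-CENEQ: the derivative of the centre depends on `g`, `S g` and `D (S g)` only
-/

set_option autoImplicit false

open Complex MeasureTheory Set Filter Topology Metric
open scoped ContDiff RealInnerProductSpace ComplexConjugate

namespace Pool.Agent.H74.UC

open Pool.Agent.H74.PH

namespace CENEQa

theorem J_diff {K : ℝ} (hK : 0 < K) {s : ℂ} (hs : s ≠ 0) : DifferentiableAt ℝ (J K) s := by
  have h1 : (((K * s.re ^ 2 + s.im ^ 2 : ℝ)) : ℂ) ≠ 0 := by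
    rw [Ne, ofReal_eq_zero]
    intro h0
    apply hs
    have h2 : 0 ≤ K * s.re ^ 2 := by positivity
    have h3 : 0 ≤ s.im ^ 2 := by positivity
    have h4 : s.im ^ 2 = 0 := by linarith
    have h5 : K * s.re ^ 2 = 0 := by linarith
    have h6 : s.re ^ 2 = 0 := by
      rcases mul_eq_zero.1 h5 with h | h
      · exact absurd h hK.ne'
      · exact h
    exact Complex.ext (by simpa using h6) (by simpa using h4)
  have hre : DifferentiableAt ℝ (fun s : ℂ => s.re) s := reCLM.differentiableAt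
  have him : DifferentiableAt ℝ (fun s : ℂ => s.im) s := imCLM.differentiableAt
  have hof : ∀ x : ℝ, DifferentiableAt ℝ (fun x : ℝ => (x : ℂ)) x := fun x =>
    ofRealCLM.differentiableAt
  have n1 : DifferentiableAt ℝ (fun s : ℂ => ((K * s.re : ℝ) : ℂ)) s :=
    (hof _).comp s (hre.const_mul K)
  have n2 : DifferentiableAt ℝ (fun s : ℂ => ((s.im : ℝ) : ℂ)) s := (hof _).comp s him
  have n3 : DifferentiableAt ℝ (fun s : ℂ => ((K * s.re ^ 2 + s.im ^ 2 : ℝ) : ℂ)) s :=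
    (hof _).comp s (((hre.pow 2).const_mul K).add (him.pow 2))
  have h2 : DifferentiableAt ℝ (fun s : ℂ => (((K * s.re ^ 2 + s.im ^ 2 : ℝ) : ℂ))⁻¹) s :=
    n3.inv h1
  have h3 := (n1.add (n2.mul_const I)).mul h2
  have e : J K = fun s : ℂ => (((K * s.re : ℝ) : ℂ) + ((s.im : ℝ) : ℂ) * I) *
      (((K * s.re ^ 2 + s.im ^ 2 : ℝ) : ℂ))⁻¹ := by
    funext s
    rw [J, div_eq_mul_inv]
  rw [e]
  exact h3

theorem S_diff {K : ℝ} {Ω : Set ℂ} {g : ℂ → ℂ} (hg : PGrad K Ω g) {z0 : ℂ} (hz : z0 ∈ Ω)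
    (h0 : g z0 ≠ 0) : DifferentiableAt ℝ (S g) z0 := by
  have h1 : ContDiffAt ℝ 3 g z0 := hg.smooth z0 hz h0
  have h2 : ContDiffAt ℝ 2 (fderiv ℝ g) z0 := h1.fderiv_right (by norm_num)
  have h3 : ContDiffAt ℝ 2 (fun z => fderiv ℝ g z (g z)) z0 :=
    h2.clm_apply (h1.of_le (by norm_num))
  have h4 : DifferentiableAt ℝ (fun z => fderiv ℝ g z (g z)) z0 :=
    h3.differentiableAt (by norm_num)
  have h5 : DifferentiableAt ℝ (fun z => (g z)⁻¹) z0 :=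
    (h1.differentiableAt (by norm_num)).inv h0
  have h6 := h4.mul h5
  have e : S g = fun z => fderiv ℝ g z (g z) * (g z)⁻¹ := by
    funext z
    rw [S, div_eq_mul_inv]
  rw [e]
  exact h6

theorem cen_der {K a : ℝ} (hK : 0 < K) {g : ℂ → ℂ} {z0 : ℂ} (hg : DifferentiableAt ℝ g z0)
    (hS : DifferentiableAt ℝ (S g) z0) (hs : S g z0 ≠ 0) :
    HasFDerivAt (cen K a g) (ContinuousLinearMap.id ℝ ℂ - (a : ℂ)⁻¹ •
      (J K (S g z0) • fderiv ℝ g z0 + g z0 • (fderiv ℝ (J K) (S g z0)).comp (fderiv ℝ (S g) z0)))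
      z0 := by
  have h1 := (J_diff hK hs).hasFDerivAt.comp z0 hS.hasFDerivAt
  have h2 := h1.mul hg.hasFDerivAt
  have h3 := h2.const_mul ((a : ℂ)⁻¹)
  have h4 := (hasFDerivAt_id z0).sub h3
  have e : cen K a g = (fun z => id z - (a : ℂ)⁻¹ * ((J K ∘ S g) z * g z)) := by
    funext z
    simp only [cen, id, Function.comp]
    rw [div_eq_inv_mul]
  rw [e]
  exact h4

theorem D_eq {K : ℝ} {Ω : Set ℂ} {g1 g2 : ℂ → ℂ} (h1 : PGrad K Ω g1) (h2 : PGrad K Ω g2) {z0 : ℂ}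
    (hz : z0 ∈ Ω) (h0 : g1 z0 ≠ 0) (hg : g1 z0 = g2 z0) (hS : S g1 z0 = S g2 z0) :
    fderiv ℝ g1 z0 = fderiv ℝ g2 z0 := by
  ext1 v
  have h0' : g2 z0 ≠ 0 := hg ▸ h0
  set w := v / g1 z0 with hw
  have hv : v = ((w.re : ℝ) + (w.im : ℝ) * I) * g1 z0 := by
    rw [re_add_im, hw, div_mul_cancel₀ _ h0]
  have e1 := h1.eq z0 hz h0 w.re w.im
  have e2 := h2.eq z0 hz h0' w.re w.im
  rw [← hg, ← hS, ← hv] at e2
  rw [← hv] at e1
  rw [e1, e2]

end CENEQa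

open CENEQa

/-- UC-CENEQ: the derivative of the centre depends on `g`, `S g` and `D (S g)` only. -/
theorem cen_eq {K a : ℝ} (hK : 0 < K) (ha : 0 < a) {Ω : Set ℂ} {g1 g2 : ℂ → ℂ}
    (h1 : PGrad K Ω g1) (h2 : PGrad K Ω g2) {z0 : ℂ} (hz : z0 ∈ Ω) (h0 : g1 z0 ≠ 0)
    (hg : g1 z0 = g2 z0) (hS : S g1 z0 = S g2 z0) (hS0 : S g1 z0 ≠ 0)
    (hd : fderiv ℝ (S g1) z0 = fderiv ℝ (S g2) z0)
    (h : HasFDerivAt (cen K a g2) (0 : ℂ →L[ℝ] ℂ) z0) :
    HasFDerivAt (cen K a g1) (0 : ℂ →L[ℝ] ℂ) z0 := by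
  have h0' : g2 z0 ≠ 0 := hg ▸ h0
  have hS0' : S g2 z0 ≠ 0 := hS ▸ hS0
  have k1 := cen_der (a := a) hK ((h1.smooth z0 hz h0).differentiableAt (by norm_num))
    (S_diff h1 hz h0) hS0
  have k2 := cen_der (a := a) hK ((h2.smooth z0 hz h0').differentiableAt (by norm_num))
    (S_diff h2 hz h0') hS0'
  have hu := k2.unique h
  rw [hg, hS, hd, D_eq h1 h2 hz h0 hg hS, hu] at k1
  exact k1

end Pool.Agent.H74.UC
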