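import Pool.Agent.H74.UC.Defs

set_option autoImplicit false

open Complex MeasureTheory Set Filter Topology Metric
open scoped ContDiff RealInnerProductSpace ComplexConjugate

namespace Pool.Agent.H74.UC

open Pool.Agent.H74.PH

theorem censim_J_mul (K : ℝ) {c : ℝ} (hc : c ≠ 0) (s : ℂ) : J K ((c : ℂ) * s) = J K s / c := by
  unfold J
  have h1 : ((c : ℂ) * s).re = c * s.re := by simp
  have h2 : ((c : ℂ) * s).im = c * s.im := by simp
  have hc' : (c : ℂ) ≠ 0 := by exact_mod_cast hc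
  rw [h1, h2]
  have h3 : ((K * (c * s.re) : ℝ) + ((c * s.im : ℝ) : ℂ) * I) =
      (c : ℂ) * ((K * s.re : ℝ) + (s.im : ℝ) * I) := by
    push_cast; ring
  have h4 : ((K * (c * s.re) ^ 2 + (c * s.im) ^ 2 : ℝ) : ℂ) =
      (c : ℂ) * (((K * s.re ^ 2 + s.im ^ 2 : ℝ) : ℂ) * c) := by
    push_cast; ring
  rw [h3, h4, mul_div_mul_left _ _ hc', div_div]

/-- UC-CENSIM: the centre under a similarity. -/
theorem cen_sim {K a : ℝ} (hK : 0 < K) (ha : 0 < a) {Ω : Set ℂ} {g : ℂ → ℂ} (hg : PGrad K Ω g)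
    (z0 x0 e : ℂ) {ρ l : ℝ} (hρ : 0 < ρ) (hl : 0 < l) (he : ‖e‖ = 1) (hz : z0 ∈ Ω)
    (h0 : g z0 ≠ 0) (hS0 : S g z0 ≠ 0)
    (hS : ∀ x, z0 + ρ * e * (x - x0) ∈ Ω → g (z0 + ρ * e * (x - x0)) ≠ 0 →
      S (fun x => l * conj e * g (z0 + ρ * e * (x - x0))) x =
        l * ρ * S g (z0 + ρ * e * (x - x0)))
    (hD : HasFDerivAt (cen K a (fun x => l * conj e * g (z0 + ρ * e * (x - x0))))
      (0 : ℂ →L[ℝ] ℂ) x0) : HasFDerivAt (cen K a g) (0 : ℂ →L[ℝ] ℂ) z0 := by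
  have hρ' : (ρ : ℂ) ≠ 0 := by exact_mod_cast hρ.ne'
  have hl' : (l : ℂ) ≠ 0 := by exact_mod_cast hl.ne'
  have hee : e * conj e = 1 := by
    rw [Complex.mul_conj, Complex.normSq_eq_norm_sq, he]; norm_num
  obtain ⟨C, hC⟩ : ∃ C : ℂ → ℂ, C = cen K a (fun x => l * conj e * g (z0 + ρ * e * (x - x0))) :=
    ⟨_, rfl⟩
  rw [← hC] at hD
  have hev : ∀ᶠ z in 𝓝 z0, z ∈ Ω ∧ g z ≠ 0 := by
    have h1 : ContinuousAt g z0 := (hg.cont z0 hz).continuousAt (hg.isOpen.mem_nhds hz)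
    filter_upwards [hg.isOpen.mem_nhds hz, h1.eventually_ne h0] with z h2 h3 using ⟨h2, h3⟩
  have hT : ∀ z : ℂ, z0 + ρ * e * (x0 + (z - z0) * conj e / ρ - x0) = z := by
    intro z
    have : z0 + ρ * e * (x0 + (z - z0) * conj e / ρ - x0) = z0 + (z - z0) * (e * conj e) := by
      field_simp
      ring
    rw [this, hee]; ring
  have hEq : cen K a g =ᶠ[𝓝 z0] fun z => z0 + ρ * e * (C (x0 + (z - z0) * conj e / ρ) - x0) := by
    filter_upwards [hev] with z hz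
    have h1 := hT z
    obtain ⟨x, hx⟩ : ∃ x, x = x0 + (z - z0) * conj e / ρ := ⟨_, rfl⟩
    rw [← hx] at h1 ⊢
    rw [hC]
    have h2 := hS x (by rw [h1]; exact hz.1) (by rw [h1]; exact hz.2)
    show cen K a g z = z0 + ρ * e * ((x - J K (S (fun x => l * conj e * g (z0 + ρ * e * (x - x0))) x)
      * (l * conj e * g (z0 + ρ * e * (x - x0))) / a) - x0)
    rw [h2, h1]
    have h3 : (l : ℂ) * ρ * S g z = ((l * ρ : ℝ) : ℂ) * S g z := by push_cast; ring
    rw [h3, censim_J_mul K (mul_pos hl hρ).ne']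
    have h4 : z0 + ρ * e * ((x - J K (S g z) / ((l * ρ : ℝ) : ℂ) * (l * conj e * g z) / a) - x0) =
        (z0 + ρ * e * (x - x0)) - (e * conj e) * (J K (S g z) * g z / a) := by
      push_cast
      field_simp
      ring
    rw [h4, hee, h1, one_mul]
    rfl
  refine HasFDerivAt.congr_of_eventuallyEq ?_ hEq
  have h5 : HasFDerivAt (fun z : ℂ => x0 + (z - z0) * conj e / ρ)
      (((conj e / ρ) • ContinuousLinearMap.id ℂ ℂ).restrictScalars ℝ) z0 := by
    have : HasDerivAt (fun z : ℂ => x0 + (z - z0) * conj e / ρ) (conj e / ρ) z0 := by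
      have := ((((hasDerivAt_id z0).sub_const z0).mul_const (conj e)).div_const (ρ : ℂ)).const_add x0
      simpa using this
    have := this.hasFDerivAt.restrictScalars ℝ
    refine this.congr_fderiv ?_
    ext <;> simp [mul_comm]
  have h6 : HasFDerivAt C (0 : ℂ →L[ℝ] ℂ) (x0 + (z0 - z0) * conj e / ρ) := by
    simpa using hD
  have h7 := h6.comp z0 h5
  have h8 := ((h7.sub_const x0).const_mul ((ρ : ℂ) * e)).const_add z0
  simpa using h8

end Pool.Agent.H74.UC
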