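import Pool.Agent.H74.UC.TEST

/-!
UC-COMP: comparison principle.
-/

set_option autoImplicit false

open Complex MeasureTheory Set Filter Topology Metric
open scoped ContDiff RealInnerProductSpace ComplexConjugate

namespace Pool.Agent.H74.UC

open Pool.Agent.H74.PH

theorem comp_norm_A {p : ℝ} (hp : 1 < p) (ξ : ℂ) : ‖A p ξ‖ = ‖ξ‖ ^ (p - 1) := by
  unfold A
  rw [norm_smul, Real.norm_of_nonneg (Real.rpow_nonneg (norm_nonneg _) _)]
  rcases eq_or_ne ξ 0 with h | h
  · rw [h, norm_zero, mul_zero, Real.zero_rpow (by linarith)]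
  · have h0 : 0 < ‖ξ‖ := norm_pos_iff.2 h
    rw [← Real.rpow_add_one h0.ne']
    congr 1
    ring

theorem comp_A_cont {p : ℝ} (hp : 1 < p) : Continuous (A p) := by
  rw [continuous_iff_continuousAt]
  intro ξ
  rcases eq_or_ne ξ 0 with h | h
  · subst h
    have h0 : A p 0 = 0 := by simp [A]
    unfold ContinuousAt
    rw [h0]
    apply squeeze_zero_norm (a := fun x : ℂ => ‖x‖ ^ (p - 1)) (fun x => (comp_norm_A hp x).le)
    have h1 : ContinuousAt (fun x : ℂ => ‖x‖ ^ (p - 1)) 0 :=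
      (continuous_norm.continuousAt).rpow_const (Or.inr (by linarith))
    have h2 := h1.tendsto
    simpa [Real.zero_rpow (show p - 1 ≠ 0 by linarith)] using h2
  · have h0 : ‖ξ‖ ≠ 0 := norm_ne_zero_iff.2 h
    unfold A
    exact ((continuous_norm.continuousAt).rpow_const (Or.inl h0)).smul continuousAt_id

theorem comp_A_ident {p : ℝ} (hp : 1 < p) (a b : ℂ) : ⟪A p a - A p b, a - b⟫ =
    (‖a‖ ^ (p - 1) - ‖b‖ ^ (p - 1)) * (‖a‖ - ‖b‖) +
      (‖a‖ ^ (p - 2) + ‖b‖ ^ (p - 2)) * (‖a‖ * ‖b‖ - ⟪a, b⟫) := by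
  have key : ∀ r : ℝ, 0 ≤ r → r ^ (p - 1) = r ^ (p - 2) * r := by
    intro r hr
    rcases hr.eq_or_lt with h | h
    · rw [← h, mul_zero, Real.zero_rpow (by linarith)]
    · rw [← Real.rpow_add_one h.ne']
      congr 1
      ring
  rw [key _ (norm_nonneg a), key _ (norm_nonneg b)]
  unfold A
  rw [inner_sub_left, inner_sub_right, inner_sub_right, real_inner_smul_left,
    real_inner_smul_left, real_inner_smul_left, real_inner_smul_left,
    real_inner_self_eq_norm_sq, real_inner_self_eq_norm_sq, real_inner_comm a b]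
  ring

theorem comp_A_mono {p : ℝ} (hp : 1 < p) (a b : ℂ) :
    0 ≤ ⟪A p a - A p b, a - b⟫ ∧ (⟪A p a - A p b, a - b⟫ = 0 → a = b) := by
  have h1 : 0 ≤ (‖a‖ ^ (p - 1) - ‖b‖ ^ (p - 1)) * (‖a‖ - ‖b‖) := by
    rcases le_total ‖a‖ ‖b‖ with h | h
    · have := Real.rpow_le_rpow (norm_nonneg a) h (show 0 ≤ p - 1 by linarith)
      exact mul_nonneg_of_nonpos_of_nonpos (by linarith) (by linarith)
    · have := Real.rpow_le_rpow (norm_nonneg b) h (show 0 ≤ p - 1 by linarith)
      exact mul_nonneg (by linarith) (by linarith)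
  have h2 : 0 ≤ ‖a‖ * ‖b‖ - ⟪a, b⟫ := sub_nonneg.2 (real_inner_le_norm a b)
  have h3 : 0 ≤ ‖a‖ ^ (p - 2) + ‖b‖ ^ (p - 2) :=
    add_nonneg (Real.rpow_nonneg (norm_nonneg _) _) (Real.rpow_nonneg (norm_nonneg _) _)
  have h4 := mul_nonneg h3 h2
  rw [comp_A_ident hp]
  refine ⟨add_nonneg h1 h4, fun h => ?_⟩
  have e1 : (‖a‖ ^ (p - 1) - ‖b‖ ^ (p - 1)) * (‖a‖ - ‖b‖) = 0 := by linarith
  have e2 : (‖a‖ ^ (p - 2) + ‖b‖ ^ (p - 2)) * (‖a‖ * ‖b‖ - ⟪a, b⟫) = 0 := by linarith
  have hr : ‖a‖ = ‖b‖ := by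
    rcases mul_eq_zero.1 e1 with h | h
    · have := Real.rpow_left_injOn (show p - 1 ≠ 0 by linarith) (norm_nonneg a) (norm_nonneg b)
        (show ‖a‖ ^ (p - 1) = ‖b‖ ^ (p - 1) by linarith)
      exact this
    · linarith
  rcases (norm_nonneg b).eq_or_lt with h0 | h0
  · have hb : b = 0 := norm_eq_zero.1 h0.symm
    have ha : a = 0 := norm_eq_zero.1 (hr.trans h0.symm)
    rw [ha, hb]
  · have h5 : 0 < ‖a‖ ^ (p - 2) + ‖b‖ ^ (p - 2) :=
      add_pos (Real.rpow_pos_of_pos (hr ▸ h0) _) (Real.rpow_pos_of_pos h0 _)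
    have h6 : ‖a‖ * ‖b‖ - ⟪a, b⟫ = 0 := (mul_eq_zero.1 e2).resolve_left h5.ne'
    have h7 : ‖a - b‖ ^ 2 = 0 := by
      rw [@norm_sub_sq_real]
      rw [hr] at h6 ⊢
      linarith
    exact sub_eq_zero.1 (norm_eq_zero.1 (pow_eq_zero_iff (two_ne_zero) |>.1 h7))

/-- `η(s) = max(s, 0)²` -/
noncomputable def comp_eta (s : ℝ) : ℝ := (max s 0) ^ 2

theorem comp_eta_deriv (s : ℝ) : HasDerivAt comp_eta (2 * max s 0) s := by
  rcases lt_trichotomy s 0 with h | h | h
  · rw [max_eq_right h.le, mul_zero]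
    refine (hasDerivAt_const s (0 : ℝ)).congr_of_eventuallyEq ?_
    filter_upwards [Iio_mem_nhds h] with x hx
    unfold comp_eta
    rw [max_eq_right (le_of_lt hx)]
    norm_num
  · subst h
    rw [max_self, mul_zero, hasDerivAt_iff_isLittleO]
    have h1 : (fun x : ℝ => comp_eta x) =O[𝓝 0] (fun x : ℝ => x ^ 2) := by
      apply Asymptotics.IsBigO.of_bound 1
      filter_upwards with x
      unfold comp_eta
      rw [one_mul, norm_pow, norm_pow]
      apply pow_le_pow_left₀ (norm_nonneg _)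
      rw [Real.norm_eq_abs, Real.norm_eq_abs, abs_of_nonneg (le_max_right _ _)]
      exact max_le (le_abs_self x) (abs_nonneg x)
    have h2 : (fun x : ℝ => x ^ 2) =o[𝓝 0] (fun x : ℝ => x) :=
      Asymptotics.isLittleO_pow_id one_lt_two
    have h3 := h1.trans_isLittleO h2
    refine h3.congr (fun x => ?_) (fun x => ?_)
    · unfold comp_eta
      simp
    · simp
  · rw [max_eq_left h.le]
    have h1 : HasDerivAt (fun x : ℝ => x ^ 2) (2 * s) s := by
      simpa using hasDerivAt_pow 2 s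
    refine h1.congr_of_eventuallyEq ?_
    filter_upwards [Ioi_mem_nhds h] with x hx
    unfold comp_eta
    rw [max_eq_left (le_of_lt hx)]

theorem comp_eta_contDiff : ContDiff ℝ 1 comp_eta := by
  refine contDiff_one_iff_deriv.2 ⟨fun s => (comp_eta_deriv s).differentiableAt, ?_⟩
  have : deriv comp_eta = fun s => 2 * max s 0 := funext fun s => (comp_eta_deriv s).deriv
  rw [this]
  fun_prop

theorem comp_grad_cont {Ω : Set ℂ} (hΩ : IsOpen Ω) {u : ℂ → ℝ} (hu : ContDiffOn ℝ 1 u Ω) :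
    ContinuousOn (grad u) Ω := by
  have h1 : ContinuousOn (fderiv ℝ u) Ω := hu.continuousOn_fderiv_of_isOpen hΩ le_rfl
  have h3 : ContinuousOn (fun z => ((fderiv ℝ u z 1 : ℝ) : ℂ) + ((fderiv ℝ u z I : ℝ) : ℂ) * I) Ω :=
    (continuous_ofReal.comp_continuousOn (h1.clm_apply continuousOn_const)).add
      ((continuous_ofReal.comp_continuousOn (h1.clm_apply continuousOn_const)).mul
        continuousOn_const)
  refine h3.congr fun z _ => ?_
  apply Complex.ext <;> simp [grad]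

theorem comp_grad_zero {K : Set ℂ} (hK : IsClosed K) {φ : ℂ → ℝ} (h0 : ∀ z ∉ K, φ z = 0) {z : ℂ}
    (hz : z ∉ K) : grad φ z = 0 := by
  have h1 : φ =ᶠ[𝓝 z] fun _ => (0 : ℝ) := by
    filter_upwards [hK.isOpen_compl.mem_nhds hz] with x hx
    exact h0 x hx
  unfold grad
  rw [h1.fderiv_eq]
  simp
  rfl

theorem comp_int {Ω K : Set ℂ} (hΩ : IsOpen Ω) (hK : IsCompact K) (hKΩ : K ⊆ Ω) {X : ℂ → ℂ}
    (hX : ContinuousOn X Ω) {φ : ℂ → ℝ} (hφ : ContDiff ℝ 1 φ) (h0 : ∀ z ∉ K, φ z = 0) :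
    Continuous (fun z => ⟪X z, grad φ z⟫) ∧ HasCompactSupport (fun z => ⟪X z, grad φ z⟫) := by
  have hg : Continuous (grad φ) :=
    continuousOn_univ.1 (comp_grad_cont isOpen_univ hφ.contDiffOn)
  have hz : ∀ z ∉ K, ⟪X z, grad φ z⟫ = 0 := by
    intro z hz
    rw [comp_grad_zero hK.isClosed h0 hz, inner_zero_right]
  refine ⟨?_, HasCompactSupport.intro hK hz⟩
  rw [continuous_iff_continuousAt]
  intro z
  by_cases h : z ∈ Ω
  · exact (hX.continuousAt (hΩ.mem_nhds h)).inner (𝕜 := ℝ) hg.continuousAt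
  · have h1 : (fun z => ⟪X z, grad φ z⟫) =ᶠ[𝓝 z] fun _ => (0 : ℝ) := by
      filter_upwards [hK.isClosed.isOpen_compl.mem_nhds (fun h' => h (hKΩ h'))] with x hx
      exact hz x hx
    exact continuousAt_const.congr h1.symm

theorem comp_core {p : ℝ} (hp : 1 < p) {Ω : Set ℂ} (hΩ : IsOpen Ω) {u v : ℂ → ℝ}
    (hu : IsPHarmonicOn p Ω u) (hv : IsPHarmonicOn p Ω v) {O : Set ℂ} (hO : IsOpen O)
    (hb : Bornology.IsBounded O) (hcl : closure O ⊆ Ω) {c : ℝ}
    (hfr : ∀ z ∈ frontier O, u z = v z + c) {ε : ℝ} (hε : 0 < ε) {z0 : ℂ} (hz0 : z0 ∈ O)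
    (hw0 : ε < u z0 - v z0 - c) : grad u z0 = grad v z0 := by
  obtain ⟨w, hw⟩ : ∃ w : ℂ → ℝ, w = fun z => u z - v z - c := ⟨_, rfl⟩
  have hOΩ : O ⊆ Ω := subset_closure.trans hcl
  have hwc : ContDiffOn ℝ 1 w Ω := by
    rw [hw]
    exact (hu.contDiff.sub hv.contDiff).sub contDiffOn_const
  obtain ⟨K, hKdef⟩ : ∃ K : Set ℂ, K = closure O ∩ w ⁻¹' (Ici ε) := ⟨_, rfl⟩
  have hKcl : IsClosed K := by
    rw [hKdef]
    exact (hwc.continuousOn.mono hcl).preimage_isClosed_of_isClosed isClosed_closure isClosed_Ici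
  have hKc : IsCompact K := by
    refine hb.isCompact_closure.of_isClosed_subset hKcl ?_
    rw [hKdef]
    exact inter_subset_left
  have hKO : K ⊆ O := by
    intro z hz
    rw [hKdef] at hz
    by_contra h
    have h1 : z ∈ frontier O := by
      rw [frontier, hO.interior_eq]
      exact ⟨hz.1, h⟩
    have h2 : ε ≤ w z := hz.2
    rw [hw] at h2
    have h3 := hfr z h1
    simp only at h2
    linarith
  have hKΩ : K ⊆ Ω := hKO.trans hOΩ
  classical
  obtain ⟨φ, hφ⟩ : ∃ φ : ℂ → ℝ, φ = fun z => if z ∈ O then comp_eta (w z - ε) else 0 := ⟨_, rfl⟩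
  have hφ0 : ∀ z ∉ K, φ z = 0 := by
    intro z hz
    rw [hφ]
    simp only
    split_ifs with h
    · have h1 : ¬ (ε ≤ w z) := fun h1 => hz (by rw [hKdef]; exact ⟨subset_closure h, h1⟩)
      push Not at h1
      unfold comp_eta
      rw [max_eq_right (by linarith)]
      norm_num
    · rfl
  have hφO : ∀ z ∈ O, φ =ᶠ[𝓝 z] fun z => comp_eta (w z - ε) := by
    intro z hz
    filter_upwards [hO.mem_nhds hz] with x hx
    rw [hφ]
    simp only
    rw [if_pos hx]
  have hφc : ContDiff ℝ 1 φ := by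
    rw [contDiff_iff_contDiffAt]
    intro z
    by_cases h : z ∈ O
    · refine ContDiffAt.congr_of_eventuallyEq ?_ (hφO z h)
      have h1 : ContDiffAt ℝ 1 w z := hwc.contDiffAt (hΩ.mem_nhds (hOΩ h))
      exact comp_eta_contDiff.contDiffAt.comp z (h1.sub contDiffAt_const)
    · have h1 : z ∉ K := fun h' => h (hKO h')
      refine ContDiffAt.congr_of_eventuallyEq (contDiffAt_const (c := (0 : ℝ))) ?_
      filter_upwards [hKcl.isOpen_compl.mem_nhds h1] with x hx
      exact hφ0 x hx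
  have hcs : HasCompactSupport φ := HasCompactSupport.intro hKc hφ0
  have hts : tsupport φ ⊆ Ω := by
    refine (closure_minimal ?_ hKcl).trans hKΩ
    intro z hz
    by_contra h
    exact hz (hφ0 z h)
  have hgφ : ∀ z ∈ O, grad φ z = (2 * max (w z - ε) 0) • (grad u z - grad v z) := by
    intro z hz
    have hdu : DifferentiableAt ℝ u z :=
      (hu.contDiff.contDiffAt (hΩ.mem_nhds (hOΩ hz))).differentiableAt one_ne_zero
    have hdv : DifferentiableAt ℝ v z :=
      (hv.contDiff.contDiffAt (hΩ.mem_nhds (hOΩ hz))).differentiableAt one_ne_zero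
    have h1 : HasFDerivAt w (fderiv ℝ u z - fderiv ℝ v z) z := by
      rw [hw]
      exact (hdu.hasFDerivAt.sub hdv.hasFDerivAt).sub_const c
    have h2 : HasFDerivAt (fun z => comp_eta (w z - ε))
        ((2 * max (w z - ε) 0) • (fderiv ℝ u z - fderiv ℝ v z)) z :=
      HasDerivAt.comp_hasFDerivAt (h₂ := comp_eta) z (comp_eta_deriv (w z - ε)) (h1.sub_const ε)
    have h3 : fderiv ℝ φ z = (2 * max (w z - ε) 0) • (fderiv ℝ u z - fderiv ℝ v z) := by
      rw [(hφO z hz).fderiv_eq]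
      exact h2.fderiv
    unfold grad
    rw [h3]
    apply Complex.ext <;> simp
  have hAu : ContinuousOn (fun z => A p (grad u z)) Ω :=
    (comp_A_cont hp).comp_continuousOn (comp_grad_cont hΩ hu.contDiff)
  have hAv : ContinuousOn (fun z => A p (grad v z)) Ω :=
    (comp_A_cont hp).comp_continuousOn (comp_grad_cont hΩ hv.contDiff)
  have hIu := comp_int hΩ hKc hKΩ hAu hφc hφ0
  have hIv := comp_int hΩ hKc hKΩ hAv hφc hφ0
  have hIw := comp_int hΩ hKc hKΩ (hAu.sub hAv) hφc hφ0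
  have hint : ∫ z, ⟪A p (grad u z) - A p (grad v z), grad φ z⟫ = 0 := by
    have e1 : ∀ z, ⟪A p (grad u z) - A p (grad v z), grad φ z⟫ =
        ⟪A p (grad u z), grad φ z⟫ - ⟪A p (grad v z), grad φ z⟫ := fun z => inner_sub_left _ _ _
    simp_rw [e1]
    rw [integral_sub (hIu.1.integrable_of_hasCompactSupport hIu.2)
      (hIv.1.integrable_of_hasCompactSupport hIv.2), test_C1 hp hΩ hu hφc hcs hts,
      test_C1 hp hΩ hv hφc hcs hts, sub_zero]
  have hFO : ∀ z ∈ O, ⟪A p (grad u z) - A p (grad v z), grad φ z⟫ =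
      (2 * max (w z - ε) 0) * ⟪A p (grad u z) - A p (grad v z), grad u z - grad v z⟫ := by
    intro z hz
    rw [hgφ z hz, real_inner_smul_right]
  have hnn : 0 ≤ fun z => ⟪A p (grad u z) - A p (grad v z), grad φ z⟫ := by
    intro z
    simp only [Pi.zero_apply]
    by_cases h : z ∈ O
    · rw [hFO z h]
      exact mul_nonneg (mul_nonneg zero_le_two (le_max_right _ _)) (comp_A_mono hp _ _).1
    · rw [comp_grad_zero hKcl hφ0 (fun h' => h (hKO h')), inner_zero_right]
  have hF0 : ⟪A p (grad u z0) - A p (grad v z0), grad φ z0⟫ = 0 := by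
    by_contra h
    have h9 := hIw.1.integral_pos_of_hasCompactSupport_nonneg_nonzero (μ := volume) hIw.2 hnn h
    exact lt_irrefl _ (hint ▸ h9)
  rw [hFO z0 hz0] at hF0
  have hw1 : 0 < w z0 - ε := by
    rw [hw]
    simp only
    linarith
  have h8 : (0 : ℝ) < 2 * max (w z0 - ε) 0 := by
    rw [max_eq_left hw1.le]
    linarith
  exact (comp_A_mono hp _ _).2 ((mul_eq_zero.1 hF0).resolve_left h8.ne')

theorem comp_fderiv_eq {u v : ℂ → ℝ} {z : ℂ} (h : grad u z = grad v z) :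
    fderiv ℝ u z = fderiv ℝ v z := by
  have h1 : fderiv ℝ u z 1 = fderiv ℝ v z 1 := congrArg Complex.re h
  have h2 : fderiv ℝ u z I = fderiv ℝ v z I := congrArg Complex.im h
  apply ContinuousLinearMap.ext
  intro x
  have hx : x = x.re • (1 : ℂ) + x.im • I := by
    apply Complex.ext <;> simp
  rw [hx, map_add, map_add, map_smul, map_smul, map_smul, map_smul, h1, h2]

theorem comparison {p : ℝ} (hp : 1 < p) {Ω : Set ℂ} (hΩ : IsOpen Ω) {u v : ℂ → ℝ}
    (hu : IsPHarmonicOn p Ω u) (hv : IsPHarmonicOn p Ω v) {O : Set ℂ} (hO : IsOpen O)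
    (hne : O.Nonempty) (hb : Bornology.IsBounded O) (hcl : closure O ⊆ Ω) {c : ℝ}
    (hpos : ∀ z ∈ O, v z + c < u z) (hfr : ∀ z ∈ frontier O, u z = v z + c) : False := by
  obtain ⟨w, hw⟩ : ∃ w : ℂ → ℝ, w = fun z => u z - v z := ⟨_, rfl⟩
  have hOΩ : O ⊆ Ω := subset_closure.trans hcl
  have hwc : ContDiffOn ℝ 1 w Ω := by
    rw [hw]
    exact hu.contDiff.sub hv.contDiff
  have hd : ∀ z ∈ O, fderiv ℝ w z = 0 := by
    intro z hz
    have hdu : DifferentiableAt ℝ u z :=
      (hu.contDiff.contDiffAt (hΩ.mem_nhds (hOΩ hz))).differentiableAt one_ne_zero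
    have hdv : DifferentiableAt ℝ v z :=
      (hv.contDiff.contDiffAt (hΩ.mem_nhds (hOΩ hz))).differentiableAt one_ne_zero
    have h1 : grad u z = grad v z := by
      have h2 := hpos z hz
      exact comp_core hp hΩ hu hv hO hb hcl hfr (ε := (u z - v z - c) / 2) (by linarith) hz
        (by linarith)
    rw [hw]
    have h3 := (hdu.hasFDerivAt.sub hdv.hasFDerivAt).fderiv
    rw [comp_fderiv_eq h1, sub_self] at h3
    exact h3
  -- the maximum
  have hcc : IsCompact (closure O) := hb.isCompact_closure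
  obtain ⟨x0, hx0, hmax⟩ := hcc.exists_isMaxOn (hne.mono subset_closure)
    (hwc.continuousOn.mono hcl)
  obtain ⟨y0, hy0⟩ := hne
  have hwx : c < w x0 := by
    have h1 : w y0 ≤ w x0 := hmax (subset_closure hy0)
    have h2 := hpos y0 hy0
    have h3 : w y0 = u y0 - v y0 := by rw [hw]
    linarith
  have hfr' : ∀ z ∈ closure O, z ∉ O → w z = c := by
    intro z hz hzO
    have h1 : z ∈ frontier O := by
      rw [frontier, hO.interior_eq]
      exact ⟨hz, hzO⟩
    have h2 := hfr z h1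
    rw [hw]
    simp only
    linarith
  have hMcl : IsClosed (closure O ∩ w ⁻¹' {w x0}) :=
    (hwc.continuousOn.mono hcl).preimage_isClosed_of_isClosed isClosed_closure isClosed_singleton
  have hMop : IsOpen (closure O ∩ w ⁻¹' {w x0}) := by
    rw [isOpen_iff_mem_nhds]
    rintro z ⟨hz, hwz⟩
    have hwz' : w z = w x0 := hwz
    have hzO : z ∈ O := by
      by_contra h
      have := hfr' z hz h
      linarith
    obtain ⟨r, hr, hball⟩ := Metric.isOpen_iff.1 hO z hzO
    filter_upwards [Metric.ball_mem_nhds z hr] with y hy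
    refine ⟨subset_closure (hball hy), ?_⟩
    show w y = w x0
    rw [← hwz']
    refine (convex_ball z r).is_const_of_fderivWithin_eq_zero (𝕜 := ℝ) (f := w) ?_ ?_ hy
      (Metric.mem_ball_self hr)
    · exact (hwc.differentiableOn one_ne_zero).mono (hball.trans hOΩ)
    · intro y hy
      rw [fderivWithin_of_isOpen Metric.isOpen_ball hy]
      exact hd y (hball hy)
  have huniv : closure O ∩ w ⁻¹' {w x0} = univ :=
    IsClopen.eq_univ ⟨hMcl, hMop⟩ ⟨x0, hx0, rfl⟩
  have hbd : Bornology.IsBounded (univ : Set ℂ) := by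
    rw [← huniv]
    exact hcc.isBounded.subset inter_subset_left
  exact NormedSpace.unbounded_univ ℝ ℂ hbd

end Pool.Agent.H74.UC
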