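import Pool.Agent.H74.UC.Defs

/-! # UC-CUBIC: the difference of two solutions at a point of contact of order exactly two (helper51) -/

set_option autoImplicit false

open Complex MeasureTheory Set Filter Topology Metric Asymptotics
open scoped ContDiff RealInnerProductSpace ComplexConjugate

namespace Pool.Agent.H74.UC

open Pool.Agent.H74.PH

namespace CUBIC

theorem o_step {F : Type*} [NormedAddCommGroup F] [NormedSpace ℝ F] {f : ℂ → F}
    {f' : ℂ → (ℂ →L[ℝ] F)} {n : ℕ} (hf : ∀ᶠ h in 𝓝 (0 : ℂ), HasFDerivAt f (f' h) h) (h0 : f 0 = 0)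
    (ho : f' =o[𝓝 0] fun h : ℂ => ‖h‖ ^ n) : f =o[𝓝 0] fun h : ℂ => ‖h‖ ^ (n + 1) := by
  rw [isLittleO_iff]
  intro ε hε
  have h1 := hf.and (ho.def hε)
  rw [Metric.eventually_nhds_iff_ball] at h1
  obtain ⟨δ, hδ, hball⟩ := h1
  rw [Metric.eventually_nhds_iff_ball]
  refine ⟨δ, hδ, fun h hh => ?_⟩
  have hh' : ‖h‖ < δ := by simpa using hh
  have key := (convex_closedBall (0 : ℂ) ‖h‖).norm_image_sub_le_of_norm_hasFDerivWithin_le
    (f := f) (f' := f') (C := ε * ‖h‖ ^ n) (x := 0) (y := h) ?_ ?_ ?_ ?_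
  · rw [h0, sub_zero, sub_zero] at key
    rw [norm_pow, norm_norm, pow_succ]
    linarith
  · intro x hx
    have hx' : ‖x‖ ≤ ‖h‖ := by simpa using hx
    exact (hball x (by simpa using lt_of_le_of_lt hx' hh')).1.hasFDerivWithinAt
  · intro x hx
    have hx' : ‖x‖ ≤ ‖h‖ := by simpa using hx
    refine (hball x (by simpa using lt_of_le_of_lt hx' hh')).2.trans ?_
    rw [norm_pow, norm_norm]
    gcongr
  · simp
  · simp

theorem span {g : ℂ} (h0 : g ≠ 0) (k : ℂ) : ∃ s r : ℝ, k = (s + r * I) * g := by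
  refine ⟨(k / g).re, (k / g).im, ?_⟩
  rw [re_add_im]
  field_simp

/-- `Dg` is self-adjoint -/
theorem self_adj {K : ℝ} {Ω : Set ℂ} {g : ℂ → ℂ} (hg : PGrad K Ω g) {z : ℂ} (hz : z ∈ Ω)
    (h0 : g z ≠ 0) (k l : ℂ) : ⟪fderiv ℝ g z k, l⟫ = ⟪fderiv ℝ g z l, k⟫ := by
  obtain ⟨s, r, rfl⟩ := span h0 k
  obtain ⟨s', r', rfl⟩ := span h0 l
  rw [hg.eq z hz h0 s r, hg.eq z hz h0 s' r']
  simp only [Complex.inner, mul_re, mul_im, add_re, add_im, conj_re, conj_im, ofReal_re, ofReal_im,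
    I_re, I_im]
  ring

/-- the equation -/
theorem pde {K : ℝ} {Ω : Set ℂ} {g : ℂ → ℂ} (hg : PGrad K Ω g) {z : ℂ} (hz : z ∈ Ω)
    (h0 : g z ≠ 0) :
    K * ⟪fderiv ℝ g z (g z), g z⟫ + ⟪fderiv ℝ g z (I * g z), I * g z⟫ = 0 := by
  have h1 := hg.eq z hz h0 1 0
  have h2 := hg.eq z hz h0 0 1
  simp only [ofReal_one, ofReal_zero, zero_mul, one_mul, add_zero, zero_add] at h1 h2
  rw [h1, h2]
  simp only [Complex.inner, mul_re, mul_im, add_re, add_im, conj_re, conj_im, ofReal_re, ofReal_im,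
    I_re, I_im]
  ring

/-- the data of one solution at `z0` -/
theorem ev {K : ℝ} {Ω : Set ℂ} {g : ℂ → ℂ} (hg : PGrad K Ω g) {z0 : ℂ} (hz : z0 ∈ Ω)
    (h0 : g z0 ≠ 0) : ∀ᶠ z in 𝓝 z0, z ∈ Ω ∧ g z ≠ 0 := by
  have h1 : ∀ᶠ z in 𝓝 z0, z ∈ Ω := hg.isOpen.mem_nhds hz
  have h2 : ContinuousAt g z0 := hg.cont.continuousAt (hg.isOpen.mem_nhds hz)
  exact h1.and (h2.eventually_ne h0)

theorem d2 {K : ℝ} {Ω : Set ℂ} {g : ℂ → ℂ} (hg : PGrad K Ω g) {z0 : ℂ} (hz : z0 ∈ Ω)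
    (h0 : g z0 ≠ 0) : HasFDerivAt (fderiv ℝ g) (fderiv ℝ (fderiv ℝ g) z0) z0 := by
  have h1 : ContDiffAt ℝ 2 (fderiv ℝ g) z0 :=
    (hg.smooth z0 hz h0).fderiv_right (m := 2) (by norm_num)
  exact (h1.differentiableAt (by norm_num)).hasFDerivAt

theorem d1 {K : ℝ} {Ω : Set ℂ} {g : ℂ → ℂ} (hg : PGrad K Ω g) {z0 : ℂ} (hz : z0 ∈ Ω)
    (h0 : g z0 ≠ 0) : HasFDerivAt g (fderiv ℝ g z0) z0 :=
  ((hg.smooth z0 hz h0).differentiableAt (by norm_num)).hasFDerivAt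

theorem sym12 {K : ℝ} {Ω : Set ℂ} {g : ℂ → ℂ} (hg : PGrad K Ω g) {z0 : ℂ} (hz : z0 ∈ Ω)
    (h0 : g z0 ≠ 0) (h k : ℂ) :
    fderiv ℝ (fderiv ℝ g) z0 h k = fderiv ℝ (fderiv ℝ g) z0 k h := by
  have h1 := (hg.smooth z0 hz h0).isSymmSndFDerivAt (by simp [minSmoothness_of_isRCLikeNormedField]; norm_num)
  exact h1 h k

theorem sym23 {K : ℝ} {Ω : Set ℂ} {g : ℂ → ℂ} (hg : PGrad K Ω g) {z0 : ℂ} (hz : z0 ∈ Ω)
    (h0 : g z0 ≠ 0) (h k l : ℂ) :
    ⟪fderiv ℝ (fderiv ℝ g) z0 h k, l⟫ = ⟪fderiv ℝ (fderiv ℝ g) z0 h l, k⟫ := by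
  have hL := d2 hg hz h0
  have a1 : ∀ k l : ℂ, HasFDerivAt (fun z => ⟪fderiv ℝ g z k, l⟫)
      ((fderivInnerCLM ℝ (fderiv ℝ g z0 k, l)).comp
        (((fderiv ℝ g z0).comp (0 : ℂ →L[ℝ] ℂ) + (fderiv ℝ (fderiv ℝ g) z0).flip k).prod 0)) z0 :=
    fun k l => (hL.clm_apply (hasFDerivAt_const k z0)).inner ℝ (hasFDerivAt_const l z0)
  have a2 : (fun z => ⟪fderiv ℝ g z k, l⟫) =ᶠ[𝓝 z0] fun z => ⟪fderiv ℝ g z l, k⟫ := by
    filter_upwards [ev hg hz h0] with z hz'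
    exact self_adj hg hz'.1 hz'.2 k l
  have a3 := ((a1 l k).congr_of_eventuallyEq a2).unique (a1 k l)
  have a4 := congrArg (fun T : ℂ →L[ℝ] ℝ => T h) a3
  simpa [fderivInnerCLM_apply] using a4.symm

theorem pde1 {K : ℝ} {Ω : Set ℂ} {g : ℂ → ℂ} (hg : PGrad K Ω g) {z0 : ℂ} (hz : z0 ∈ Ω)
    (h0 : g z0 ≠ 0) (h : ℂ) :
    K * (⟪fderiv ℝ g z0 (g z0), fderiv ℝ g z0 h⟫ + ⟪fderiv ℝ g z0 (fderiv ℝ g z0 h) +
      fderiv ℝ (fderiv ℝ g) z0 h (g z0), g z0⟫) + (⟪fderiv ℝ g z0 (I * g z0), I * fderiv ℝ g z0 h⟫ +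
      ⟪fderiv ℝ g z0 (I * fderiv ℝ g z0 h) + fderiv ℝ (fderiv ℝ g) z0 h (I * g z0), I * g z0⟫) = 0 := by
  have hL := d2 hg hz h0
  have hG := d1 hg hz h0
  have hI : HasFDerivAt (fun z => I * g z) (I • fderiv ℝ g z0) z0 := hG.const_mul I
  have a1 := (hL.clm_apply hG).inner ℝ hG
  have a2 := (hL.clm_apply hI).inner ℝ hI
  have a3 := (a1.const_mul K).add a2
  have a4 : (fun z => K * ⟪fderiv ℝ g z (g z), g z⟫ + ⟪fderiv ℝ g z (I * g z), I * g z⟫) =ᶠ[𝓝 z0]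
      fun _ => (0 : ℝ) := by
    filter_upwards [ev hg hz h0] with z hz'
    exact pde hg hz'.1 hz'.2
  have a5 := a3.unique ((hasFDerivAt_const (0 : ℝ) z0).congr_of_eventuallyEq a4)
  have a6 := congrArg (fun T : ℂ →L[ℝ] ℝ => T h) a5
  simpa [fderivInnerCLM_apply] using a6

theorem dS {g : ℂ → ℂ} {z0 : ℂ} {D2 : ℂ →L[ℝ] ℂ →L[ℝ] ℂ} (hL : HasFDerivAt (fderiv ℝ g) D2 z0)
    (hG : HasFDerivAt g (fderiv ℝ g z0) z0) (h0 : g z0 ≠ 0) : HasFDerivAt (S g)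
    (fderiv ℝ g z0 (g z0) • ((-ContinuousLinearMap.mulLeftRight ℝ ℂ (g z0)⁻¹ (g z0)⁻¹).comp
      (fderiv ℝ g z0)) + (g z0)⁻¹ • ((fderiv ℝ g z0).comp (fderiv ℝ g z0) + D2.flip (g z0))) z0 := by
  have h1 : HasFDerivAt (fun z => (g z)⁻¹) ((-ContinuousLinearMap.mulLeftRight ℝ ℂ (g z0)⁻¹
      (g z0)⁻¹).comp (fderiv ℝ g z0)) z0 := (hasFDerivAt_inv' (𝕜 := ℝ) h0).comp z0 hG
  have h2 := (hL.clm_apply hG).mul h1
  exact h2

theorem L_eq {K : ℝ} {Ω : Set ℂ} {g1 g2 : ℂ → ℂ} (h1 : PGrad K Ω g1)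
    (h2 : PGrad K Ω g2) {z0 : ℂ} (hz : z0 ∈ Ω)
    (h0 : g1 z0 ≠ 0) (hg : g1 z0 = g2 z0) (hS : S g1 z0 = S g2 z0) :
    fderiv ℝ g1 z0 = fderiv ℝ g2 z0 := by
  ext1 k
  obtain ⟨s, r, rfl⟩ := span h0 k
  rw [h1.eq z0 hz h0 s r, hS, hg, h2.eq z0 hz (hg ▸ h0) s r]

/-- the linear map -/
theorem exists_M {K t1 t2 : ℝ} (hK : 0 < K) (ht : t1 ≠ 0 ∨ t2 ≠ 0) {γ : ℂ} (hγ : γ ≠ 0) :
    ∃ M : ℂ ≃L[ℝ] ℂ, ∀ s r : ℝ, (M ((s + r * I) * γ) ^ 3).re =
      (t1 * s ^ 3 + 3 * t2 * s ^ 2 * r - 3 * K * t1 * s * r ^ 2 - K * t2 * r ^ 3) / 6 := by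
  set κ : ℝ := √K with hκ
  have hκ0 : 0 < κ := Real.sqrt_pos.2 hK
  have hκ2 : κ ^ 2 = K := Real.sq_sqrt hK.le
  set w : ℂ := (t1 - (t2 / κ : ℝ) * I) / 6 with hw
  have hw0 : w ≠ 0 := by
    intro h
    have h1 : (t1 : ℂ) - (t2 / κ : ℝ) * I = 0 := by
      have : w * 6 = 0 := by rw [h]; ring
      rw [hw] at this
      have h6 : (t1 - (t2 / κ : ℝ) * I : ℂ) / 6 * 6 = t1 - (t2 / κ : ℝ) * I := by ring
      rw [h6] at this
      exact this
    have hre := congrArg Complex.re h1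
    have him := congrArg Complex.im h1
    simp only [sub_re, sub_im, ofReal_re, ofReal_im, mul_re, mul_im, I_re, I_im, zero_re, zero_im] at hre him
    rcases ht with ht | ht
    · apply ht; linarith
    · apply ht
      have : t2 / κ = 0 := by linarith
      rcases div_eq_zero_iff.1 this with h | h
      · exact h
      · exact absurd h hκ0.ne'
  obtain ⟨c, hc⟩ : ∃ c : ℂ, c ^ 3 = w := by
    refine ⟨w ^ ((1 : ℂ) / 3), ?_⟩
    rw [← Complex.cpow_mul_nat]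
    norm_num
  have hc0 : c ≠ 0 := by
    rintro rfl
    apply hw0
    rw [← hc]; norm_num
  let f : ℂ →ₗ[ℝ] ℂ :=
    { toFun := fun h => c * (((h / γ).re : ℝ) + (κ * (h / γ).im : ℝ) * I)
      map_add' := by
        intro x y
        rw [add_div, add_re, add_im]
        push_cast
        ring
      map_smul' := by
        intro t x
        have : (t • x) / γ = t • (x / γ) := by
          rw [real_smul, real_smul]; ring
        rw [this, real_smul, re_ofReal_mul, im_ofReal_mul, RingHom.id_apply, real_smul]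
        push_cast
        ring }
  have hinj : Function.Injective f := by
    rw [injective_iff_map_eq_zero]
    intro x hx
    have h1 : c * (((x / γ).re : ℝ) + (κ * (x / γ).im : ℝ) * I) = 0 := hx
    have h2 := (mul_eq_zero.1 h1).resolve_left hc0
    have hre := congrArg Complex.re h2
    have him := congrArg Complex.im h2
    simp only [add_re, add_im, ofReal_re, ofReal_im, mul_re, mul_im, I_re, I_im, zero_re, zero_im] at hre him
    have e1 : (x / γ).re = 0 := by linarith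
    have e2 : (x / γ).im = 0 := by
      have : κ * (x / γ).im = 0 := by linarith
      exact (mul_eq_zero.1 this).resolve_left hκ0.ne'
    have e3 : x / γ = 0 := Complex.ext e1 e2
    exact (div_eq_zero_iff.1 e3).resolve_right hγ
  refine ⟨(LinearEquiv.ofInjectiveEndo f hinj).toContinuousLinearEquiv, fun s r => ?_⟩
  have h1 : (LinearEquiv.ofInjectiveEndo f hinj).toContinuousLinearEquiv ((s + r * I) * γ) =
      c * ((s : ℝ) + (κ * r : ℝ) * I) := by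
    change c * (((((s + r * I) * γ) / γ).re : ℝ) + (κ * (((s + r * I) * γ) / γ).im : ℝ) * I) = _
    rw [mul_div_cancel_right₀ _ hγ]
    simp
  rw [h1, mul_pow, hc, hw]
  have e3 : ((s : ℂ) + (κ * r : ℝ) * I) ^ 3 =
      ((s ^ 3 - 3 * κ ^ 2 * s * r ^ 2 : ℝ) : ℂ) + ((3 * κ * s ^ 2 * r - κ ^ 3 * r ^ 3 : ℝ) : ℂ) * I := by
    have hI3 : I ^ 3 = -I := by rw [pow_succ, I_sq]; ring
    push_cast
    linear_combination (3 * (s : ℂ) * κ ^ 2 * r ^ 2) * I_sq + (κ : ℂ) ^ 3 * r ^ 3 * hI3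
  rw [e3]
  have e4 : ((t1 - (t2 / κ : ℝ) * I) / 6 : ℂ) = ((t1 / 6 : ℝ) : ℂ) + ((-(t2 / κ) / 6 : ℝ) : ℂ) * I := by
    push_cast; ring
  rw [e4]
  simp only [mul_re, add_re, add_im, mul_im, ofReal_re, ofReal_im, I_re, I_im]
  have e5 : t2 / κ * κ = t2 := div_mul_cancel₀ _ hκ0.ne'
  have e6 : κ ^ 3 = K * κ := by rw [pow_succ, hκ2]
  rw [e6, hκ2]
  linear_combination ((3 * s ^ 2 * r - K * r ^ 3) / 6) * e5

theorem hasFDerivAt_grad {u : ℂ → ℝ} {z : ℂ} (h : DifferentiableAt ℝ u z) :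
    HasFDerivAt u (innerSL ℝ (grad u z)) z := by
  have h1 : innerSL ℝ (grad u z) = fderiv ℝ u z := by
    ext1 k
    have hk : k = k.re • (1 : ℂ) + k.im • I := by
      rw [real_smul, real_smul, mul_one]
      exact (re_add_im k).symm
    have h2 : fderiv ℝ u z k = k.re * fderiv ℝ u z 1 + k.im * fderiv ℝ u z I := by
      conv_lhs => rw [hk]
      rw [map_add, map_smul, map_smul, smul_eq_mul, smul_eq_mul]
    rw [h2, innerSL_apply_apply, Complex.inner]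
    simp only [grad, mul_re, conj_re, conj_im]
    ring
  rw [h1]
  exact h.hasFDerivAt

end CUBIC

open CUBIC in
/-- UC-CUBIC: the difference of two solutions at a point of contact of order exactly two. -/
theorem cubic {K : ℝ} (hK : 0 < K) {Ω : Set ℂ} {g1 g2 : ℂ → ℂ} (h1 : PGrad K Ω g1)
    (h2 : PGrad K Ω g2) {u1 u2 : ℂ → ℝ} (hu1 : ContDiffOn ℝ 1 u1 Ω) (hu2 : ContDiffOn ℝ 1 u2 Ω)
    (hg1 : ∀ z ∈ Ω, grad u1 z = g1 z) (hg2 : ∀ z ∈ Ω, grad u2 z = g2 z) {z0 : ℂ} (hz : z0 ∈ Ω)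
    (h0 : g1 z0 ≠ 0) (hg : g1 z0 = g2 z0) (hS : S g1 z0 = S g2 z0)
    (hne : fderiv ℝ (S g1) z0 ≠ fderiv ℝ (S g2) z0) :
    ∃ M : ℂ ≃L[ℝ] ℂ, (fun h : ℂ => u1 (z0 + h) - u2 (z0 + h) - (u1 z0 - u2 z0) - (M h ^ 3).re)
      =o[𝓝 0] (fun h : ℂ => ‖h‖ ^ 3) := by
  have h0' : g2 z0 ≠ 0 := hg ▸ h0
  have hL := L_eq h1 h2 hz h0 hg hS
  obtain ⟨B, hB⟩ : ∃ B : ℂ →L[ℝ] ℂ →L[ℝ] ℂ,
    B = fderiv ℝ (fderiv ℝ g1) z0 - fderiv ℝ (fderiv ℝ g2) z0 := ⟨_, rfl⟩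
  have Bs : ∀ a b, B a b = B b a := by
    intro a b
    rw [hB, ContinuousLinearMap.sub_apply, ContinuousLinearMap.sub_apply,
      ContinuousLinearMap.sub_apply, ContinuousLinearMap.sub_apply, sym12 h1 hz h0 a b,
      sym12 h2 hz h0' a b]
  have Bt : ∀ a b c, ⟪B a b, c⟫ = ⟪B a c, b⟫ := by
    intro a b c
    rw [hB, ContinuousLinearMap.sub_apply, ContinuousLinearMap.sub_apply,
      ContinuousLinearMap.sub_apply, inner_sub_left, inner_sub_left, sym23 h1 hz h0 a b c,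
      sym23 h2 hz h0' a b c]
  obtain ⟨γ, hγ⟩ : ∃ γ : ℂ, γ = g1 z0 := ⟨_, rfl⟩
  have hγ0 : γ ≠ 0 := hγ ▸ h0
  have Bp : ∀ h, K * ⟪B h γ, γ⟫ + ⟪B h (I * γ), I * γ⟫ = 0 := by
    intro h
    have e1 := pde1 h1 hz h0 h
    have e2 := pde1 h2 hz h0' h
    rw [← hL, ← hg, ← hγ] at e2
    rw [← hγ] at e1
    rw [hB, ContinuousLinearMap.sub_apply, ContinuousLinearMap.sub_apply,
      ContinuousLinearMap.sub_apply, inner_sub_left, inner_sub_left]
    simp only [inner_add_left] at e1 e2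
    linear_combination e1 - e2
  have Bq : ∀ h, ⟪B h (I * γ), I * γ⟫ = - K * ⟪B h γ, γ⟫ := fun h => by linarith [Bp h]
  -- T on combinations
  have Tc : ∀ s r : ℝ, ⟪B ((s + r * I) * γ) ((s + r * I) * γ), (s + r * I) * γ⟫ =
      ⟪B γ γ, γ⟫ * s ^ 3 + 3 * ⟪B γ γ, I * γ⟫ * s ^ 2 * r - 3 * K * ⟪B γ γ, γ⟫ * s * r ^ 2 -
        K * ⟪B γ γ, I * γ⟫ * r ^ 3 := by
    intro s r
    have e : (s + r * I) * γ = s • γ + r • (I * γ) := by
      rw [real_smul, real_smul]; ring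
    rw [e]
    simp only [map_add, map_smul, ContinuousLinearMap.add_apply, ContinuousLinearMap.smul_apply,
      inner_add_left, inner_add_right, real_inner_smul_left, real_inner_smul_right]
    have f1 : ⟪B γ (I * γ), γ⟫ = ⟪B γ γ, I * γ⟫ := Bt _ _ _
    have f2 : ⟪B (I * γ) γ, γ⟫ = ⟪B γ γ, I * γ⟫ := by rw [Bs]; exact Bt _ _ _
    have f3 : ⟪B γ (I * γ), I * γ⟫ = - K * ⟪B γ γ, γ⟫ := Bq γ
    have f4 : ⟪B (I * γ) γ, I * γ⟫ = - K * ⟪B γ γ, γ⟫ := by rw [Bs]; exact Bq γ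
    have f5 : ⟪B (I * γ) (I * γ), γ⟫ = - K * ⟪B γ γ, γ⟫ := by rw [Bt]; exact f4
    have f6 : ⟪B (I * γ) (I * γ), I * γ⟫ = - K * ⟪B γ γ, I * γ⟫ := by rw [Bq, f2]
    rw [f1, f2, f3, f4, f5, f6]
    ring
  have ht : ⟪B γ γ, γ⟫ ≠ 0 ∨ ⟪B γ γ, I * γ⟫ ≠ 0 := by
    by_contra hcon
    rw [not_or, not_not, not_not] at hcon
    obtain ⟨c1, c2⟩ := hcon
    apply hne
    have f1 : ⟪B γ (I * γ), γ⟫ = ⟪B γ γ, I * γ⟫ := Bt _ _ _
    have f2 : ⟪B (I * γ) γ, γ⟫ = ⟪B γ γ, I * γ⟫ := by rw [Bs]; exact Bt _ _ _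
    have f3 : ⟪B γ (I * γ), I * γ⟫ = - K * ⟪B γ γ, γ⟫ := Bq γ
    have f4 : ⟪B (I * γ) γ, I * γ⟫ = - K * ⟪B γ γ, γ⟫ := by rw [Bs]; exact Bq γ
    have f5 : ⟪B (I * γ) (I * γ), γ⟫ = - K * ⟪B γ γ, γ⟫ := by rw [Bt]; exact f4
    have f6 : ⟪B (I * γ) (I * γ), I * γ⟫ = - K * ⟪B γ γ, I * γ⟫ := by rw [Bq, f2]
    have T0 : ∀ a b c, ⟪B a b, c⟫ = 0 := by
      intro a b c
      obtain ⟨s, r, rfl⟩ := CUBIC.span hγ0 a
      obtain ⟨s', r', rfl⟩ := CUBIC.span hγ0 b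
      obtain ⟨s'', r'', rfl⟩ := CUBIC.span hγ0 c
      have e : ∀ s r : ℝ, (s + r * I) * γ = s • γ + r • (I * γ) := by
        intro s r
        rw [real_smul, real_smul]; ring
      rw [e, e, e]
      simp only [map_add, map_smul, ContinuousLinearMap.add_apply, ContinuousLinearMap.smul_apply,
        inner_add_left, inner_add_right, real_inner_smul_left, real_inner_smul_right]
      rw [f1, f2, f3, f4, f5, f6, c1, c2]
      ring
    have B0 : B = 0 := by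
      ext1 a
      ext1 b
      have := T0 a b (B a b)
      rw [inner_self_eq_zero] at this
      rw [this]; rfl
    have hD : fderiv ℝ (fderiv ℝ g1) z0 = fderiv ℝ (fderiv ℝ g2) z0 := by
      rw [hB] at B0
      exact sub_eq_zero.1 B0
    rw [(dS (d2 h1 hz h0) (d1 h1 hz h0) h0).fderiv, (dS (d2 h2 hz h0') (d1 h2 hz h0') h0').fderiv,
      hD, hL, hg]
  obtain ⟨M, hM⟩ := exists_M hK ht hγ0
  refine ⟨M, ?_⟩
  have hM' : ∀ h, (M h ^ 3).re = ⟪B h h, h⟫ / 6 := by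
    intro h
    obtain ⟨s, r, rfl⟩ := CUBIC.span hγ0 h
    rw [hM, Tc]
  -- first step
  set f1 : ℂ → ℂ := fun h => g1 (z0 + h) - g2 (z0 + h) - (1 / 2 : ℝ) • B h h with hf1
  have ev0 : ∀ᶠ h in 𝓝 (0 : ℂ), (z0 + h ∈ Ω ∧ g1 (z0 + h) ≠ 0) ∧ (z0 + h ∈ Ω ∧ g2 (z0 + h) ≠ 0) := by
    have hc : Tendsto (fun h : ℂ => z0 + h) (𝓝 0) (𝓝 z0) := by
      have : Continuous (fun h : ℂ => z0 + h) := by fun_prop
      simpa using this.tendsto 0
    exact (hc.eventually (CUBIC.ev h1 hz h0)).and (hc.eventually (CUBIC.ev h2 hz h0'))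
  have s1 : f1 =o[𝓝 0] fun h : ℂ => ‖h‖ ^ (1 + 1) := by
    refine o_step (f' := fun h => fderiv ℝ g1 (z0 + h) - fderiv ℝ g2 (z0 + h) - B h) ?_ ?_ ?_
    · filter_upwards [ev0] with h hh
      have a1 : HasFDerivAt (fun h => g1 (z0 + h)) (fderiv ℝ g1 (z0 + h)) h := by
        have := (d1 h1 hh.1.1 hh.1.2).comp h ((hasFDerivAt_id h).const_add z0)
        rwa [ContinuousLinearMap.comp_id] at this
      have a2 : HasFDerivAt (fun h => g2 (z0 + h)) (fderiv ℝ g2 (z0 + h)) h := by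
        have := (d1 h2 hh.2.1 hh.2.2).comp h ((hasFDerivAt_id h).const_add z0)
        rwa [ContinuousLinearMap.comp_id] at this
      have a3 : HasFDerivAt (fun h => (1 / 2 : ℝ) • B h h) (B h) h := by
        have := (B.hasFDerivAt.clm_apply (hasFDerivAt_id h)).const_smul (1 / 2 : ℝ)
        refine this.congr_fderiv ?_
        ext1 k
        simp only [ContinuousLinearMap.smul_apply, ContinuousLinearMap.add_apply,
          ContinuousLinearMap.comp_id, ContinuousLinearMap.flip_apply, id]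
        rw [Bs k h, ← two_smul ℝ (B h k), smul_smul]
        norm_num
      exact (a1.sub a2).sub a3
    · simp [hf1, hg]
    · have b1 := hasFDerivAt_iff_isLittleO_nhds_zero.1 (d2 h1 hz h0)
      have b2 := hasFDerivAt_iff_isLittleO_nhds_zero.1 (d2 h2 hz h0')
      have b3 := (b1.sub b2).norm_right
      simp only [pow_one]
      refine b3.congr_left fun h => ?_
      rw [hL, hB, ContinuousLinearMap.sub_apply]
      abel
  have s2 : (fun h : ℂ => u1 (z0 + h) - u2 (z0 + h) - (u1 z0 - u2 z0) - ⟪B h h, h⟫ / 6) =o[𝓝 0]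
      fun h : ℂ => ‖h‖ ^ (2 + 1) := by
    refine o_step (f' := fun h => innerSL ℝ (f1 h)) ?_ ?_ ?_
    · filter_upwards [ev0] with h hh
      have nb := h1.isOpen.mem_nhds hh.1.1
      have a1 : HasFDerivAt (fun h => u1 (z0 + h)) (innerSL ℝ (g1 (z0 + h))) h := by
        have c1 := hasFDerivAt_grad ((hu1.contDiffAt nb).differentiableAt (by norm_num))
        rw [hg1 _ hh.1.1] at c1
        have := c1.comp h ((hasFDerivAt_id h).const_add z0)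
        rwa [ContinuousLinearMap.comp_id] at this
      have a2 : HasFDerivAt (fun h => u2 (z0 + h)) (innerSL ℝ (g2 (z0 + h))) h := by
        have c1 := hasFDerivAt_grad ((hu2.contDiffAt nb).differentiableAt (by norm_num))
        rw [hg2 _ hh.1.1] at c1
        have := c1.comp h ((hasFDerivAt_id h).const_add z0)
        rwa [ContinuousLinearMap.comp_id] at this
      have a3 : HasFDerivAt (fun h => ⟪B h h, h⟫ / 6) (innerSL ℝ ((1 / 2 : ℝ) • B h h)) h := by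
        have := ((B.hasFDerivAt.clm_apply (hasFDerivAt_id h)).inner ℝ (hasFDerivAt_id h)).mul_const
          (1 / 6 : ℝ)
        have e : (fun h => ⟪B h h, h⟫ / 6) = fun h => ⟪B h h, h⟫ * (1 / 6 : ℝ) := by
          funext h; ring
        rw [e]
        refine this.congr_fderiv ?_
        ext1 k
        have t1 : ⟪B h k, h⟫ = ⟪B h h, k⟫ := Bt _ _ _
        have t2 : ⟪B k h, h⟫ = ⟪B h h, k⟫ := by rw [Bs]; exact Bt _ _ _
        simp only [ContinuousLinearMap.smul_apply, ContinuousLinearMap.comp_apply,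
          fderivInnerCLM_apply, ContinuousLinearMap.prod_apply, ContinuousLinearMap.add_apply,
          ContinuousLinearMap.flip_apply, innerSL_apply_apply, real_inner_smul_left, inner_add_left,
          ContinuousLinearMap.id_apply, id, t1, t2, smul_eq_mul]
        ring
      have a4 := ((a1.sub a2).sub_const (u1 z0 - u2 z0)).sub a3
      refine a4.congr_fderiv ?_
      rw [hf1]
      simp only [map_sub]
    · simp
    · have : (fun h => ‖innerSL ℝ (f1 h)‖) = fun h => ‖f1 h‖ := by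
        funext h; rw [innerSL_apply_norm]
      rw [← isLittleO_norm_left, this, isLittleO_norm_left]
      exact s1
  refine s2.congr_left fun h => ?_
  rw [hM']

end Pool.Agent.H74.UC
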