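import Pool.Agent.H74.PH.Defs

/-!
# Planar scalar `p`-harmonic functions, unconditional estimate: definitions

`ℝ² = ℂ`, `K = p - 1`, `a = 2 q - 1`.
The comparison function `U` is the homogeneous `p`-harmonic saddle; `G = ∇U` is the inverse of
`s ↦ X(|s|^(a-1) s)`.
-/

set_option autoImplicit false

open Complex MeasureTheory Set Filter Topology Metric
open scoped ContDiff RealInnerProductSpace ComplexConjugate

namespace Pool.Agent.H74.UC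

open Pool.Agent.H74.PH

/-- `q` is the positive root of `2 q² + (K-1) q = 2 K`. -/
structure Par (K q : ℝ) : Prop where
  K0 : 0 < K
  q1 : 1 / 2 < q
  q2 : q < 2
  eq : 2 * q ^ 2 + (K - 1) * q = 2 * K

/-- `X(v) = (q+1) v̄ + (q-1) v³/|v|²` (`X 0 = 0`) -/
noncomputable def X (q : ℝ) (v : ℂ) : ℂ :=
  ((q + 1 : ℝ) : ℂ) * conj v + ((q - 1 : ℝ) : ℂ) * (v ^ 3 / ((‖v‖ ^ 2 : ℝ) : ℂ))

/-- the inverse of `X q` -/
noncomputable def Xi (q : ℝ) : ℂ → ℂ := Function.invFun (X q)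

/-- `G (X v) = |v|^(1/a-1) v`, `a = 2q-1` -/
noncomputable def G (q : ℝ) (x : ℂ) : ℂ :=
  ((‖Xi q x‖ ^ (1 / (2 * q - 1) - 1) : ℝ) : ℂ) * Xi q x

/-- `U (X v) = a |v|^(1/a-1) Re (v²)` -/
noncomputable def U (q : ℝ) (x : ℂ) : ℝ :=
  (2 * q - 1) * ‖Xi q x‖ ^ (1 / (2 * q - 1) - 1) * (Xi q x ^ 2).re

/-- if `s = S g (z)`, then `Dg(z) [J s * g z] = g z` -/
noncomputable def J (K : ℝ) (s : ℂ) : ℂ :=
  ((K * s.re : ℝ) + (s.im : ℝ) * I) / ((K * s.re ^ 2 + s.im ^ 2 : ℝ) : ℂ)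

/-- the centre: constant if `g` is homogeneous of degree `1/a` about a point (the centre) -/
noncomputable def cen (K a : ℝ) (g : ℂ → ℂ) (z : ℂ) : ℂ := z - J K (S g z) * g z / a

/-- `|g|^(a-1) |S g|` -/
noncomputable def Q (a : ℝ) (g : ℂ → ℂ) (z : ℂ) : ℝ := ‖g z‖ ^ (a - 1) * ‖S g z‖

/-- a circular arc about `0` -/
def arc (δ s t : ℝ) : Set ℂ := (fun θ : ℝ => (δ : ℂ) * exp (θ * I)) '' Icc s t

end Pool.Agent.H74.UC
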