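import Pool.Agent.H74.UC.Defs

/-! UC-PULL (helper63) -/

set_option autoImplicit false

open Complex MeasureTheory Set Filter Topology Metric
open scoped ContDiff RealInnerProductSpace ComplexConjugate

namespace Pool.Agent.H74.UC

open Pool.Agent.H74.PH

/-- UC-PULL: pull-back of a cubic expansion. -/
theorem cubic_pull {w : ℂ → ℝ} {x0 v0 : ℂ} {M N : ℂ ≃L[ℝ] ℂ} {Φ : ℂ → ℂ}
    (hΦ : HasFDerivAt Φ (N : ℂ →L[ℝ] ℂ) v0) (h0 : Φ v0 = x0)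
    (hw : (fun h : ℂ => w (x0 + h) - (M h ^ 3).re) =o[𝓝 0] (fun h : ℂ => ‖h‖ ^ 3)) :
    (fun ζ : ℂ => w (Φ (v0 + (N.trans M).symm ζ)) - (ζ ^ 3).re) =o[𝓝 0]
      (fun ζ : ℂ => ‖ζ‖ ^ 3) := by
  set L := (N.trans M).symm with hL
  have hML : ∀ ζ, M (N (L ζ)) = ζ := fun ζ => (N.trans M).apply_symm_apply ζ
  have hLt : Tendsto (fun ζ : ℂ => L ζ) (𝓝 0) (𝓝 0) := by
    simpa using L.continuous.tendsto 0
  have hLO : (fun ζ : ℂ => L ζ) =O[𝓝 0] (fun ζ : ℂ => ‖ζ‖) :=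
    ((L : ℂ →L[ℝ] ℂ).isBigO_id (𝓝 0)).norm_right
  have h1 : (fun ζ : ℂ => Φ (v0 + L ζ) - x0 - N (L ζ)) =o[𝓝 0] (fun ζ : ℂ => ‖ζ‖) := by
    have h2 := hasFDerivAt_iff_isLittleO_nhds_zero.1 hΦ
    have h3 := h2.comp_tendsto hLt
    rw [h0] at h3
    exact h3.trans_isBigO hLO
  have h5 : (fun ζ : ℂ => M (Φ (v0 + L ζ) - x0) - ζ) =o[𝓝 0] (fun ζ : ℂ => ‖ζ‖) := by
    have h6 : (fun ζ : ℂ => M (Φ (v0 + L ζ) - x0 - N (L ζ))) =O[𝓝 0]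
        (fun ζ : ℂ => Φ (v0 + L ζ) - x0 - N (L ζ)) := (M : ℂ →L[ℝ] ℂ).isBigO_comp _ _
    refine (h6.trans_isLittleO h1).congr_left fun ζ => ?_
    rw [map_sub M, hML]
  have hid : (fun ζ : ℂ => ζ) =O[𝓝 0] (fun ζ : ℂ => ‖ζ‖) :=
    (Asymptotics.isBigO_refl (fun ζ : ℂ => ζ) (𝓝 0)).norm_right
  have h7 : (fun ζ : ℂ => M (Φ (v0 + L ζ) - x0)) =O[𝓝 0] (fun ζ : ℂ => ‖ζ‖) := by
    refine (h5.isBigO.add hid).congr_left fun ζ => ?_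
    ring
  have h8 : (fun ζ : ℂ => Φ (v0 + L ζ) - x0) =O[𝓝 0] (fun ζ : ℂ => ‖ζ‖) := by
    have h9 : (fun ζ : ℂ => N (L ζ)) =O[𝓝 0] (fun ζ : ℂ => ‖ζ‖) :=
      ((N : ℂ →L[ℝ] ℂ).isBigO_comp (fun ζ : ℂ => L ζ) (𝓝 0)).trans hLO
    refine (h1.isBigO.add h9).congr_left fun ζ => ?_
    ring
  have h9 : Tendsto (fun ζ : ℂ => Φ (v0 + L ζ) - x0) (𝓝 0) (𝓝 0) := by
    refine h8.trans_tendsto ?_
    simpa using (continuous_norm.tendsto (0 : ℂ))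
  have h10 := (hw.comp_tendsto h9).trans_isBigO (h8.norm_left.pow 3)
  have h11 : (fun ζ : ℂ => (M (Φ (v0 + L ζ) - x0) ^ 3).re - (ζ ^ 3).re) =o[𝓝 0]
      (fun ζ : ℂ => ‖ζ‖ ^ 3) := by
    have h12 : (fun ζ : ℂ => M (Φ (v0 + L ζ) - x0) ^ 2 + M (Φ (v0 + L ζ) - x0) * ζ + ζ ^ 2)
        =O[𝓝 0] (fun ζ : ℂ => ‖ζ‖ ^ 2) := by
      refine ((h7.pow 2).add ?_).add (hid.pow 2)
      refine (h7.mul hid).congr_right fun ζ => ?_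
      ring
    have h13 := h5.mul_isBigO h12
    refine Asymptotics.IsLittleO.congr_right (g₁ := fun ζ : ℂ => ‖ζ‖ * ‖ζ‖ ^ 2) ?_
      (fun ζ => by ring)
    refine Asymptotics.IsBigO.trans_isLittleO ?_ h13
    refine Asymptotics.IsBigO.of_bound 1 (Filter.Eventually.of_forall fun ζ => ?_)
    rw [one_mul, ← Complex.sub_re, Real.norm_eq_abs]
    refine (Complex.abs_re_le_norm _).trans (le_of_eq ?_)
    congr 1
    ring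
  refine (h10.add h11).congr_left fun ζ => ?_
  simp only [Function.comp]
  rw [add_sub_cancel]
  ring

end Pool.Agent.H74.UC
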