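import Pool.Agent.H74.UC.Defs

/-! # UC-RAY: if the centre is locally constant where `Q > C`, then `Q` is bounded (helper75) -/

set_option autoImplicit false

open Complex MeasureTheory Set Filter Topology Metric
open scoped ContDiff RealInnerProductSpace ComplexConjugate

namespace Pool.Agent.H74.UC

open Pool.Agent.H74.PH

namespace RayAux

theorem den_pos {K : ℝ} (hK : 0 < K) {s : ℂ} (hs : s ≠ 0) : 0 < K * s.re ^ 2 + s.im ^ 2 := by
  rcases eq_or_ne s.im 0 with h | h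
  · have h1 : s.re ≠ 0 := fun h1 => hs (Complex.ext h1 h)
    positivity
  · positivity

theorem J_re (K : ℝ) (s : ℂ) : (J K s).re = K * s.re / (K * s.re ^ 2 + s.im ^ 2) := by
  unfold J
  rw [Complex.div_ofReal_re]
  simp

theorem J_im (K : ℝ) (s : ℂ) : (J K s).im = s.im / (K * s.re ^ 2 + s.im ^ 2) := by
  unfold J
  rw [Complex.div_ofReal_im]
  simp

theorem J_smul (K : ℝ) {l : ℝ} (hl : 0 < l) (s : ℂ) :
    J K ((l : ℂ) * s) = ((l⁻¹ : ℝ) : ℂ) * J K s := by
  apply Complex.ext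
  · rw [J_re, Complex.re_ofReal_mul, Complex.re_ofReal_mul, Complex.im_ofReal_mul, J_re]
    rw [show K * (l * s.re) = l * (K * s.re) by ring,
      show K * (l * s.re) ^ 2 + (l * s.im) ^ 2 = l * (l * (K * s.re ^ 2 + s.im ^ 2)) by ring,
      mul_div_mul_left _ _ hl.ne', div_eq_mul_inv, mul_inv]
    ring
  · rw [J_im, Complex.im_ofReal_mul, Complex.re_ofReal_mul, Complex.im_ofReal_mul, J_im]
    rw [show K * (l * s.re) ^ 2 + (l * s.im) ^ 2 = l * (l * (K * s.re ^ 2 + s.im ^ 2)) by ring,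
      mul_div_mul_left _ _ hl.ne', div_eq_mul_inv, mul_inv]
    ring

theorem J_J {K : ℝ} (hK : 0 < K) {s : ℂ} (hs : s ≠ 0) : J K⁻¹ (J K s) = s := by
  have hD := den_pos hK hs
  have h1 : K⁻¹ * (J K s).re ^ 2 + (J K s).im ^ 2 = (K * s.re ^ 2 + s.im ^ 2)⁻¹ := by
    rw [J_re, J_im]
    field_simp
  apply Complex.ext
  · rw [J_re, h1, J_re]
    field_simp
  · rw [J_im, h1, J_im]
    field_simp

theorem J_ne {K : ℝ} (hK : 0 < K) {s : ℂ} (hs : s ≠ 0) : J K s ≠ 0 := by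
  intro h
  have h1 := J_J hK hs
  rw [h] at h1
  apply hs
  rw [← h1]
  unfold J
  simp

theorem J_norm {K : ℝ} (hK : 0 < K) (s : ℂ) : ‖J K s‖ * ‖s‖ ≤ max K 1 / min K 1 := by
  rcases eq_or_ne s 0 with rfl | hs
  · rw [norm_zero, mul_zero]
    positivity
  have hD := den_pos hK hs
  have hn : 0 < ‖s‖ := norm_pos_iff.2 hs
  have hm : 0 < min K 1 := lt_min hK one_pos
  have hM : 0 < max K 1 := lt_max_of_lt_right one_pos
  have h1 : min K 1 * ‖s‖ ^ 2 ≤ K * s.re ^ 2 + s.im ^ 2 := by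
    rw [Complex.sq_norm, Complex.normSq_apply]
    have := min_le_left K 1
    have := min_le_right K 1
    nlinarith [sq_nonneg s.re, sq_nonneg s.im]
  have h2 : ‖((K * s.re : ℝ) : ℂ) + (s.im : ℝ) * I‖ ≤ max K 1 * ‖s‖ := by
    refine abs_le_of_sq_le_sq' ?_ (by positivity) |>.2
    rw [mul_pow, Complex.sq_norm, Complex.sq_norm, Complex.normSq_apply, Complex.normSq_apply]
    simp only [add_re, ofReal_re, mul_re, I_re, mul_zero, ofReal_im, I_im, mul_one, sub_self,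
      add_zero, add_im, mul_im, zero_add]
    have k1 : K ^ 2 ≤ (max K 1) ^ 2 := pow_le_pow_left₀ hK.le (le_max_left _ _) 2
    have k2 : 1 ≤ (max K 1) ^ 2 := one_le_pow₀ (le_max_right _ _)
    nlinarith [sq_nonneg s.re, sq_nonneg s.im]
  have h3 : ‖J K s‖ = ‖((K * s.re : ℝ) : ℂ) + (s.im : ℝ) * I‖ / (K * s.re ^ 2 + s.im ^ 2) := by
    unfold J
    rw [norm_div, Complex.norm_real, Real.norm_of_nonneg hD.le]
  rw [h3]
  calc ‖((K * s.re : ℝ) : ℂ) + (s.im : ℝ) * I‖ / (K * s.re ^ 2 + s.im ^ 2) * ‖s‖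
      ≤ (max K 1 * ‖s‖) / (min K 1 * ‖s‖ ^ 2) * ‖s‖ := by gcongr
    _ = max K 1 / min K 1 := by field_simp

variable {K : ℝ} {Ω : Set ℂ} {g : ℂ → ℂ}

theorem D_J (hK : 0 < K) (hg : PGrad K Ω g) {z : ℂ} (hz : z ∈ Ω) (h0 : g z ≠ 0)
    (hS : S g z ≠ 0) : fderiv ℝ g z (J K (S g z) * g z) = g z := by
  have h1 := hg.eq z hz h0 (J K (S g z)).re (J K (S g z)).im
  rw [Complex.re_add_im] at h1
  rw [h1]
  have hD := den_pos hK hS
  have e1 : (S g z).re * (J K (S g z)).re + (S g z).im * (J K (S g z)).im = 1 := by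
    rw [J_re, J_im, mul_div_assoc', mul_div_assoc', ← add_div, div_eq_one_iff_eq hD.ne']
    ring
  have e2 : (S g z).im * (J K (S g z)).re - K * (S g z).re * (J K (S g z)).im = 0 := by
    rw [J_re, J_im]
    ring
  rw [e1, e2]
  simp

theorem S_cont (hg : PGrad K Ω g) {z : ℂ} (hz : z ∈ Ω) (h0 : g z ≠ 0) :
    ContinuousAt (S g) z := by
  have h3 := hg.smooth z hz h0
  have hd : ContinuousAt (fderiv ℝ g) z :=
    (h3.fderiv_right (m := 0) (by norm_num)).continuousAt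
  exact (hd.clm_apply h3.continuousAt).div h3.continuousAt h0

theorem Q_cont (a : ℝ) (hg : PGrad K Ω g) {z : ℂ} (hz : z ∈ Ω) (h0 : g z ≠ 0) :
    ContinuousAt (Q a g) z := by
  have h3 := hg.smooth z hz h0
  exact (h3.continuousAt.norm.rpow_const (Or.inl (norm_ne_zero_iff.2 h0))).mul
    (S_cont hg hz h0).norm

/-- the ray -/
noncomputable def xr (z1 : ℂ) (s : ℝ) : ℂ := ((1 - s : ℝ) : ℂ) * z1

theorem xr_deriv (z1 : ℂ) (s : ℝ) : HasDerivAt (xr z1) (-z1) s := by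
  have h1 : HasDerivAt (fun s : ℝ => ((1 - s : ℝ) : ℂ)) ((-1 : ℝ) : ℂ) s := by
    have := ((hasDerivAt_id s).const_sub 1).ofReal_comp
    exact this
  have h2 := h1.mul_const z1
  have e : ((-1 : ℝ) : ℂ) * z1 = -z1 := by push_cast; ring
  rw [e] at h2
  exact h2

theorem xr_cont (z1 : ℂ) : Continuous (xr z1) :=
  continuous_iff_continuousAt.2 fun s => (xr_deriv z1 s).continuousAt

/-- the local step -/
theorem step {a C : ℝ} (hK : 0 < K) (ha : 0 < a) (hC : 0 < C) (hg : PGrad K Ω g)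
    (hb : ball (0 : ℂ) (1 / 2) ⊆ Ω)
    (hcen : ∀ z ∈ ball (0 : ℂ) (1 / 2), g z ≠ 0 → C < Q a g z →
        HasFDerivAt (cen K a g) (0 : ℂ →L[ℝ] ℂ) z) {z1 : ℂ} {s0 : ℝ} (hs0 : 0 < s0)
    (hx : xr z1 s0 ∈ ball (0 : ℂ) (1 / 2)) (h0 : g (xr z1 s0) ≠ 0)
    (hQ : C < Q a g (xr z1 s0)) (hc : cen K a g (xr z1 s0) = z1) :
    ∀ᶠ s in 𝓝 s0, 0 < s ∧ g (xr z1 s) ≠ 0 ∧ S g (xr z1 s) ≠ 0 ∧ cen K a g (xr z1 s) = z1 ∧
      g (xr z1 s) * ((s ^ (-(1 / a)) : ℝ) : ℂ) =
        g (xr z1 s0) * ((s0 ^ (-(1 / a)) : ℝ) : ℂ) := by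
  have hV : ∀ᶠ z in 𝓝 (xr z1 s0), z ∈ ball (0 : ℂ) (1 / 2) ∧ g z ≠ 0 ∧ C < Q a g z := by
    refine (isOpen_ball.eventually_mem hx).and ?_
    exact ((hg.smooth _ (hb hx) h0).continuousAt.eventually_ne h0).and
      ((Q_cont a hg (hb hx) h0).eventually (lt_mem_nhds hQ))
  have hV2 : ∀ᶠ s in 𝓝 s0, 0 < s ∧ xr z1 s ∈ ball (0 : ℂ) (1 / 2) ∧ g (xr z1 s) ≠ 0 ∧
      C < Q a g (xr z1 s) :=
    (lt_mem_nhds hs0).and ((xr_cont z1).continuousAt.eventually hV)
  obtain ⟨η, hη, hI⟩ := Metric.eventually_nhds_iff_ball.1 hV2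
  have hpc : IsPreconnected (ball s0 η) := (convex_ball s0 η).isPreconnected
  have hSne : ∀ z, C < Q a g z → S g z ≠ 0 := by
    intro z hz h
    unfold Q at hz
    rw [h, norm_zero, mul_zero] at hz
    linarith
  -- the centre
  have hd1 : ∀ s ∈ ball s0 η, HasDerivAt (fun s => cen K a g (xr z1 s)) 0 s := by
    intro s hs
    obtain ⟨-, h2, h3, h4⟩ := hI s hs
    exact (hcen _ h2 h3 h4).comp_hasDerivAt s (xr_deriv z1 s)
  have hcc : ∀ s ∈ ball s0 η, cen K a g (xr z1 s) = z1 := by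
    intro s hs
    have h := isOpen_ball.is_const_of_deriv_eq_zero hpc
      (fun t ht => (hd1 t ht).differentiableAt.differentiableWithinAt)
      (fun t ht => (hd1 t ht).deriv) hs (mem_ball_self hη)
    exact h.trans hc
  -- the function
  have hd2 : ∀ s ∈ ball s0 η, HasDerivAt (fun s : ℝ => g (xr z1 s) * ((s ^ (-(1 / a)) : ℝ) : ℂ))
      0 s := by
    intro s hs
    obtain ⟨h1, h2, h3, h4⟩ := hI s hs
    have hz := hb h2
    have hgd : HasFDerivAt g (fderiv ℝ g (xr z1 s)) (xr z1 s) :=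
      ((hg.smooth _ hz h3).differentiableAt (by norm_num)).hasFDerivAt
    have hgd2 := hgd.comp_hasDerivAt s (xr_deriv z1 s)
    have hr : HasDerivAt (fun s : ℝ => ((s ^ (-(1 / a)) : ℝ) : ℂ))
        ((-(1 / a) * s ^ (-(1 / a) - 1) : ℝ) : ℂ) s := by
      have := (Real.hasDerivAt_rpow_const (x := s) (p := -(1 / a)) (Or.inl h1.ne')).ofReal_comp
      exact this
    have hm := hgd2.mul hr
    have hJ := D_J hK hg hz h3 (hSne _ h4)
    have hce := hcc s hs
    unfold cen at hce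
    have haC : (a : ℂ) ≠ 0 := by exact_mod_cast ha.ne'
    have e1 : J K (S g (xr z1 s)) * g (xr z1 s) = ((a * s : ℝ) : ℂ) * (-z1) := by
      have e2 : J K (S g (xr z1 s)) * g (xr z1 s) / a = xr z1 s - z1 := by
        linear_combination -hce
      rw [div_eq_iff haC] at e2
      rw [e2]
      unfold xr
      push_cast
      ring
    rw [e1] at hJ
    have e3 : fderiv ℝ g (xr z1 s) (((a * s : ℝ) : ℂ) * (-z1)) =
        ((a * s : ℝ) : ℂ) * fderiv ℝ g (xr z1 s) (-z1) := by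
      rw [← Complex.real_smul, map_smul, Complex.real_smul]
    rw [e3] at hJ
    have hsC : (s : ℂ) ≠ 0 := by exact_mod_cast h1.ne'
    have e4 : s ^ (-(1 / a)) = s * s ^ (-(1 / a) - 1) := by
      rw [Real.rpow_sub_one h1.ne']
      field_simp
    have e5 : fderiv ℝ g (xr z1 s) (-z1) * ((s ^ (-(1 / a)) : ℝ) : ℂ) +
        g (xr z1 s) * ((-(1 / a) * s ^ (-(1 / a) - 1) : ℝ) : ℂ) = 0 := by
      rw [e4, ← hJ]
      push_cast
      field_simp
      ring
    rw [← e5]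
    exact hm
  refine Metric.eventually_nhds_iff_ball.2 ⟨η, hη, fun s hs => ?_⟩
  obtain ⟨h1, h2, h3, h4⟩ := hI s hs
  refine ⟨h1, h3, hSne _ h4, hcc s hs, ?_⟩
  exact isOpen_ball.is_const_of_deriv_eq_zero hpc
      (fun t ht => (hd2 t ht).differentiableAt.differentiableWithinAt)
      (fun t ht => (hd2 t ht).deriv) hs (mem_ball_self hη)

end RayAux

open RayAux in
/-- UC-RAY: if the centre is locally constant where `Q > C`, then `Q` is bounded. -/
theorem ray {K a : ℝ} (hK : 0 < K) (ha : 0 < a) {C : ℝ} (hC : 0 < C) : ∃ C' : ℝ, 0 < C' ∧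
    ∀ (Ω : Set ℂ) (g : ℂ → ℂ), PGrad K Ω g → closedBall 0 1 ⊆ Ω →
      (∀ z ∈ closedBall (0 : ℂ) 1, ‖g z‖ ≤ 1) →
      (∀ z ∈ ball (0 : ℂ) (1 / 2), g z ≠ 0 → C < Q a g z →
        HasFDerivAt (cen K a g) (0 : ℂ →L[ℝ] ℂ) z) → Q a g 0 ≤ C' := by
  refine ⟨max C (2 * (max K 1 / min K 1) / a), lt_max_of_lt_left hC, ?_⟩
  intro Ω g hg hΩ hbd hcen
  by_contra hcon
  push Not at hcon
  obtain ⟨hQ, hQ2⟩ := max_lt_iff.1 hcon
  have hb : ball (0 : ℂ) (1 / 2) ⊆ Ω := fun z hz => hΩ (by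
    rw [mem_ball] at hz; rw [mem_closedBall]; linarith)
  have h00 : (0 : ℂ) ∈ ball (0 : ℂ) (1 / 2) := mem_ball_self (by norm_num)
  have hS0 : S g 0 ≠ 0 := by
    intro h
    unfold Q at hQ
    rw [h, norm_zero, mul_zero] at hQ
    linarith
  have hg0 : g 0 ≠ 0 := by
    intro h
    apply hS0
    unfold S
    rw [h, div_zero]
  have hgn : 0 < ‖g 0‖ := norm_pos_iff.2 hg0
  have hSn : 0 < ‖S g 0‖ := norm_pos_iff.2 hS0
  have haC : (a : ℂ) ≠ 0 := by exact_mod_cast ha.ne'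
  obtain ⟨z1, hz1⟩ : ∃ z1, z1 = cen K a g 0 := ⟨_, rfl⟩
  have hz1' : z1 = -(J K (S g 0) * g 0 / a) := by
    rw [hz1]; unfold cen; ring
  have hz1n : ‖z1‖ = ‖J K (S g 0)‖ * ‖g 0‖ / a := by
    rw [hz1', norm_neg, norm_div, norm_mul, Complex.norm_real, Real.norm_of_nonneg ha.le]
  have hJn : 0 < ‖J K (S g 0)‖ := norm_pos_iff.2 (J_ne hK hS0)
  have hz1p : 0 < ‖z1‖ := by rw [hz1n]; positivity
  -- the claim
  have key : ∀ b : ℝ, 1 ≤ b → (b - 1) * ‖z1‖ < 1 / 2 →
      g (xr z1 b) = ((b ^ (1 / a) : ℝ) : ℂ) * g 0 := by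
    intro b hb1 hb2
    have hin : ∀ s ∈ Icc 1 b, xr z1 s ∈ ball (0 : ℂ) (1 / 2) := by
      intro s hs
      rw [mem_ball_zero_iff]
      unfold xr
      rw [norm_mul, Complex.norm_real, Real.norm_eq_abs, abs_sub_comm, abs_of_nonneg (by
        linarith [hs.1])]
      have : (s - 1) * ‖z1‖ ≤ (b - 1) * ‖z1‖ :=
        mul_le_mul_of_nonneg_right (by linarith [hs.2]) hz1p.le
      linarith
    obtain ⟨T, hT⟩ : ∃ T : Set ℝ, T = {s | g (xr z1 s) = ((s ^ (1 / a) : ℝ) : ℂ) * g 0 ∧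
      S g (xr z1 s) = ((s ^ (1 / a - 1) : ℝ) : ℂ) * S g 0} := ⟨_, rfl⟩
    have hr1 : Continuous fun s : ℝ => ((s ^ (1 / a) : ℝ) : ℂ) :=
      continuous_ofReal.comp (Real.continuous_rpow_const (by positivity))
    have hcl : IsClosed (T ∩ Icc 1 b) := by
      have hc1 : ContinuousOn (fun s => g (xr z1 s) - ((s ^ (1 / a) : ℝ) : ℂ) * g 0)
          (Icc 1 b) := by
        refine ContinuousOn.sub ?_ (hr1.mul continuous_const).continuousOn
        intro s hs
        have := (hg.cont.continuousAt (hg.isOpen.mem_nhds (hb (hin s hs))))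
        exact (this.comp (xr_cont z1).continuousAt).continuousWithinAt
      have hA := hc1.preimage_isClosed_of_isClosed isClosed_Icc
        (isClosed_singleton (x := (0 : ℂ)))
      have hc2 : ContinuousOn (fun s => S g (xr z1 s) - ((s ^ (1 / a - 1) : ℝ) : ℂ) * S g 0)
          (Icc 1 b ∩ (fun s => g (xr z1 s) - ((s ^ (1 / a) : ℝ) : ℂ) * g 0) ⁻¹' {0}) := by
        rintro s ⟨hs, hs'⟩
        have hs0 : 0 < s := by linarith [hs.1]
        have hne : g (xr z1 s) ≠ 0 := by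
          have e : g (xr z1 s) = ((s ^ (1 / a) : ℝ) : ℂ) * g 0 := by
            rw [mem_preimage, mem_singleton_iff] at hs'
            exact sub_eq_zero.1 hs'
          rw [e]
          exact mul_ne_zero (by exact_mod_cast (Real.rpow_pos_of_pos hs0 _).ne') hg0
        have k1 : ContinuousAt (fun s => S g (xr z1 s)) s :=
          ContinuousAt.comp (S_cont hg (hb (hin s hs)) hne) (xr_cont z1).continuousAt
        have k2 : ContinuousAt (fun s : ℝ => ((s ^ (1 / a - 1) : ℝ) : ℂ) * S g 0) s :=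
          (continuous_ofReal.continuousAt.comp
            (Real.continuousAt_rpow_const _ _ (Or.inl hs0.ne'))).mul continuousAt_const
        exact (k1.sub k2).continuousWithinAt
      have hB := hc2.preimage_isClosed_of_isClosed hA (isClosed_singleton (x := (0 : ℂ)))
      convert hB using 1
      ext s
      rw [hT]
      simp only [mem_inter_iff, mem_ofPred_eq, mem_preimage, mem_singleton_iff, sub_eq_zero]
      tauto
    have h1T : (1 : ℝ) ∈ T := by
      rw [hT, mem_ofPred_eq]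
      have : xr z1 1 = 0 := by unfold xr; simp
      rw [this]
      simp
    have hopen : ∀ s ∈ T ∩ Ico 1 b, T ∈ 𝓝[>] s := by
      rintro s ⟨hs, hs1, hsb⟩
      rw [hT, mem_ofPred_eq] at hs
      obtain ⟨e1, e2⟩ := hs
      have hs0 : 0 < s := by linarith
      have hsI : s ∈ Icc 1 b := ⟨hs1, hsb.le⟩
      have hr0 : (0 : ℝ) < s ^ (1 / a) := Real.rpow_pos_of_pos hs0 _
      have hr2 : (0 : ℝ) < s ^ (1 / a - 1) := Real.rpow_pos_of_pos hs0 _
      have hne : g (xr z1 s) ≠ 0 := by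
        rw [e1]
        exact mul_ne_zero (by exact_mod_cast hr0.ne') hg0
      have hQs : Q a g (xr z1 s) = Q a g 0 := by
        unfold Q
        rw [e1, e2, norm_mul, norm_mul, Complex.norm_real, Complex.norm_real,
          Real.norm_of_nonneg hr0.le, Real.norm_of_nonneg hr2.le,
          Real.mul_rpow hr0.le hgn.le, ← Real.rpow_mul hs0.le]
        have e3 : s ^ (1 / a * (a - 1)) * s ^ (1 / a - 1) = 1 := by
          rw [← Real.rpow_add hs0]
          have : 1 / a * (a - 1) + (1 / a - 1) = 0 := by field_simp; ring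
          rw [this, Real.rpow_zero]
        calc s ^ (1 / a * (a - 1)) * ‖g 0‖ ^ (a - 1) * (s ^ (1 / a - 1) * ‖S g 0‖)
            = (s ^ (1 / a * (a - 1)) * s ^ (1 / a - 1)) * (‖g 0‖ ^ (a - 1) * ‖S g 0‖) := by
              ring
          _ = _ := by rw [e3, one_mul]
      have hcs : cen K a g (xr z1 s) = z1 := by
        unfold cen
        rw [e1, e2, J_smul K hr2]
        have e3 : (s ^ (1 / a - 1))⁻¹ * s ^ (1 / a) = s := by
          rw [Real.rpow_sub_one hs0.ne']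
          field_simp
        have e4 : ((((s ^ (1 / a - 1))⁻¹ : ℝ) : ℂ) * J K (S g 0)) *
            (((s ^ (1 / a) : ℝ) : ℂ) * g 0) = (s : ℂ) * (J K (S g 0) * g 0) := by
          calc ((((s ^ (1 / a - 1))⁻¹ : ℝ) : ℂ) * J K (S g 0)) *
                (((s ^ (1 / a) : ℝ) : ℂ) * g 0) =
                (((s ^ (1 / a - 1))⁻¹ * s ^ (1 / a) : ℝ) : ℂ) * (J K (S g 0) * g 0) := by
                push_cast; ring
            _ = _ := by rw [e3]
        rw [e4]
        have e5 : J K (S g 0) * g 0 / a = -z1 := by rw [hz1']; ring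
        rw [mul_div_assoc, e5]
        unfold xr
        push_cast
        ring
      have hst := step hK ha hC hg hb hcen hs0 (hin s hsI) hne (by rw [hQs]; exact hQ) hcs
      apply mem_nhdsWithin_of_mem_nhds
      filter_upwards [hst] with t ht
      obtain ⟨ht0, htn, htS, htc, hte⟩ := ht
      have htr : (0 : ℝ) < t ^ (1 / a) := Real.rpow_pos_of_pos ht0 _
      have htrC : ((t ^ (1 / a) : ℝ) : ℂ) ≠ 0 := by exact_mod_cast htr.ne'
      have f1 : g (xr z1 t) = ((t ^ (1 / a) : ℝ) : ℂ) * g 0 := by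
        rw [e1] at hte
        have e3 : ((s ^ (1 / a) : ℝ) : ℂ) * g 0 * ((s ^ (-(1 / a)) : ℝ) : ℂ) = g 0 := by
          have : s ^ (1 / a) * s ^ (-(1 / a)) = 1 := by
            rw [← Real.rpow_add hs0, add_neg_cancel, Real.rpow_zero]
          calc ((s ^ (1 / a) : ℝ) : ℂ) * g 0 * ((s ^ (-(1 / a)) : ℝ) : ℂ) =
              ((s ^ (1 / a) * s ^ (-(1 / a)) : ℝ) : ℂ) * g 0 := by push_cast; ring
            _ = g 0 := by rw [this]; simp
        rw [e3] at hte
        have e4 : t ^ (1 / a) * t ^ (-(1 / a)) = 1 := by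
          rw [← Real.rpow_add ht0, add_neg_cancel, Real.rpow_zero]
        calc g (xr z1 t) = ((t ^ (1 / a) * t ^ (-(1 / a)) : ℝ) : ℂ) * g (xr z1 t) := by
              rw [e4]; simp
          _ = ((t ^ (1 / a) : ℝ) : ℂ) * (g (xr z1 t) * ((t ^ (-(1 / a)) : ℝ) : ℂ)) := by
              push_cast; ring
          _ = _ := by rw [hte]
      rw [hT, mem_ofPred_eq]
      refine ⟨f1, ?_⟩
      unfold cen at htc
      have e5 : J K (S g (xr z1 t)) * g (xr z1 t) = (t : ℂ) * (J K (S g 0) * g 0) := by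
        have e6 : J K (S g (xr z1 t)) * g (xr z1 t) / a = xr z1 t - z1 := by
          linear_combination -htc
        rw [div_eq_iff haC] at e6
        rw [e6]
        unfold xr
        rw [hz1']
        push_cast
        field_simp
        ring
      rw [f1] at e5
      have e7 : J K (S g (xr z1 t)) = ((t ^ (1 - 1 / a) : ℝ) : ℂ) * J K (S g 0) := by
        have e8 : t ^ (1 - 1 / a) * t ^ (1 / a) = t := by
          rw [← Real.rpow_add ht0, sub_add_cancel, Real.rpow_one]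
        have e9 : (((t ^ (1 / a) : ℝ) : ℂ) * g 0) ≠ 0 := mul_ne_zero htrC hg0
        refine mul_right_cancel₀ e9 ?_
        rw [e5]
        calc (t : ℂ) * (J K (S g 0) * g 0) =
            ((t ^ (1 - 1 / a) * t ^ (1 / a) : ℝ) : ℂ) * (J K (S g 0) * g 0) := by rw [e8]
          _ = _ := by push_cast; ring
      rw [← J_J hK htS, e7, J_smul _ (Real.rpow_pos_of_pos ht0 _), J_J hK hS0,
        ← Real.rpow_neg ht0.le, neg_sub]
    exact ((hcl.Icc_subset_of_forall_mem_nhdsWithin h1T hopen (right_mem_Icc.2 hb1)) |>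
      fun h => by rw [hT] at h; exact h.1)
  -- the conclusion
  have hlim : ∀ b : ℝ, 1 ≤ b → (b - 1) * ‖z1‖ < 1 / 2 → b ≤ ‖g 0‖ ^ (-a) := by
    intro b hb1 hb2
    have hb0 : 0 < b := by linarith
    have h1 := key b hb1 hb2
    have h2 : ‖g (xr z1 b)‖ ≤ 1 := by
      apply hbd
      rw [mem_closedBall_zero_iff]
      unfold xr
      rw [norm_mul, Complex.norm_real, Real.norm_eq_abs, abs_sub_comm, abs_of_nonneg (by
        linarith)]
      linarith
    rw [h1, norm_mul, Complex.norm_real, Real.norm_of_nonneg (Real.rpow_nonneg hb0.le _)] at h2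
    have h3 : b ^ (1 / a) ≤ ‖g 0‖⁻¹ := by
      rw [← one_div, le_div_iff₀ hgn]
      exact h2
    have h4 := Real.rpow_le_rpow (Real.rpow_nonneg hb0.le _) h3 ha.le
    rw [← Real.rpow_mul hb0.le, one_div_mul_cancel ha.ne', Real.rpow_one,
      Real.inv_rpow hgn.le, ← Real.rpow_neg hgn.le] at h4
    exact h4
  have hfin : 1 / (2 * ‖z1‖) ≤ ‖g 0‖ ^ (-a) := by
    refine le_of_forall_lt fun c hc => ?_
    rcases lt_or_ge c 0 with h | h
    · exact h.trans (Real.rpow_pos_of_pos hgn _)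
    · have h1 := hlim (1 + c) (by linarith) (by
        rw [add_sub_cancel_left]
        rw [lt_div_iff₀ (by positivity)] at hc
        linarith)
      linarith
  have h5 : ‖J K (S g 0)‖ * ‖S g 0‖ ≤ max K 1 / min K 1 := J_norm hK _
  have h6 : ‖g 0‖ ^ a ≤ 2 * ‖z1‖ := by
    rw [Real.rpow_neg hgn.le, ← one_div] at hfin
    have h7 : 0 < ‖g 0‖ ^ a := Real.rpow_pos_of_pos hgn _
    rw [div_le_div_iff₀ (by positivity) h7] at hfin
    linarith
  have h7 : Q a g 0 ≤ 2 * (max K 1 / min K 1) / a := by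
    unfold Q
    rw [Real.rpow_sub_one hgn.ne']
    calc ‖g 0‖ ^ a / ‖g 0‖ * ‖S g 0‖ ≤ (2 * ‖z1‖) / ‖g 0‖ * ‖S g 0‖ := by gcongr
      _ = 2 * (‖J K (S g 0)‖ * ‖S g 0‖) / a := by
        rw [hz1n]; field_simp
      _ ≤ 2 * (max K 1 / min K 1) / a := by gcongr
  linarith

end Pool.Agent.H74.UC
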