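import Pool.Agent.H74.UC.Defs

/-! UC-SIM (helper63) -/

set_option autoImplicit false

open Complex MeasureTheory Set Filter Topology Metric
open scoped ContDiff RealInnerProductSpace ComplexConjugate

namespace Pool.Agent.H74.UC

open Pool.Agent.H74.PH

theorem sim_affine (z0 x0 c x : ℂ) :
    HasFDerivAt (fun x : ℂ => z0 + c * (x - x0)) (c • ContinuousLinearMap.id ℝ ℂ) x := by
  have h1 : HasFDerivAt (fun x : ℂ => x - x0) (ContinuousLinearMap.id ℝ ℂ) x :=
    (hasFDerivAt_id x).sub_const x0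
  have h2 := (h1.const_mul c).const_add z0
  exact h2

theorem sim_fderiv {g : ℂ → ℂ} {z0 x0 c d x : ℂ}
    (hd : DifferentiableAt ℝ g (z0 + c * (x - x0))) (v : ℂ) :
    fderiv ℝ (fun x => d * g (z0 + c * (x - x0))) x v =
      d * fderiv ℝ g (z0 + c * (x - x0)) (c * v) := by
  have h1 := hd.hasFDerivAt.comp x (sim_affine z0 x0 c x)
  have h2 := h1.const_mul d
  have e : (fun x => d * g (z0 + c * (x - x0))) =
      (fun x => d * (g ∘ fun x : ℂ => z0 + c * (x - x0)) x) := rfl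
  rw [e, h2.fderiv]
  simp

/-- UC-SIM: similarities. -/
theorem sim {K : ℝ} {Ω : Set ℂ} {g : ℂ → ℂ} (hg : PGrad K Ω g) (z0 x0 e : ℂ) {ρ l : ℝ}
    (hρ : 0 < ρ) (hl : 0 < l) (he : ‖e‖ = 1) :
    PGrad K {x | z0 + ρ * e * (x - x0) ∈ Ω} (fun x => l * conj e * g (z0 + ρ * e * (x - x0))) ∧
    ∀ x, z0 + ρ * e * (x - x0) ∈ Ω → g (z0 + ρ * e * (x - x0)) ≠ 0 →
      S (fun x => l * conj e * g (z0 + ρ * e * (x - x0))) x =
        l * ρ * S g (z0 + ρ * e * (x - x0)) := by
  have hee : e * conj e = 1 := by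
    rw [Complex.mul_conj, Complex.normSq_eq_norm_sq, he]; norm_num
  have he0 : conj e ≠ 0 := by
    intro h
    rw [h, mul_zero] at hee
    exact zero_ne_one hee
  have hlC : (l : ℂ) ≠ 0 := by exact_mod_cast hl.ne'
  have hdiff : ∀ x, z0 + ρ * e * (x - x0) ∈ Ω → g (z0 + ρ * e * (x - x0)) ≠ 0 →
      DifferentiableAt ℝ g (z0 + ρ * e * (x - x0)) := fun z hz h0 =>
    (hg.smooth _ hz h0).differentiableAt (by norm_num)
  have hkey : ∀ x, z0 + ρ * e * (x - x0) ∈ Ω → g (z0 + ρ * e * (x - x0)) ≠ 0 → ∀ c : ℂ,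
      fderiv ℝ (fun x => l * conj e * g (z0 + ρ * e * (x - x0))) x
        (c * (l * conj e * g (z0 + ρ * e * (x - x0)))) =
      l * conj e * (l * ρ * fderiv ℝ g (z0 + ρ * e * (x - x0))
        (c * g (z0 + ρ * e * (x - x0)))) := by
    intro x hx h0 c
    rw [sim_fderiv (hdiff x hx h0)]
    have e1 : (ρ : ℂ) * e * (c * (l * conj e * g (z0 + ρ * e * (x - x0)))) =
        ((l * ρ : ℝ) • (c * g (z0 + ρ * e * (x - x0)))) := by
      rw [Complex.real_smul]
      push_cast
      linear_combination (ρ * c * l * g (z0 + ρ * e * (x - x0))) * hee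
    rw [e1, ContinuousLinearMap.map_smul, Complex.real_smul]
    push_cast
    ring
  have hS : ∀ x, z0 + ρ * e * (x - x0) ∈ Ω → g (z0 + ρ * e * (x - x0)) ≠ 0 →
      S (fun x => l * conj e * g (z0 + ρ * e * (x - x0))) x =
        l * ρ * S g (z0 + ρ * e * (x - x0)) := by
    intro x hx h0
    have h1 := hkey x hx h0 1
    rw [one_mul, one_mul] at h1
    unfold S
    rw [h1]
    field_simp
  refine ⟨⟨?_, ?_, ?_, ?_⟩, hS⟩
  · exact hg.isOpen.preimage (by fun_prop)
  · refine ContinuousOn.mul continuousOn_const ?_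
    exact hg.cont.comp (by fun_prop) (fun z hz => hz)
  · intro z hz h0
    have h0' : g (z0 + ρ * e * (z - x0)) ≠ 0 := by
      intro h; apply h0; simp [h]
    have h1 : ContDiffAt ℝ 3 (fun z : ℂ => z0 + ρ * e * (z - x0)) z := by fun_prop
    have h2 := (hg.smooth _ hz h0').comp z h1
    exact contDiffAt_const.mul h2
  · intro z hz h0 s r
    have h0' : g (z0 + ρ * e * (z - x0)) ≠ 0 := by
      intro h; apply h0; simp [h]
    rw [hS z hz h0', hkey z hz h0', hg.eq _ hz h0' s r]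
    have er : ((l : ℂ) * ρ * S g (z0 + ρ * e * (z - x0))).re =
        l * ρ * (S g (z0 + ρ * e * (z - x0))).re := by
      rw [← Complex.ofReal_mul, Complex.re_ofReal_mul]
    have ei : ((l : ℂ) * ρ * S g (z0 + ρ * e * (z - x0))).im =
        l * ρ * (S g (z0 + ρ * e * (z - x0))).im := by
      rw [← Complex.ofReal_mul, Complex.im_ofReal_mul]
    rw [er, ei]
    push_cast
    ring

end Pool.Agent.H74.UC
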