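import Pool.Agent.H74.UC.Defs

/-!
# UC-SIMU: similarities, for the potential
-/

set_option autoImplicit false

open Complex MeasureTheory Set Filter Topology Metric
open scoped ContDiff RealInnerProductSpace ComplexConjugate

namespace Pool.Agent.H74.UC

open Pool.Agent.H74.PH

namespace SIMUa

theorem Psi_der (z0 x0 : ℂ) (c : ℂ) (x : ℂ) :
    HasFDerivAt (fun x : ℂ => z0 + c * (x - x0)) (c • ContinuousLinearMap.id ℝ ℂ) x := by
  have h1 : HasFDerivAt (fun x : ℂ => x - x0) (ContinuousLinearMap.id ℝ ℂ) x :=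
    (hasFDerivAt_id x).sub_const x0
  exact (h1.const_mul c).const_add z0

/-- gradient of a function composed with a similarity -/
theorem grad_comp {u : ℂ → ℝ} (z0 x0 c : ℂ) {x : ℂ}
    (hu : DifferentiableAt ℝ u (z0 + c * (x - x0))) :
    grad (fun x => u (z0 + c * (x - x0))) x = conj c * grad u (z0 + c * (x - x0)) := by
  have h1 := hu.hasFDerivAt.comp x (Psi_der z0 x0 c x)
  have h2 : fderiv ℝ (fun x => u (z0 + c * (x - x0))) x =
      (fderiv ℝ u (z0 + c * (x - x0))).comp (c • ContinuousLinearMap.id ℝ ℂ) := h1.fderiv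
  set L := fderiv ℝ u (z0 + c * (x - x0)) with hL
  have hc : ∀ v : ℂ, L v = v.re * L 1 + v.im * L I := by
    intro v
    have e : v = (v.re : ℝ) • (1 : ℂ) + (v.im : ℝ) • I := by
      apply Complex.ext <;> simp
    conv_lhs => rw [e]
    rw [map_add, map_smul, map_smul, smul_eq_mul, smul_eq_mul]
  have e1 : (L.comp (c • ContinuousLinearMap.id ℝ ℂ)) 1 = c.re * L 1 + c.im * L I := by
    have : (L.comp (c • ContinuousLinearMap.id ℝ ℂ)) 1 = L c := by simp
    rw [this, hc c]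
  have e2 : (L.comp (c • ContinuousLinearMap.id ℝ ℂ)) I = -c.im * L 1 + c.re * L I := by
    have : (L.comp (c • ContinuousLinearMap.id ℝ ℂ)) I = L (c * I) := by simp
    rw [this, hc (c * I)]
    simp
  unfold grad
  rw [h2, e1, e2, ← hL]
  apply Complex.ext
  · simp [mul_re]
  · simp [mul_im]
    ring

theorem A_mul {p : ℝ} (hp : 1 < p) {l : ℝ} (hl : 0 < l) {e : ℂ} (he : ‖e‖ = 1) (ξ : ℂ) :
    A p (l * conj e * ξ) = (l ^ (p - 1) : ℝ) * (conj e * A p ξ) := by
  have hn : ‖(l : ℂ) * conj e * ξ‖ = l * ‖ξ‖ := by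
    rw [norm_mul, norm_mul, norm_real, norm_conj, he, Real.norm_of_nonneg hl.le, mul_one]
  unfold A
  rw [hn, Real.mul_rpow hl.le (norm_nonneg _)]
  have h1 : l ^ (p - 1) = l ^ (p - 2) * l := by
    have : p - 1 = (p - 2) + 1 := by ring
    rw [this, Real.rpow_add hl, Real.rpow_one]
  rw [h1]
  simp only [real_smul]
  push_cast
  ring

theorem inner_rot {e : ℂ} (he : ‖e‖ = 1) (c ρ : ℝ) (a b : ℂ) :
    ⟪(c : ℂ) * (conj e * a), (ρ : ℂ) * (conj e * b)⟫ = c * ρ * ⟪a, b⟫ := by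
  have h1 : e.re * e.re + e.im * e.im = 1 := by
    have := Complex.sq_norm e
    rw [he, normSq_apply] at this
    linarith
  rw [Complex.inner, Complex.inner]
  simp only [map_mul, mul_re, mul_im, conj_re, conj_im, conj_ofReal, ofReal_re, ofReal_im]
  have h2 : e.im * e.im = 1 - e.re * e.re := by linarith
  linear_combination (c * ρ * (a.re * b.re + a.im * b.im)) * h1

/-- the change of variables -/
theorem integral_sim (f : ℂ → ℝ) (z0 x0 e : ℂ) {ρ : ℝ} (hρ : 0 < ρ) (he : ‖e‖ = 1)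
    (hf : ∫ y, f y = 0) : ∫ x, f (z0 + ρ * e * (x - x0)) = 0 := by
  have h1 : ∫ x, f (z0 + ρ * e * (x - x0)) = ∫ x, f (z0 + ρ * e * x) :=
    integral_sub_right_eq_self (fun x => f (z0 + ρ * e * x)) x0
  rw [h1]
  have hec : e ∈ Submonoid.unitSphere ℂ := by
    simp [Submonoid.unitSphere, he]
  let E : ℂ ≃ₗᵢ[ℝ] ℂ := rotation ⟨e, hec⟩
  have hE : ∀ x, E x = e * x := fun x => rfl
  have h2 : ∫ x, f (z0 + ρ * e * x) = ∫ x, f (z0 + (ρ : ℝ) • E x) := by
    congr 1
    funext x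
    rw [hE, real_smul, mul_assoc]
  rw [h2]
  have h3 : ∫ x, f (z0 + (ρ : ℝ) • E x) = ∫ x, f (z0 + (ρ : ℝ) • x) :=
    E.measurePreserving.integral_comp E.toHomeomorph.measurableEmbedding
      (fun x => f (z0 + (ρ : ℝ) • x))
  rw [h3]
  have h4 := Measure.integral_comp_smul (volume : Measure ℂ) (fun x => f (z0 + x)) ρ
  rw [h4, integral_add_left_eq_self f z0, hf, smul_zero]

end SIMUa

open SIMUa

/-- UC-SIMU: similarities, for the potential. -/
theorem sim_harm {p : ℝ} (hp : 1 < p) {Ω : Set ℂ} (hΩ : IsOpen Ω) {u : ℂ → ℝ}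
    (hu : IsPHarmonicOn p Ω u) (z0 x0 e : ℂ) {ρ l : ℝ} (hρ : 0 < ρ) (hl : 0 < l) (he : ‖e‖ = 1) :
    IsPHarmonicOn p {x | z0 + ρ * e * (x - x0) ∈ Ω}
      (fun x => l / ρ * u (z0 + ρ * e * (x - x0))) ∧
    ∀ x, z0 + ρ * e * (x - x0) ∈ Ω → grad (fun x => l / ρ * u (z0 + ρ * e * (x - x0))) x =
      l * conj e * grad u (z0 + ρ * e * (x - x0)) := by
  have hρC : (ρ : ℂ) ≠ 0 := by exact_mod_cast hρ.ne'
  have hee : e * conj e = 1 := by
    rw [mul_conj, normSq_eq_norm_sq, he]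
    norm_num
  have hcd : ContDiffOn ℝ 1 (fun x => l / ρ * u (z0 + ρ * e * (x - x0)))
      {x | z0 + ρ * e * (x - x0) ∈ Ω} := by
    refine contDiffOn_const.mul ?_
    have h1 : ContDiff ℝ 1 (fun x : ℂ => z0 + ρ * e * (x - x0)) := by fun_prop
    exact hu.contDiff.comp h1.contDiffOn (fun x hx => hx)
  have hgrad : ∀ x, z0 + ρ * e * (x - x0) ∈ Ω →
      grad (fun x => l / ρ * u (z0 + ρ * e * (x - x0))) x =
      l * conj e * grad u (z0 + ρ * e * (x - x0)) := by
    intro x hx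
    have hd : DifferentiableAt ℝ u (z0 + ρ * e * (x - x0)) :=
      (hu.contDiff.contDiffAt (hΩ.mem_nhds hx)).differentiableAt (by norm_num)
    have hd2 : DifferentiableAt ℝ (fun x : ℂ => u (z0 + ρ * e * (x - x0))) x :=
      hd.comp x (Psi_der z0 x0 (ρ * e) x).differentiableAt
    have h1 := grad_comp z0 x0 (ρ * e) hd
    have h2 : grad (fun x => l / ρ * u (z0 + ρ * e * (x - x0))) x =
        (l / ρ : ℝ) * grad (fun x => u (z0 + ρ * e * (x - x0))) x := by
      unfold grad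
      have h3 : fderiv ℝ (fun x => l / ρ * u (z0 + ρ * e * (x - x0))) x =
          (l / ρ) • fderiv ℝ (fun x => u (z0 + ρ * e * (x - x0))) x :=
        fderiv_const_mul hd2 (l / ρ)
      rw [h3]
      apply Complex.ext
      · rw [re_ofReal_mul]
        rfl
      · rw [im_ofReal_mul]
        rfl
    rw [h2, h1, map_mul, conj_ofReal]
    push_cast
    field_simp
  refine ⟨⟨hcd, ?_⟩, hgrad⟩
  intro φ hφ hc hs
  let Φ : ℂ → ℂ := fun y => x0 + conj e / ρ * (y - z0)
  have hΦΨ : ∀ x, Φ (z0 + ρ * e * (x - x0)) = x := by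
    intro x
    simp only [Φ]
    have : conj e / (ρ : ℂ) * (z0 + ρ * e * (x - x0) - z0) = (e * conj e) * (x - x0) := by
      field_simp
      ring
    rw [this, hee]
    ring
  have hΨΦ : ∀ y, z0 + ρ * e * (Φ y - x0) = y := by
    intro y
    simp only [Φ]
    have : (ρ : ℂ) * e * (x0 + conj e / ρ * (y - z0) - x0) = (e * conj e) * (y - z0) := by
      field_simp
      ring
    rw [this, hee]
    ring
  have hΦc : Continuous Φ := by fun_prop
  have hψ : ContDiff ℝ ∞ (φ ∘ Φ) := hφ.comp (by fun_prop)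
  have hψc : HasCompactSupport (φ ∘ Φ) := by
    refine HasCompactSupport.intro (K := (fun x : ℂ => z0 + ρ * e * (x - x0)) '' tsupport φ)
      (hc.isCompact.image (by fun_prop)) ?_
    intro y hy
    by_contra hne
    apply hy
    exact ⟨Φ y, subset_tsupport _ hne, hΨΦ y⟩
  have hψs : tsupport (φ ∘ Φ) ⊆ Ω := by
    intro y hy
    have h1 := tsupport_comp_subset_preimage φ hΦc hy
    have h2 := hs h1
    change z0 + ρ * e * (Φ y - x0) ∈ Ω at h2
    rwa [hΨΦ] at h2
  have h0 := hu.weak (φ ∘ Φ) hψ hψc hψs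
  have h1 := integral_sim _ z0 x0 e hρ he h0
  have hφe : φ = fun x => (φ ∘ Φ) (z0 + ρ * e * (x - x0)) := by
    funext x
    simp only [Function.comp]
    rw [hΦΨ]
  have h2 : ∀ x, ⟪A p (grad (fun x => l / ρ * u (z0 + ρ * e * (x - x0))) x), grad φ x⟫ =
      (l ^ (p - 1) * ρ) * ⟪A p (grad u (z0 + ρ * e * (x - x0))),
        grad (φ ∘ Φ) (z0 + ρ * e * (x - x0))⟫ := by
    intro x
    have hgφ : grad φ x = (ρ : ℂ) * (conj e * grad (φ ∘ Φ) (z0 + ρ * e * (x - x0))) := by
      have h3 := grad_comp (u := φ ∘ Φ) z0 x0 (ρ * e) (x := x)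
        ((hψ.differentiable (by norm_num)) _)
      rw [← hφe] at h3
      rw [h3, map_mul, conj_ofReal]
      ring
    by_cases hx : z0 + ρ * e * (x - x0) ∈ Ω
    · rw [hgrad x hx, hgφ, A_mul hp hl he, inner_rot he]
    · have h4 : grad (φ ∘ Φ) (z0 + ρ * e * (x - x0)) = 0 := by
        have h5 : z0 + ρ * e * (x - x0) ∉ tsupport (φ ∘ Φ) := fun h => hx (hψs h)
        have h6 : fderiv ℝ (φ ∘ Φ) (z0 + ρ * e * (x - x0)) = 0 := by
          have h7 : z0 + ρ * e * (x - x0) ∉ tsupport (fderiv ℝ (φ ∘ Φ)) := fun h =>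
            h5 (tsupport_fderiv_subset ℝ h)
          exact image_eq_zero_of_notMem_tsupport h7
        unfold grad
        rw [h6]
        rfl
      rw [hgφ, h4]
      simp
  simp only [h2]
  rw [integral_const_mul, h1, mul_zero]

end Pool.Agent.H74.UC
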