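import Pool.Agent.H74.UC.Defs

/-!
Project UC, stub T2: a component of `{W > 0}` or `{W < 0}` in `D` reaches the frontier of `D`.
-/

set_option autoImplicit false

open Complex MeasureTheory Set Filter Topology Metric
open scoped ContDiff RealInnerProductSpace ComplexConjugate

namespace Pool.Agent.H74.UC

open Pool.Agent.H74.PH

/-- UC-T2: a component of `{W > 0}` or `{W < 0}` in `D` reaches the frontier of `D`. -/
theorem joined_frontier {D : Set ℂ} (hD : IsCompact D) (hc : Convex ℝ D) {W : ℂ → ℝ}
    (hW : ContinuousOn W D)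
    (hcomp : ∀ (O : Set ℂ) (s : ℝ), IsOpen O → O.Nonempty → closure O ⊆ D → (s = 1 ∨ s = -1) →
      (∀ z ∈ O, 0 < s * W z) → (∀ z ∈ frontier O, W z = 0) → False) :
    ∀ x ∈ D, W x ≠ 0 → ∃ y ∈ frontier D, JoinedIn {z | z ∈ D ∧ 0 < W x * W z} x y := by
  intro x hx hWx
  by_contra hcon
  push Not at hcon
  have hDcl : IsClosed D := hD.isClosed
  have hxP : 0 < W x * W x := mul_self_pos.mpr hWx
  have hxi : x ∈ interior D := by
    by_contra hxn
    have hxf : x ∈ frontier D := by
      rw [hDcl.frontier_eq]
      exact ⟨hx, hxn⟩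
    exact hcon x hxf (JoinedIn.refl ⟨hx, hxP⟩)
  set P0 : Set ℂ := {z | z ∈ interior D ∧ 0 < W x * W z} with hP0
  have hP0o : IsOpen P0 := by
    have h1 : ContinuousOn (fun z => W x * W z) (interior D) :=
      continuousOn_const.mul (hW.mono interior_subset)
    exact h1.isOpen_inter_preimage isOpen_interior isOpen_Ioi
  have hxP0 : x ∈ P0 := ⟨hxi, hxP⟩
  set O : Set ℂ := pathComponentIn P0 x with hO
  have hOo : IsOpen O := hP0o.pathComponentIn x
  have hOne : O.Nonempty := ⟨x, mem_pathComponentIn_self hxP0⟩
  have hOP : O ⊆ P0 := pathComponentIn_subset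
  have hOcl : closure O ⊆ D :=
    closure_minimal (fun z hz => interior_subset (hOP hz).1) hDcl
  have hPP : P0 ⊆ {z | z ∈ D ∧ 0 < W x * W z} := fun z hz => ⟨interior_subset hz.1, hz.2⟩
  have hfr : ∀ z ∈ frontier O, W z = 0 := by
    intro z hz
    by_contra hne
    have hzcl : z ∈ closure O := frontier_subset_closure hz
    have hzD : z ∈ D := hOcl hzcl
    have hcwa : ContinuousWithinAt (fun z => W x * W z) D z :=
      (continuousOn_const.mul hW) z hzD
    -- nonnegative at `z`
    have hge : 0 ≤ W x * W z := by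
      by_contra hlt
      push Not at hlt
      have h1 : ∀ᶠ y in 𝓝[D] z, W x * W y < 0 := hcwa.eventually_lt_const hlt
      rw [eventually_nhdsWithin_iff] at h1
      obtain ⟨y, hy1, hy2⟩ := (mem_closure_iff_frequently.mp hzcl).and_eventually h1 |>.exists
      have := hy2 (interior_subset (hOP hy1).1)
      linarith [(hOP hy1).2]
    have hpos : 0 < W x * W z := lt_of_le_of_ne hge (mul_ne_zero hWx hne).symm
    have h1 : ∀ᶠ y in 𝓝[D] z, 0 < W x * W y := hcwa.eventually_const_lt hpos
    rw [eventually_nhdsWithin_iff, Metric.eventually_nhds_iff_ball] at h1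
    obtain ⟨r, hr, hball⟩ := h1
    obtain ⟨y, hyO, hyr⟩ := Metric.mem_closure_iff.mp hzcl r hr
    have hyb : y ∈ ball z r := by rwa [mem_ball, dist_comm]
    by_cases hzi : z ∈ interior D
    · have hseg : segment ℝ y z ⊆ P0 := by
        intro p hp
        have hp1 : p ∈ ball z r :=
          (convex_ball z r).segment_subset hyb (mem_ball_self hr) hp
        have hp2 : p ∈ interior D := hc.interior.segment_subset (hOP hyO).1 hzi hp
        exact ⟨hp2, hball p hp1 (interior_subset hp2)⟩
      have hzO : z ∈ O := (show JoinedIn P0 x y from hyO).trans (JoinedIn.of_segment_subset hseg)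
      rw [hOo.frontier_eq] at hz
      exact hz.2 hzO
    · have hzf : z ∈ frontier D := by
        rw [hDcl.frontier_eq]
        exact ⟨hzD, hzi⟩
      have hyD : y ∈ D := interior_subset (hOP hyO).1
      have hseg : segment ℝ y z ⊆ {z | z ∈ D ∧ 0 < W x * W z} := by
        intro p hp
        have hp1 : p ∈ ball z r :=
          (convex_ball z r).segment_subset hyb (mem_ball_self hr) hp
        have hp2 : p ∈ D := hc.segment_subset hyD hzD hp
        exact ⟨hp2, hball p hp1 hp2⟩
      exact hcon z hzf (((show JoinedIn P0 x y from hyO).mono hPP).trans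
        (JoinedIn.of_segment_subset hseg))
  rcases lt_or_gt_of_ne hWx with hneg | hpos
  · refine hcomp O (-1) hOo hOne hOcl (Or.inr rfl) (fun z hz => ?_) hfr
    have := (hOP hz).2
    have h2 : W z < 0 := by
      by_contra hc
      push Not at hc
      have := mul_nonpos_of_nonpos_of_nonneg hneg.le hc
      linarith
    linarith
  · refine hcomp O 1 hOo hOne hOcl (Or.inl rfl) (fun z hz => ?_) hfr
    have := (hOP hz).2
    rw [one_mul]
    exact (mul_pos_iff_of_pos_left hpos).mp this

end Pool.Agent.H74.UC
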