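import Pool.Agent.H74.UC.Defs

/-!
# UC-TEST: the weak form extends to `C¹` test functions
-/

set_option autoImplicit false

open Complex MeasureTheory Set Filter Topology Metric
open scoped ContDiff RealInnerProductSpace ComplexConjugate Convolution

namespace Pool.Agent.H74.UC

open Pool.Agent.H74.PH

namespace TESTx

theorem A_cont {p : ℝ} (hp : 1 < p) : Continuous (A p) := by
  rw [continuous_iff_continuousAt]
  intro ξ
  by_cases h : ξ = 0
  · subst h
    have h1 : A p 0 = 0 := by simp [A]
    rw [ContinuousAt, h1]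
    rw [tendsto_zero_iff_norm_tendsto_zero]
    have h2 : ∀ ξ : ℂ, ‖A p ξ‖ = ‖ξ‖ ^ (p - 1) := by
      intro ξ
      unfold A
      rw [norm_smul, Real.norm_eq_abs, abs_of_nonneg (Real.rpow_nonneg (norm_nonneg _) _)]
      rcases (norm_nonneg ξ).eq_or_lt with h0 | h0
      · rw [← h0, mul_zero, Real.zero_rpow (by linarith)]
      · rw [show p - 1 = (p - 2) + 1 by ring, Real.rpow_add h0, Real.rpow_one]
    simp only [h2]
    have h3 : Continuous fun ξ : ℂ => ‖ξ‖ ^ (p - 1) :=
      continuous_norm.rpow_const fun x => Or.inr (by linarith)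
    have h4 := h3.tendsto 0
    simpa [Real.zero_rpow (show p - 1 ≠ 0 by linarith)] using h4
  · have h0 : ‖ξ‖ ≠ 0 := norm_ne_zero_iff.2 h
    exact (continuous_norm.continuousAt.rpow_const (Or.inl h0)).smul continuousAt_id

theorem grad_cont {Ω : Set ℂ} (hΩ : IsOpen Ω) {u : ℂ → ℝ} (hu : ContDiffOn ℝ 1 u Ω) :
    ContinuousOn (grad u) Ω := by
  have h1 : ContinuousOn (fderiv ℝ u) Ω := hu.continuousOn_fderiv_of_isOpen hΩ le_rfl
  have h2 : grad u = fun z => ((fderiv ℝ u z 1 : ℝ) : ℂ) + ((fderiv ℝ u z I : ℝ) : ℂ) * I := by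
    funext z
    apply Complex.ext <;> simp [grad]
  rw [h2]
  exact (continuous_ofReal.comp_continuousOn (h1.clm_apply continuousOn_const)).add
    ((continuous_ofReal.comp_continuousOn (h1.clm_apply continuousOn_const)).mul continuousOn_const)

theorem grad_sub_le (f g : ℂ → ℝ) (z : ℂ) :
    ‖grad f z - grad g z‖ ≤ 2 * ‖fderiv ℝ f z - fderiv ℝ g z‖ := by
  refine (Complex.norm_le_abs_re_add_abs_im _).trans ?_
  have h1 : |(grad f z - grad g z).re| ≤ ‖fderiv ℝ f z - fderiv ℝ g z‖ := by
    have := (fderiv ℝ f z - fderiv ℝ g z).le_opNorm 1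
    simpa [grad] using this
  have h2 : |(grad f z - grad g z).im| ≤ ‖fderiv ℝ f z - fderiv ℝ g z‖ := by
    have := (fderiv ℝ f z - fderiv ℝ g z).le_opNorm I
    simpa [grad] using this
  linarith

theorem grad_zero_of {f : ℂ → ℝ} {z : ℂ} (h : z ∉ tsupport f) : grad f z = 0 := by
  have h1 : fderiv ℝ f z = 0 := by
    have := (tsupport_fderiv_subset ℝ (f := f))
    by_contra h0
    exact h (this (subset_tsupport _ h0))
  apply Complex.ext <;> simp [grad, h1]

end TESTx

open TESTx

/-- UC-TEST: the weak form extends to `C¹` test functions (mollify `φ`). -/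
theorem test_C1 {p : ℝ} (hp : 1 < p) {Ω : Set ℂ} (hΩ : IsOpen Ω) {u : ℂ → ℝ}
    (hu : IsPHarmonicOn p Ω u) {φ : ℂ → ℝ} (hφ : ContDiff ℝ 1 φ) (hc : HasCompactSupport φ)
    (hs : tsupport φ ⊆ Ω) : ∫ z, ⟪A p (grad u z), grad φ z⟫ = 0 := by
  obtain ⟨δ0, hδ0, hδΩ⟩ := IsCompact.exists_cthickening_subset_open hc hΩ hs
  have hK : IsCompact (cthickening δ0 (tsupport φ)) := hc.cthickening
  have hKm : MeasurableSet (cthickening δ0 (tsupport φ)) := hK.measurableSet
  have hFc : ContinuousOn (fun z => A p (grad u z)) (cthickening δ0 (tsupport φ)) :=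
    (A_cont hp).comp_continuousOn ((grad_cont hΩ hu.contDiff).mono hδΩ)
  obtain ⟨M, hM⟩ := hK.exists_bound_of_continuousOn hFc
  have hM0 : 0 ≤ |M| := abs_nonneg M
  have hgc : ∀ f : ℂ → ℝ, ContDiff ℝ 1 f →
      IntegrableOn (fun z => ⟪A p (grad u z), grad f z⟫) (cthickening δ0 (tsupport φ)) := by
    intro f hf
    refine ContinuousOn.integrableOn_compact hK ?_
    exact hFc.inner ((grad_cont isOpen_univ hf.contDiffOn).mono (subset_univ _))
  have hset : ∀ f : ℂ → ℝ, tsupport f ⊆ cthickening δ0 (tsupport φ) →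
      ∫ z in cthickening δ0 (tsupport φ), ⟪A p (grad u z), grad f z⟫ =
        ∫ z, ⟪A p (grad u z), grad f z⟫ := by
    intro f hf
    apply setIntegral_eq_integral_of_forall_compl_eq_zero
    intro z hz
    rw [grad_zero_of fun h => hz (hf h), inner_zero_right]
  -- uniform continuity of the derivative
  have huc : UniformContinuous (fderiv ℝ φ) :=
    (hc.fderiv ℝ).uniformContinuous_of_continuous (hφ.continuous_fderiv one_ne_zero)
  have key : ∀ ε : ℝ, 0 < ε → |∫ z, ⟪A p (grad u z), grad φ z⟫| ≤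
      |M| * (2 * ε) * volume.real (cthickening δ0 (tsupport φ)) := by
    intro ε hε
    obtain ⟨δ1, hδ1, h1⟩ := Metric.uniformContinuous_iff.1 huc ε hε
    have hmin : 0 < min δ0 δ1 := lt_min hδ0 hδ1
    let b : ContDiffBump (0 : ℂ) := ⟨min δ0 δ1 / 2, min δ0 δ1, by linarith, by linarith⟩
    have hb : b.rOut = min δ0 δ1 := rfl
    obtain ⟨ψ, hψ⟩ : ∃ ψ : ℂ → ℝ, ψ = (b.normed volume ⋆[ContinuousLinearMap.lsmul ℝ ℝ, volume] φ) :=
      ⟨_, rfl⟩
    have c1 : ContDiff ℝ ∞ ψ := by
      rw [hψ]
      exact b.hasCompactSupport_normed.contDiff_convolution_left (n := ⊤)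
        (ContinuousLinearMap.lsmul ℝ ℝ) b.contDiff_normed hφ.continuous.locallyIntegrable
    have hsup : tsupport ψ ⊆ cthickening δ0 (tsupport φ) := by
      refine closure_minimal ?_ isClosed_cthickening
      intro x hx
      by_contra hn
      apply hx
      rw [hψ]
      show ∫ t, (ContinuousLinearMap.lsmul ℝ ℝ (b.normed volume t)) (φ (x - t)) = 0
      rw [← integral_zero ℂ ℝ (μ := volume)]
      congr 1
      funext t
      by_cases ht : t ∈ ball (0 : ℂ) b.rOut
      · have h2 : φ (x - t) = 0 := by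
          by_contra h0
          apply hn
          refine mem_cthickening_of_dist_le x (x - t) δ0 _ (subset_tsupport _ h0) ?_
          rw [dist_eq_norm]
          have : x - (x - t) = t := by ring
          rw [this]
          rw [mem_ball_zero_iff, hb] at ht
          exact ht.le.trans (min_le_left _ _)
        rw [h2, map_zero]
      · have h2 : b.normed volume t = 0 := by
          by_contra h0
          apply ht
          rw [← b.support_normed_eq (μ := volume)]
          exact h0
        rw [h2]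
        simp
    have hcψ : HasCompactSupport ψ := HasCompactSupport.of_support_subset_isCompact hK
      ((subset_tsupport _).trans hsup)
    have hpre : ((ContinuousLinearMap.lsmul ℝ ℝ : ℝ →L[ℝ] ℝ →L[ℝ] ℝ).precompR ℂ) =
        (ContinuousLinearMap.lsmul ℝ ℝ : ℝ →L[ℝ] (ℂ →L[ℝ] ℝ) →L[ℝ] (ℂ →L[ℝ] ℝ)) := by
      ext
      simp
    have hd : ∀ x, dist (fderiv ℝ ψ x) (fderiv ℝ φ x) ≤ ε := by
      intro x
      have h2 := hc.hasFDerivAt_convolution_right (μ := volume) (ContinuousLinearMap.lsmul ℝ ℝ)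
        (f := b.normed volume) b.continuous_normed.locallyIntegrable hφ x
      rw [hpre, ← hψ] at h2
      rw [h2.fderiv]
      refine b.dist_normed_convolution_le
        (hφ.continuous_fderiv one_ne_zero).aestronglyMeasurable fun y hy => ?_
      refine (h1 ?_).le
      rw [mem_ball, hb] at hy
      exact hy.trans_le (min_le_right _ _)
    have h0 : ∫ z, ⟪A p (grad u z), grad ψ z⟫ = 0 := hu.weak ψ c1 hcψ (hsup.trans hδΩ)
    have hcl : tsupport φ ⊆ cthickening δ0 (tsupport φ) := self_subset_cthickening _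
    rw [← sub_zero (∫ z, ⟪A p (grad u z), grad φ z⟫), ← h0, ← hset φ hcl, ← hset ψ hsup,
      ← integral_sub (hgc φ hφ) (hgc ψ (c1.of_le (by exact_mod_cast le_top)))]
    rw [← Real.norm_eq_abs]
    refine norm_setIntegral_le_of_norm_le_const hK.measure_lt_top ?_
    intro z hz
    rw [← inner_sub_right]
    refine (norm_inner_le_norm _ _).trans ?_
    refine mul_le_mul ((hM z hz).trans (le_abs_self M)) ?_ (norm_nonneg _) hM0
    refine (grad_sub_le φ ψ z).trans ?_
    have h3 := hd z
    rw [dist_comm, dist_eq_norm] at h3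
    linarith
  have hfin : |∫ z, ⟪A p (grad u z), grad φ z⟫| ≤ 0 := by
    refine le_of_forall_pos_le_add fun η hη => ?_
    have hpos : 0 < |M| * 2 * volume.real (cthickening δ0 (tsupport φ)) + 1 := by positivity
    have h1 := key (η / (|M| * 2 * volume.real (cthickening δ0 (tsupport φ)) + 1)) (by positivity)
    refine h1.trans ?_
    rw [zero_add]
    have h2 : |M| * (2 * (η / (|M| * 2 * volume.real (cthickening δ0 (tsupport φ)) + 1))) *
        volume.real (cthickening δ0 (tsupport φ)) =
        (|M| * 2 * volume.real (cthickening δ0 (tsupport φ))) * η /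
          (|M| * 2 * volume.real (cthickening δ0 (tsupport φ)) + 1) := by ring
    rw [h2, div_le_iff₀ hpos]
    nlinarith
  exact abs_eq_zero.1 (le_antisymm hfin (abs_nonneg _))

end Pool.Agent.H74.UC
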