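import Pool.Agent.H74.UC.Defs
import Pool.Agent.H74.PH.SIG
import Pool.Agent.H74.PH.LIPSEG

/-! # Project UC, stub UC-VC1 -/

set_option autoImplicit false

open Complex MeasureTheory Set Filter Topology Metric
open scoped ContDiff RealInnerProductSpace ComplexConjugate

namespace Pool.Agent.H74.UC

open Pool.Agent.H74.PH

namespace VC1

theorem norm_V {K : ℝ} (hK : 0 < K) (ξ : ℂ) : ‖V (K + 1) ξ‖ = ‖ξ‖ ^ ((K + 1) / 2) := by
  unfold V
  rcases eq_or_ne ξ 0 with h | h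
  · rw [h, smul_zero, norm_zero, Real.zero_rpow (by positivity)]
  · have hn : 0 < ‖ξ‖ := norm_pos_iff.2 h
    rw [norm_smul, Real.norm_eq_abs, abs_of_pos (Real.rpow_pos_of_pos hn _)]
    nth_rewrite 2 [← Real.rpow_one ‖ξ‖]
    rw [← Real.rpow_add hn]
    congr 1
    ring

theorem V_contAt {K : ℝ} (hK : 0 < K) (ξ : ℂ) : ContinuousAt (V (K + 1)) ξ := by
  rcases eq_or_ne ξ 0 with h | h
  · subst h
    rw [ContinuousAt]
    have h0 : V (K + 1) 0 = 0 := by unfold V; rw [smul_zero]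
    rw [h0, tendsto_zero_iff_norm_tendsto_zero]
    have h1 : (fun x : ℂ => ‖V (K + 1) x‖) = fun x => ‖x‖ ^ ((K + 1) / 2) := by
      funext x; exact norm_V hK x
    rw [h1]
    have h2 : ContinuousAt (fun x : ℂ => ‖x‖ ^ ((K + 1) / 2)) 0 :=
      continuousAt_id.norm.rpow_const (Or.inr (by positivity))
    have h3 := h2.tendsto
    simp only [norm_zero] at h3
    rwa [Real.zero_rpow (by positivity)] at h3
  · unfold V
    exact (continuousAt_id.norm.rpow_const (Or.inl (norm_ne_zero_iff.2 h))).smul continuousAt_id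

end VC1

/-- UC-VC1: regularity of `V g` from the bound for `Q`. -/
theorem V_C1 {K a : ℝ} (hK : 0 < K) (ha : 0 < a) (haK : a < (K + 1) / 2) {Ω : Set ℂ} {g : ℂ → ℂ}
    (hg : PGrad K Ω g)
    (hloc : ∀ z0 ∈ Ω, g z0 = 0 → ∃ r L : ℝ, 0 < r ∧ ball z0 r ⊆ Ω ∧ ∀ z ∈ ball z0 r,
      g z ≠ 0 → Q a g z ≤ L) :
    ContDiffOn ℝ 1 (fun z => V (K + 1) (g z)) Ω := by
  obtain ⟨C, hC, hB⟩ := sig_bounds hK
  set F : ℂ → ℂ := fun z => V (K + 1) (g z) with hF
  have hFz : ∀ z, F z = 0 ↔ g z = 0 := by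
    intro z
    rw [← norm_eq_zero, hF]
    simp only
    rw [VC1.norm_V hK, Real.rpow_eq_zero (norm_nonneg _) (by positivity), norm_eq_zero]
  have hFc : ContinuousOn F Ω := by
    intro z hz
    exact (VC1.V_contAt hK (g z)).comp_continuousWithinAt (hg.cont z hz)
  have hgc : ∀ z ∈ Ω, ContinuousAt g z := fun z hz => hg.cont.continuousAt (hg.isOpen.mem_nhds hz)
  -- smoothness off the zeros
  have hsm : ∀ z ∈ Ω, g z ≠ 0 → ContDiffAt ℝ 3 F z := by
    intro z hz h0
    have h1 := hg.smooth z hz h0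
    have h2 : ContDiffAt ℝ 3 (fun x => ‖g x‖) z := h1.norm ℝ h0
    exact (h2.rpow_const_of_ne (norm_ne_zero_iff.2 h0)).smul h1
  obtain ⟨e, he⟩ : ∃ e : ℝ, e = (K + 1) / 2 - a := ⟨_, rfl⟩
  have he0 : 0 < e := by rw [he]; linarith
  -- the bound
  have hbd : ∀ z ∈ Ω, g z ≠ 0 → ‖fderiv ℝ F z‖ ≤ C * (‖g z‖ ^ e * Q a g z) := by
    intro z hz h0
    refine (hB Ω g hg z hz h0).2.2.trans (le_of_eq ?_)
    have hn : 0 < ‖g z‖ := norm_pos_iff.2 h0
    unfold sig Q
    rw [← mul_assoc (‖g z‖ ^ e), ← Real.rpow_add hn]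
    congr 3
    rw [he]
    ring
  -- local bound near zeros
  have hzero : ∀ z0 ∈ Ω, g z0 = 0 → ∀ ε : ℝ, 0 < ε → ∃ r : ℝ, 0 < r ∧ ball z0 r ⊆ Ω ∧
      (∀ z ∈ ball z0 r, g z ≠ 0 → ‖fderiv ℝ F z‖ ≤ ε) := by
    intro z0 hz0 h0 ε hε
    obtain ⟨r, L, hr, hrΩ, hL⟩ := hloc z0 hz0 h0
    have hc : ContinuousAt (fun z => C * (‖g z‖ ^ e * (|L| + 1))) z0 := by
      refine ContinuousAt.mul continuousAt_const (ContinuousAt.mul ?_ continuousAt_const)
      exact (hgc z0 hz0).norm.rpow_const (Or.inr he0.le)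
    have hval : C * (‖g z0‖ ^ e * (|L| + 1)) = 0 := by
      rw [h0, norm_zero, Real.zero_rpow he0.ne']; ring
    have hev : ∀ᶠ z in 𝓝 z0, C * (‖g z‖ ^ e * (|L| + 1)) < ε := by
      have := hc.tendsto
      rw [hval] at this
      exact this.eventually (gt_mem_nhds hε)
    obtain ⟨r', hr', hr2⟩ := Metric.eventually_nhds_iff_ball.1 hev
    refine ⟨min r r', lt_min hr hr', (ball_subset_ball (min_le_left _ _)).trans hrΩ, ?_⟩
    intro z hz hgz
    have h1 := hL z (ball_subset_ball (min_le_left _ _) hz) hgz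
    have h2 := hr2 z (ball_subset_ball (min_le_right _ _) hz)
    refine (hbd z (hrΩ (ball_subset_ball (min_le_left _ _) hz)) hgz).trans ?_
    refine le_trans ?_ h2.le
    refine mul_le_mul_of_nonneg_left ?_ hC.le
    refine mul_le_mul_of_nonneg_left ?_ (Real.rpow_nonneg (norm_nonneg _) _)
    linarith [le_abs_self L]
  have hderiv0 : ∀ z0 ∈ Ω, g z0 = 0 → HasFDerivAt F (0 : ℂ →L[ℝ] ℂ) z0 := by
    intro z0 hz0 h0
    rw [hasFDerivAt_iff_isLittleO, Asymptotics.isLittleO_iff]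
    intro ε hε
    obtain ⟨r, hr, hrΩ, hb⟩ := hzero z0 hz0 h0 ε hε
    filter_upwards [ball_mem_nhds z0 hr] with x hx
    have := lip_seg (F := F) (s := ball z0 r) (convex_ball _ _) isOpen_ball (hFc.mono hrΩ) hε.le
      (fun z hz hne => ⟨(hsm z (hrΩ hz) (fun h => hne ((hFz z).2 h))).differentiableAt (by norm_num),
        hb z hz (fun h => hne ((hFz z).2 h))⟩) hx (mem_ball_self hr)
    simpa using this
  have hone : (1 : WithTop ℕ∞) = 0 + 1 := by simp
  rw [hone, contDiffOn_succ_iff_fderiv_of_isOpen hg.isOpen, contDiffOn_zero]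
  refine ⟨?_, by simp, ?_⟩
  · intro z hz
    by_cases h0 : g z = 0
    · exact (hderiv0 z hz h0).differentiableAt.differentiableWithinAt
    · exact ((hsm z hz h0).differentiableAt (by norm_num)).differentiableWithinAt
  · intro z hz
    by_cases h0 : g z = 0
    · refine ContinuousAt.continuousWithinAt ?_
      rw [ContinuousAt, (hderiv0 z hz h0).fderiv, tendsto_zero_iff_norm_tendsto_zero,
        Metric.tendsto_nhds]
      intro ε hε
      obtain ⟨r, hr, hrΩ, hb⟩ := hzero z hz h0 (ε / 2) (by positivity)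
      filter_upwards [ball_mem_nhds z hr] with x hx
      rw [Real.dist_0_eq_abs, abs_of_nonneg (norm_nonneg _)]
      by_cases hx0 : g x = 0
      · rw [(hderiv0 x (hrΩ hx) hx0).fderiv, norm_zero]; exact hε
      · exact (hb x hx hx0).trans_lt (by linarith)
    · have h1 : ContDiffAt ℝ 2 (fderiv ℝ F) z :=
        (hsm z hz h0).fderiv_right (m := 2) (by norm_num)
      exact h1.continuousAt.continuousWithinAt

end Pool.Agent.H74.UC
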