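import Pool.Agent.H74.UC.Defs

/-!
UC-WIND: a closed curve which does not separate `b` from a far point has a closed logarithm
about `b`.
-/

set_option autoImplicit false

open Complex MeasureTheory Set Filter Topology Metric
open scoped ContDiff RealInnerProductSpace ComplexConjugate

namespace Pool.Agent.H74.UC

open Pool.Agent.H74.PH

theorem wind {γ : ℝ → ℂ} (hγ : ContinuousOn γ (Icc 0 1)) (hcl : γ 0 = γ 1) {b p : ℂ}
    (hj : JoinedIn (γ '' Icc 0 1)ᶜ b p) (hfar : ∀ t ∈ Icc (0 : ℝ) 1, ‖γ t‖ < ‖p‖) :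
    ∃ l : ℝ → ℂ, ContinuousOn l (Icc 0 1) ∧ (∀ t ∈ Icc (0 : ℝ) 1, exp (l t) = γ t - b) ∧
      l 0 = l 1 := by
  obtain ⟨β, hβ⟩ := hj.symm
  have h0mem : (0 : ℝ) ∈ Icc (0 : ℝ) 1 := ⟨le_refl _, zero_le_one⟩
  have h1mem : (1 : ℝ) ∈ Icc (0 : ℝ) 1 := ⟨zero_le_one, le_refl _⟩
  have hp : p ≠ 0 := by
    intro hp
    have := hfar 0 h0mem
    rw [hp, norm_zero] at this
    exact absurd this (not_lt.2 (norm_nonneg _))
  let g : C(unitInterval, ℂ) := ⟨fun t => γ t, hγ.restrict⟩
  have hg : ∀ t : unitInterval, g t = γ t := fun t => rfl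
  have hne : ∀ s t : unitInterval, g t - β s ≠ 0 := by
    intro s t h
    exact hβ s ⟨t, t.2, sub_eq_zero.1 h⟩
  let H : C(unitInterval × unitInterval, {z : ℂ // z ≠ 0}) :=
    ⟨fun x => ⟨g x.2 - β x.1, hne _ _⟩, by
      apply Continuous.subtype_mk
      exact (g.continuous.comp continuous_snd).sub (β.continuous.comp continuous_fst)⟩
  have hslit : ∀ t : unitInterval, 1 - g t / p ∈ slitPlane := by
    intro t
    left
    have h1 : ‖g t / p‖ < 1 := by
      rw [norm_div, div_lt_one (norm_pos_iff.2 hp)]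
      exact hfar t t.2
    have h2 : (g t / p).re ≤ ‖g t / p‖ := re_le_norm _
    simp only [sub_re, one_re]
    linarith
  let f : C(unitInterval, ℂ) := ⟨fun t => log (-p) + log (1 - g t / p), by
    apply Continuous.add continuous_const
    apply Continuous.clog _ hslit
    exact continuous_const.sub (g.continuous.div_const p)⟩
  have hf : ∀ t, exp (f t) = g t - p := by
    intro t
    have h1 : exp (f t) = (-p) * (1 - g t / p) := by
      show exp (log (-p) + log (1 - g t / p)) = _
      rw [exp_add, exp_log (neg_ne_zero.2 hp), exp_log (slitPlane_ne_zero (hslit t))]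
    rw [h1]
    field_simp
    ring
  have cov := Complex.isCoveringMap_exp
  have H0 : ∀ a, H (0, a) = (fun z : ℂ ↦ (⟨exp z, z.exp_ne_zero⟩ : {z : ℂ // z ≠ 0})) (f a) := by
    intro a
    apply Subtype.ext
    show g a - β 0 = exp (f a)
    rw [hf, β.source]
  let L := cov.liftHomotopy H f H0
  have hL : ∀ s t, exp (L (s, t)) = g t - β s := by
    intro s t
    have := congrFun (cov.liftHomotopy_lifts H f H0) (s, t)
    exact congrArg Subtype.val this
  have hL0 : ∀ t, L (0, t) = f t := fun t => cov.liftHomotopy_zero H f H0 t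
  have hg01 : g 0 = g 1 := hcl
  have hf01 : f 0 = f 1 := by
    show log (-p) + log (1 - g 0 / p) = log (-p) + log (1 - g 1 / p)
    rw [hg01]
  let d : unitInterval → ℂ := fun s => L (s, 1) - L (s, 0)
  have hdc : Continuous d :=
    (L.continuous.comp (by fun_prop)).sub (L.continuous.comp (by fun_prop))
  have hd1 : ∀ s, exp (d s) = 1 := by
    intro s
    show exp (L (s, 1) - L (s, 0)) = 1
    rw [exp_sub, hL, hL, hg01, div_self (hne s 1)]
  have hdd : d 1 = d 0 := by
    refine cov.const_of_comp hdc ?_ 1 0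
    intro a a'
    apply Subtype.ext
    show exp (d a) = exp (d a')
    rw [hd1, hd1]
  have hd0 : d 0 = 0 := by
    show L (0, 1) - L (0, 0) = 0
    rw [hL0, hL0, hf01, sub_self]
  refine ⟨fun t => L (1, projIcc 0 1 zero_le_one t), ?_, ?_, ?_⟩
  · apply Continuous.continuousOn
    exact L.continuous.comp (by fun_prop)
  · intro t ht
    show exp (L (1, projIcc 0 1 zero_le_one t)) = _
    rw [hL, β.target, projIcc_of_mem zero_le_one ht, hg]
  · have h1 : L (1, 1) - L (1, 0) = 0 := by
      have : d 1 = L (1, 1) - L (1, 0) := rfl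
      rw [← this, hdd, hd0]
    show L (1, projIcc 0 1 zero_le_one 0) = L (1, projIcc 0 1 zero_le_one 1)
    rw [projIcc_left, projIcc_right]
    exact (sub_eq_zero.1 h1).symm

end Pool.Agent.H74.UC
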