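import Pool.Agent.H74.UC.Defs

/-!
# UC-XLIP: `X q` is a bi-Lipschitz homeomorphism
-/

set_option autoImplicit false

open Complex MeasureTheory Set Filter Topology Metric
open scoped ContDiff RealInnerProductSpace ComplexConjugate

namespace Pool.Agent.H74.UC

open Pool.Agent.H74.PH

namespace XLIPa

/-- `T v = v³/|v|²` -/
noncomputable def T (v : ℂ) : ℂ := v ^ 3 / ((‖v‖ ^ 2 : ℝ) : ℂ)

theorem T_zero : T 0 = 0 := by simp [T]

theorem normSq_T (v : ℂ) : normSq (T v) = normSq v := by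
  by_cases hv : v = 0
  · rw [hv, T_zero]
  · have h : normSq v ≠ 0 := by
      rw [Ne, normSq_eq_zero]
      exact hv
    rw [T, normSq_div, map_pow, normSq_ofReal, ← normSq_eq_norm_sq]
    field_simp

theorem norm_T (v : ℂ) : ‖T v‖ = ‖v‖ := by
  have h1 := normSq_T v
  rw [normSq_eq_norm_sq, normSq_eq_norm_sq] at h1
  exact (pow_left_inj₀ (norm_nonneg _) (norm_nonneg _) two_ne_zero).1 h1

theorem T_lip (v w : ℂ) : ‖T v - T w‖ ≤ 3 * ‖v - w‖ := by
  by_cases hv : v = 0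
  · rw [hv, T_zero, zero_sub, zero_sub, norm_neg, norm_neg, norm_T]
    have := norm_nonneg w
    linarith
  by_cases hw : w = 0
  · rw [hw, T_zero, sub_zero, sub_zero, norm_T]
    have := norm_nonneg v
    linarith
  have hR : 0 < normSq v := normSq_pos.2 hv
  have hS : 0 < normSq w := normSq_pos.2 hw
  have h1 : normSq (T v - T w) = normSq v + normSq w - 2 * (T v * conj (T w)).re := by
    rw [normSq_sub, normSq_T, normSq_T]
  have h2 : normSq (v - w) = normSq v + normSq w - 2 * (v * conj w).re := normSq_sub v w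
  have h3 : T v * conj (T w) = (v * conj w) ^ 3 / ((normSq v * normSq w : ℝ) : ℂ) := by
    rw [T, T, map_div₀, map_pow, conj_ofReal, ← normSq_eq_norm_sq, ← normSq_eq_norm_sq, mul_pow,
      ofReal_mul]
    rw [div_mul_div_comm]
  have h4 : (T v * conj (T w)).re =
      ((v * conj w).re ^ 3 - 3 * (v * conj w).re * (v * conj w).im ^ 2) / (normSq v * normSq w) := by
    rw [h3, div_ofReal_re]
    congr 1
    set z := v * conj w
    have : z ^ 3 = z * z * z := by ring
    rw [this]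
    simp only [mul_re, mul_im]
    ring
  have h5 : (v * conj w).re ^ 2 + (v * conj w).im ^ 2 = normSq v * normSq w := by
    have : normSq (v * conj w) = normSq v * normSq w := by
      rw [normSq_mul, normSq_conj]
    rw [← this, normSq_apply]
    ring
  set x := (v * conj w).re
  set y := (v * conj w).im
  set R := normSq v
  set S := normSq w
  set N := Real.sqrt (R * S) with hN
  have hN2 : N ^ 2 = R * S := Real.sq_sqrt (by positivity)
  have hN0 : 0 < N := Real.sqrt_pos.2 (by positivity)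
  have hRS : 2 * N ≤ R + S := by
    have : (2 * N) ^ 2 ≤ (R + S) ^ 2 := by nlinarith [sq_nonneg (R - S)]
    exact (pow_le_pow_iff_left₀ (by positivity) (by positivity) two_ne_zero).1 this
  have hx : |x| ≤ N := by
    apply abs_le_of_sq_le_sq _ hN0.le
    nlinarith [sq_nonneg y]
  have hx1 := (abs_le.1 hx).1
  have hx2 := (abs_le.1 hx).2
  have key : normSq (T v - T w) ≤ 9 * normSq (v - w) := by
    rw [h1, h2, h4]
    have hy : y ^ 2 = R * S - x ^ 2 := by linarith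
    rw [hy]
    have h6 : (x ^ 3 - 3 * x * (R * S - x ^ 2)) / (R * S) = 4 * x ^ 3 / (R * S) - 3 * x := by
      field_simp
      ring
    rw [h6]
    have h7 : 0 ≤ 8 * (R + S) - 24 * x + 8 * x ^ 3 / (R * S) := by
      have h8 : 8 * (R + S) - 24 * x + 8 * x ^ 3 / (R * S) =
          (8 * (R + S) * (R * S) - 24 * x * (R * S) + 8 * x ^ 3) / (R * S) := by
        field_simp
      rw [h8]
      apply div_nonneg _ (by positivity)
      rw [← hN2]
      have h9 : 0 ≤ 8 * ((N - x) ^ 2 * (2 * N + x)) := by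
        have : 0 ≤ 2 * N + x := by linarith
        positivity
      nlinarith [mul_nonneg (sub_nonneg.2 hRS) (sq_nonneg N)]
    have h10 : 8 * x ^ 3 / (R * S) = 2 * (4 * x ^ 3 / (R * S)) := by ring
    linarith
  have h11 : ‖T v - T w‖ ^ 2 ≤ (3 * ‖v - w‖) ^ 2 := by
    rw [mul_pow, ← normSq_eq_norm_sq, ← normSq_eq_norm_sq]
    linarith
  exact (pow_le_pow_iff_left₀ (norm_nonneg _) (by positivity) two_ne_zero).1 h11

theorem X_eq (q : ℝ) (v : ℂ) : X q v = ((q + 1 : ℝ) : ℂ) * conj v + ((q - 1 : ℝ) : ℂ) * T v := rfl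

theorem par_lt {K q : ℝ} (h : Par K q) : 3 * |q - 1| < q + 1 := by
  have h1 := h.q1
  have h2 := h.q2
  rcases abs_cases (q - 1) with h3 | h3 <;> linarith

theorem norm_conj_part (q : ℝ) (hq : 0 < q + 1) (v w : ℂ) :
    ‖((q + 1 : ℝ) : ℂ) * conj v - ((q + 1 : ℝ) : ℂ) * conj w‖ = (q + 1) * ‖v - w‖ := by
  rw [← mul_sub, ← map_sub, norm_mul, norm_conj, norm_real, Real.norm_of_nonneg hq.le]

theorem norm_T_part (q : ℝ) (v w : ℂ) :
    ‖((q - 1 : ℝ) : ℂ) * T v - ((q - 1 : ℝ) : ℂ) * T w‖ ≤ 3 * |q - 1| * ‖v - w‖ := by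
  rw [← mul_sub, norm_mul, norm_real, Real.norm_eq_abs]
  have := T_lip v w
  have h0 := abs_nonneg (q - 1)
  nlinarith

end XLIPa

open XLIPa

/-- UC-XLIP (`v ↦ v³/|v|²` is `3`-Lipschitz and `3 |q - 1| < q + 1`) -/
theorem X_lip {K q : ℝ} (h : Par K q) (v w : ℂ) : ‖X q v - X q w‖ ≤ 6 * ‖v - w‖ := by
  have hq : 0 < q + 1 := by linarith [h.q1]
  have h1 : X q v - X q w = (((q + 1 : ℝ) : ℂ) * conj v - ((q + 1 : ℝ) : ℂ) * conj w) +
      (((q - 1 : ℝ) : ℂ) * T v - ((q - 1 : ℝ) : ℂ) * T w) := by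
    rw [X_eq, X_eq]
    ring
  rw [h1]
  refine (norm_add_le _ _).trans ?_
  rw [norm_conj_part q hq]
  have h2 := norm_T_part q v w
  have h3 := par_lt h
  have h4 := h.q2
  have h5 := norm_nonneg (v - w)
  nlinarith

theorem X_anti {K q : ℝ} (h : Par K q) :
    ∃ c : ℝ, 0 < c ∧ ∀ v w : ℂ, c * ‖v - w‖ ≤ ‖X q v - X q w‖ := by
  have hq : 0 < q + 1 := by linarith [h.q1]
  refine ⟨(q + 1) - 3 * |q - 1|, by linarith [par_lt h], fun v w => ?_⟩
  have h1 : ((q + 1 : ℝ) : ℂ) * conj v - ((q + 1 : ℝ) : ℂ) * conj w = (X q v - X q w) -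
      (((q - 1 : ℝ) : ℂ) * T v - ((q - 1 : ℝ) : ℂ) * T w) := by
    rw [X_eq, X_eq]
    ring
  have h2 := norm_sub_le (X q v - X q w) (((q - 1 : ℝ) : ℂ) * T v - ((q - 1 : ℝ) : ℂ) * T w)
  rw [← h1, norm_conj_part q hq] at h2
  have h3 := norm_T_part q v w
  linarith

theorem X_surj {K q : ℝ} (h : Par K q) : Function.Surjective (X q) := by
  intro y
  have hq : 0 < q + 1 := by linarith [h.q1]
  have hlt := par_lt h
  let κ : NNReal := ⟨3 * |q - 1| / (q + 1), by positivity⟩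
  let Φ : ℂ → ℂ := fun v => conj ((y - ((q - 1 : ℝ) : ℂ) * T v) / ((q + 1 : ℝ) : ℂ))
  have hκ : κ < 1 := by
    rw [← NNReal.coe_lt_coe]
    change 3 * |q - 1| / (q + 1) < 1
    rw [div_lt_one hq]
    exact hlt
  have hΦ : LipschitzWith κ Φ := by
    refine LipschitzWith.of_dist_le_mul fun v w => ?_
    rw [dist_eq_norm, dist_eq_norm]
    have e1 : Φ v - Φ w = conj (-(((q - 1 : ℝ) : ℂ) * T v - ((q - 1 : ℝ) : ℂ) * T w) /
        ((q + 1 : ℝ) : ℂ)) := by
      simp only [Φ]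
      rw [← map_sub]
      congr 1
      ring
    rw [e1, norm_conj, norm_div, norm_neg, norm_real, Real.norm_of_nonneg hq.le]
    have h3 := norm_T_part q v w
    change _ ≤ 3 * |q - 1| / (q + 1) * ‖v - w‖
    rw [div_mul_eq_mul_div]
    gcongr
  have hc : ContractingWith κ Φ := ⟨hκ, hΦ⟩
  have hfix : Φ hc.fixedPoint = hc.fixedPoint := hc.fixedPoint_isFixedPt
  refine ⟨hc.fixedPoint, ?_⟩
  set v := hc.fixedPoint
  have h1 : conj v = (y - ((q - 1 : ℝ) : ℂ) * T v) / ((q + 1 : ℝ) : ℂ) := by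
    conv_lhs => rw [← hfix]
    simp only [Φ]
    rw [conj_conj]
  have hne : ((q + 1 : ℝ) : ℂ) ≠ 0 := by
    rw [Ne, ofReal_eq_zero]
    exact hq.ne'
  rw [X_eq, h1]
  field_simp
  ring

theorem X_inj {K q : ℝ} (h : Par K q) : Function.Injective (X q) := by
  obtain ⟨c, hc, hcv⟩ := X_anti h
  intro v w hvw
  have h1 := hcv v w
  rw [hvw, sub_self, norm_zero] at h1
  have h2 : ‖v - w‖ ≤ 0 := by
    by_contra hcon
    push Not at hcon
    nlinarith
  exact sub_eq_zero.1 (norm_le_zero_iff.1 h2)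

/-- consequences: `Xi q` is the inverse homeomorphism -/
theorem X_Xi {K q : ℝ} (h : Par K q) (x : ℂ) : X q (Xi q x) = x :=
  Function.rightInverse_invFun (X_surj h) x

theorem Xi_X {K q : ℝ} (h : Par K q) (v : ℂ) : Xi q (X q v) = v :=
  Function.leftInverse_invFun (X_inj h) v

theorem Xi_cont {K q : ℝ} (h : Par K q) : Continuous (Xi q) := by
  obtain ⟨c, hc, hcv⟩ := X_anti h
  refine (LipschitzWith.of_dist_le_mul (K := ⟨c⁻¹, by positivity⟩) fun x y => ?_).continuous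
  rw [dist_eq_norm, dist_eq_norm]
  change ‖Xi q x - Xi q y‖ ≤ c⁻¹ * ‖x - y‖
  have h1 := hcv (Xi q x) (Xi q y)
  rw [X_Xi h, X_Xi h] at h1
  rw [inv_mul_eq_div, le_div_iff₀ hc]
  linarith

end Pool.Agent.H74.UC
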