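import Pool.Agent.H74.UC.PAR
import Pool.Agent.H74.UC.XLIP
import Pool.Agent.H74.UC.TEST
import Pool.Agent.H74.UC.WIND
import Pool.Agent.H74.UC.T2
import Pool.Agent.H74.UC.CUBIC
import Pool.Agent.H74.UC.PULL
import Pool.Agent.H74.UC.BDRY
import Pool.Agent.H74.UC.SIM
import Pool.Agent.H74.UC.SIMU
import Pool.Agent.H74.UC.CENSIM
import Pool.Agent.H74.UC.CENEQ
import Pool.Agent.H74.UC.RAY
import Pool.Agent.H74.UC.VC1
import Pool.Agent.H74.UC.WEYL
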