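import Pool.Agent.H74.UC.Defs

set_option autoImplicit false

open Complex MeasureTheory Set Filter Topology Metric
open scoped ContDiff RealInnerProductSpace ComplexConjugate

namespace Pool.Agent.H74.UC

open Pool.Agent.H74.PH

/-- UC-PAR -/
theorem par_exists {K : ℝ} (hK : 0 < K) : ∃ q : ℝ, Par K q ∧ 2 * q - 1 ≤ (K + 1) / 2 ∧
    (K ≠ 1 → 2 * q - 1 < (K + 1) / 2) := by
  have hpos : 0 ≤ K ^ 2 + 14 * K + 1 := by positivity
  obtain ⟨D, hD⟩ : ∃ D, D = Real.sqrt (K ^ 2 + 14 * K + 1) := ⟨_, rfl⟩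
  have hD0 : 0 ≤ D := hD ▸ Real.sqrt_nonneg _
  have hD2 : D ^ 2 = K ^ 2 + 14 * K + 1 := by rw [hD]; exact Real.sq_sqrt hpos
  have h1 : K + 1 < D := by nlinarith
  have h2 : D < 7 + K := by nlinarith
  have h3 : D ≤ 2 * K + 2 := by nlinarith [sq_nonneg (K - 1)]
  refine ⟨(1 - K + D) / 4, ⟨hK, by linarith, by linarith, by nlinarith⟩, by linarith, ?_⟩
  intro hne
  have h4 : 0 < (K - 1) ^ 2 := by
    have : K - 1 ≠ 0 := sub_ne_zero.mpr hne
    positivity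
  have h5 : D < 2 * K + 2 := by nlinarith
  linarith

end Pool.Agent.H74.UC
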