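import Pool.Agent.H74.UC.QB
import Pool.Agent.H74.UC.PAR
import Pool.Agent.H74.PH.Scale
import Pool.Agent.H74.PH.CaseBF

/-! UC-MASTER -/

set_option autoImplicit false

open Complex MeasureTheory Set Filter Topology Metric
open scoped ContDiff RealInnerProductSpace ComplexConjugate

namespace Pool.Agent.H74.UC

open Pool.Agent.H74.PH

namespace MS

theorem V_norm {K : ℝ} (hK : 0 < K) (ξ : ℂ) : ‖V (K + 1) ξ‖ = ‖ξ‖ ^ ((K + 1) / 2) := by
  unfold V
  rw [norm_smul, Real.norm_of_nonneg (Real.rpow_nonneg (norm_nonneg _) _)]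
  rcases eq_or_lt_of_le (norm_nonneg ξ) with h | h
  · rw [← h, mul_zero, Real.zero_rpow (by positivity)]
  · nth_rewrite 2 [← Real.rpow_one ‖ξ‖]
    rw [← Real.rpow_add h]
    congr 1
    ring

theorem mem_ball {z0 z : ℂ} {R : ℝ} (hR : 0 < R) (hz : z ∈ closedBall (0 : ℂ) 1) :
    z0 + R * z ∈ closedBall z0 R := by
  rw [mem_closedBall, dist_eq_norm] at *
  rw [add_sub_cancel_left, norm_mul, Complex.norm_real, Real.norm_of_nonneg hR.le]
  rw [sub_zero] at hz
  nlinarith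

end MS

open MS in
/-- UC-MASTER: the estimate for `sig`, without any assumption on `sig`. -/
theorem master' {K : ℝ} (hK : 0 < K) : ∃ C : ℝ, 0 < C ∧ ∀ (Ω : Set ℂ) (g : ℂ → ℂ) (u : ℂ → ℝ)
    (c0 z0 : ℂ) (R O : ℝ), PGrad K Ω g → IsPHarmonicOn (K + 1) Ω u → (∀ z ∈ Ω, grad u z = g z) →
    0 < R → 0 < O → closedBall z0 R ⊆ Ω →
    (∀ z ∈ closedBall z0 R, ‖V (K + 1) (g z) - c0‖ ≤ O) → sig K g z0 ≤ C * O / R := by
  obtain ⟨q, hq, hqK, -⟩ := par_exists hK
  obtain ⟨CA, hCA, hA⟩ := Q_bound hq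
  obtain ⟨CB, K1, hCB, hK1, hB⟩ := caseB hK
  refine ⟨CB + CA * (1 + K1), by positivity, ?_⟩
  intro Ω g u c0 z0 R O hg hu hgu hR hO hball hV
  have hK2 : (K + 1) / 2 ≠ 0 := by positivity
  -- scaling with `l ^ ((K+1)/2) = 1 / N`
  have hl : ∀ N : ℝ, 0 < N → ∃ l : ℝ, 0 < l ∧ l ^ ((K + 1) / 2) = 1 / N := by
    intro N hN
    refine ⟨(1 / N) ^ ((K + 1) / 2)⁻¹, by positivity, ?_⟩
    rw [← Real.rpow_mul (by positivity), inv_mul_cancel₀ hK2, Real.rpow_one]
  have hsub : closedBall (0 : ℂ) 1 ⊆ {z | z0 + R * z ∈ Ω} := fun z hz => hball (mem_ball hR hz)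
  have h0B : (0 : ℂ) ∈ closedBall (0 : ℂ) 1 := by simp
  have hz00 : z0 + (R : ℂ) * 0 = z0 := by simp
  by_cases hcase : K1 ≤ ‖c0‖ / O
  · obtain ⟨l, hl0, hl1⟩ := hl O hO
    obtain ⟨s1, -, s3, s4⟩ := scale hg z0 hR hl0
    have h1 := hB _ (fun z => l * g (z0 + R * z)) (((1 / O : ℝ) : ℂ) * c0) s1 hsub (by
      rw [norm_mul, Complex.norm_real, Real.norm_of_nonneg (by positivity)]
      rw [one_div_mul_eq_div]
      exact hcase) (by
      intro z hz
      rw [s4 z, hl1, Complex.real_smul, ← mul_sub, norm_mul, Complex.norm_real,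
        Real.norm_of_nonneg (by positivity), one_div_mul_eq_div, div_le_one hO]
      exact hV _ (mem_ball hR hz))
    rw [s3 0 (hsub h0B), hl1, hz00] at h1
    have h2 : 0 ≤ CA * (1 + K1) * O / R := by positivity
    have h3 : sig K g z0 ≤ CB * O / R := by
      rw [le_div_iff₀ hR]
      have : 1 / O * R * sig K g z0 * O ≤ CB * O := mul_le_mul_of_nonneg_right h1 hO.le
      have e : 1 / O * R * sig K g z0 * O = sig K g z0 * R := by field_simp
      linarith
    calc sig K g z0 ≤ CB * O / R := h3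
      _ ≤ CB * O / R + CA * (1 + K1) * O / R := by linarith
      _ = _ := by ring
  · push Not at hcase
    have hN : 0 < O * (1 + K1) := by positivity
    obtain ⟨M, hMdef⟩ : ∃ M : ℝ, M = (O * (1 + K1)) ^ ((K + 1) / 2)⁻¹ := ⟨_, rfl⟩
    have hM : 0 < M := by rw [hMdef]; positivity
    have hMK : M ^ ((K + 1) / 2) = O * (1 + K1) := by
      rw [hMdef, ← Real.rpow_mul hN.le, inv_mul_cancel₀ hK2, Real.rpow_one]
    have hgM : ∀ z ∈ closedBall z0 R, ‖g z‖ ≤ M := by
      intro z hz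
      have e2 := hV z hz
      have e3 : ‖V (K + 1) (g z)‖ ≤ ‖V (K + 1) (g z) - c0‖ + ‖c0‖ := by
        calc ‖V (K + 1) (g z)‖ = ‖V (K + 1) (g z) - c0 + c0‖ := by rw [sub_add_cancel]
          _ ≤ _ := norm_add_le _ _
      have e4 : ‖c0‖ < K1 * O := by rwa [div_lt_iff₀ hO] at hcase
      rw [V_norm hK] at e3
      have e5 : ‖g z‖ ^ ((K + 1) / 2) ≤ M ^ ((K + 1) / 2) := by
        rw [hMK]
        linarith
      exact (Real.rpow_le_rpow_iff (norm_nonneg _) hM.le (by positivity)).1 e5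
    have h1 := hA Ω g u z0 R M hg hu hgu hR hM hball hgM
    have h2 : 0 ≤ CB * O / R := by positivity
    have h3 : sig K g z0 ≤ CA * (1 + K1) * O / R := by
      by_cases hg0 : g z0 = 0
      · have : sig K g z0 = 0 := by
          unfold sig S
          rw [hg0, div_zero, norm_zero, mul_zero]
        rw [this]
        positivity
      · have hgp : 0 < ‖g z0‖ := norm_pos_iff.2 hg0
        have e1 : sig K g z0 = ‖g z0‖ ^ ((K + 1) / 2 - (2 * q - 1)) * Q (2 * q - 1) g z0 := by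
          unfold sig Q
          rw [← mul_assoc, ← Real.rpow_add hgp]
          congr 2
          ring
        have e2 : ‖g z0‖ ^ ((K + 1) / 2 - (2 * q - 1)) ≤ M ^ ((K + 1) / 2 - (2 * q - 1)) :=
          Real.rpow_le_rpow hgp.le (hgM z0 (mem_closedBall_self hR.le)) (by linarith)
        have e3 : 0 ≤ Q (2 * q - 1) g z0 := by
          unfold Q
          positivity
        calc sig K g z0 = ‖g z0‖ ^ ((K + 1) / 2 - (2 * q - 1)) * Q (2 * q - 1) g z0 := e1
          _ ≤ M ^ ((K + 1) / 2 - (2 * q - 1)) * (CA * M ^ (2 * q - 1) / R) :=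
            mul_le_mul e2 h1 e3 (by positivity)
          _ = CA * (M ^ ((K + 1) / 2 - (2 * q - 1)) * M ^ (2 * q - 1)) / R := by ring
          _ = CA * (1 + K1) * O / R := by
            rw [← Real.rpow_add hM, sub_add_cancel, hMK]
            ring
    calc sig K g z0 ≤ CA * (1 + K1) * O / R := h3
      _ ≤ CB * O / R + CA * (1 + K1) * O / R := by linarith
      _ = _ := by ring

end Pool.Agent.H74.UC
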