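import Pool.Agent.H74.PH.Final
import Pool.Agent.H74.UC.MASTER
import Pool.Agent.H74.UC.L1

/-!
# The gradient estimate for `V(∇u)` and its continuous differentiability
-/

set_option autoImplicit false

open Complex MeasureTheory Set Filter Topology Metric
open scoped ContDiff RealInnerProductSpace NNReal

namespace Pool.Agent.H74.UC

open Pool.Agent.H74.PH

/-- the gradient estimate in Lipschitz form -/
theorem lip_est' {K : ℝ} (hK : 0 < K) : ∃ C : ℝ, 0 < C ∧ ∀ (Ω : Set ℂ) (g : ℂ → ℂ) (u : ℂ → ℝ),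
    PGrad K Ω g → IsPHarmonicOn (K + 1) Ω u → (∀ z ∈ Ω, grad u z = g z) →
    ∀ (c0 z : ℂ) (r O : ℝ), 0 < r → 0 < O → closedBall z r ⊆ Ω →
      (∀ x ∈ closedBall z r, ‖V (K + 1) (g x) - c0‖ ≤ O) →
      ∀ x ∈ ball z (r / 2), ∀ y ∈ ball z (r / 2),
        ‖V (K + 1) (g x) - V (K + 1) (g y)‖ ≤ C * O / r * ‖x - y‖ := by
  obtain ⟨C1, hC1, hm⟩ := master' hK
  obtain ⟨C2, hC2, hs⟩ := sig_bounds hK
  refine ⟨2 * C1 * C2, by positivity, ?_⟩
  intro Ω g u hg hu hug c0 z r O hr hO hB hb x hx y hy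
  have hbb : ball z (r / 2) ⊆ Ω := (ball_subset_closedBall.trans
    (closedBall_subset_closedBall (by linarith))).trans hB
  refine lip_seg (F := fun z => V (K + 1) (g z)) (convex_ball z (r / 2)) isOpen_ball
    ((V_continuous hK).comp_continuousOn (hg.cont.mono hbb)) (by positivity) ?_ hx hy
  intro w hw hFw
  have hgw : g w ≠ 0 := by
    intro h; apply hFw; simp [V, h]
  obtain ⟨hd, _, h3⟩ := hs Ω g hg w (hbb hw) hgw
  refine ⟨hd, h3.trans ?_⟩
  have hsub : closedBall w (r / 2) ⊆ closedBall z r := by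
    apply closedBall_subset_closedBall'
    have := mem_ball.mp hw
    linarith
  have h4 := hm Ω g u c0 w (r / 2) O hg hu hug (by positivity) hO (hsub.trans hB)
    (fun v hv => hb v (hsub hv))
  calc C2 * sig K g w ≤ C2 * (C1 * O / (r / 2)) := by gcongr
    _ = 2 * C1 * C2 * O / r := by field_simp

/-- `V(∇u)` is `C¹` -/
theorem V_grad_C1 {K : ℝ} (hK : 0 < K) {Ω : Set ℂ} {u : ℂ → ℝ} (hg : PGrad K Ω (grad u))
    (hu : IsPHarmonicOn (K + 1) Ω u) : ContDiffOn ℝ 1 (fun z => V (K + 1) (grad u z)) Ω := by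
  by_cases h1 : K = 1
  · subst h1
    have h2 : IsPHarmonicOn 2 Ω u := by
      have : (1 : ℝ) + 1 = 2 := by norm_num
      rwa [this] at hu
    have h3 := weyl hg.isOpen h2
    have h4 : (fun z => V (1 + 1) (grad u z)) = grad u := by
      funext z
      have h5 : ((1 : ℝ) + 1 - 2) / 2 = 0 := by norm_num
      simp only [V, h5, Real.rpow_zero, one_smul]
    rw [h4]
    exact h3.of_le (by exact_mod_cast le_top)
  · obtain ⟨q, hq, hq1, hq2⟩ := par_exists hK
    obtain ⟨C, hC, hQ⟩ := Q_bound hq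
    have ha : 0 < 2 * q - 1 := by have := hq.q1; linarith
    refine V_C1 hK ha (hq2 h1) hg ?_
    intro z0 hz0 _
    obtain ⟨r, hr, hrB⟩ := nhds_basis_closedBall.mem_iff.1 (hg.isOpen.mem_nhds hz0)
    obtain ⟨M, hM⟩ := (isCompact_closedBall z0 r).exists_bound_of_continuousOn (hg.cont.mono hrB)
    refine ⟨r / 2, C * (max M 1) ^ (2 * q - 1) / (r / 2), by positivity,
      (ball_subset_closedBall.trans (closedBall_subset_closedBall (by linarith))).trans hrB, ?_⟩
    intro z hz _
    have hsub : closedBall z (r / 2) ⊆ closedBall z0 r := by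
      apply closedBall_subset_closedBall'
      have := mem_ball.mp hz
      linarith
    exact hQ Ω (grad u) u z (r / 2) (max M 1) hg hu (fun _ _ => rfl) (by positivity)
      (by positivity) (hsub.trans hrB) (fun x hx => (hM x (hsub hx)).trans (le_max_left _ _))

end Pool.Agent.H74.UC
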