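import Pool.Agent.H74.UC.RADO

/-! UC-GEN -/

set_option autoImplicit false

open Complex MeasureTheory Set Filter Topology Metric
open scoped ContDiff RealInnerProductSpace ComplexConjugate

namespace Pool.Agent.H74.UC

open Pool.Agent.H74.PH

namespace GENa

theorem pgrad_mono {K : ℝ} {Ω Ω' : Set ℂ} {g : ℂ → ℂ} (h : PGrad K Ω g) (ho : IsOpen Ω')
    (hs : Ω' ⊆ Ω) : PGrad K Ω' g where
  isOpen := ho
  cont := h.cont.mono hs
  smooth := fun z hz => h.smooth z (hs hz)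
  eq := fun z hz => h.eq z (hs hz)

theorem G_X {K q : ℝ} (h : Par K q) {v : ℂ} (hv : ‖v‖ = 1) : G q (X q v) = v := by
  unfold G
  rw [Xi_X h, hv, Real.one_rpow]
  simp

theorem X_zero (q : ℝ) : X q 0 = 0 := by simp [X]

theorem X_ne {K q : ℝ} (h : Par K q) {v : ℂ} (hv : v ≠ 0) : X q v ≠ 0 := by
  intro h0
  apply hv
  have h1 := Xi_X h v
  have h2 := Xi_X h 0
  rw [h0] at h1
  rw [X_zero] at h2
  rw [← h1, h2]

end GENa

open GENa in
theorem gen {K q : ℝ} (h : Par K q) : ∃ C : ℝ, 0 < C ∧ ∀ (Ω : Set ℂ) (g : ℂ → ℂ) (u : ℂ → ℝ),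
    PGrad K Ω g → IsPHarmonicOn (K + 1) Ω u → (∀ z ∈ Ω, grad u z = g z) → closedBall 0 1 ⊆ Ω →
    (∀ z ∈ closedBall (0 : ℂ) 1, ‖g z‖ ≤ 1) → ∀ z0 ∈ ball (0 : ℂ) (1 / 2), g z0 ≠ 0 →
    C < Q (2 * q - 1) g z0 → HasFDerivAt (cen K (2 * q - 1) g) (0 : ℂ →L[ℝ] ℂ) z0 := by
  obtain ⟨η, τ0, hη, hτ0, hrado⟩ := rado h
  obtain ⟨cG, CG, hcG, hCG, hGb⟩ := G_bounds h
  have hK := h.K0
  have ha : 0 < 2 * q - 1 := by have := h.q1; linarith
  set a : ℝ := 2 * q - 1 with ha_def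
  set m : ℝ := min (1 / 24) (min (1 / (24 * τ0)) (η ^ a / 24)) with hm
  have hm0 : 0 < m := by
    rw [hm]
    refine lt_min (by norm_num) (lt_min (by positivity) (by positivity))
  have hm1 : m ≤ 1 / 24 := min_le_left _ _
  have hm2 : m ≤ 1 / (24 * τ0) := (min_le_right _ _).trans (min_le_left _ _)
  have hm3 : m ≤ η ^ a / 24 := (min_le_right _ _).trans (min_le_right _ _)
  refine ⟨CG / m, by positivity, ?_⟩
  intro Ω g u hg hu hug hB hg1 z0 hz0 hgz hQ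
  have hz0B : z0 ∈ closedBall (0 : ℂ) 1 := by
    rw [mem_closedBall]; rw [mem_ball] at hz0; linarith
  have hz0Ω := hB hz0B
  have hg0 : 0 < ‖g z0‖ := norm_pos_iff.2 hgz
  have hg01 : ‖g z0‖ ≤ 1 := hg1 z0 hz0B
  have hQ0 : 0 < Q a g z0 := lt_trans (by positivity) hQ
  have hS0 : S g z0 ≠ 0 := by
    intro h0
    rw [Q, h0, norm_zero, mul_zero] at hQ0
    exact lt_irrefl _ hQ0
  have hSn : 0 < ‖S g z0‖ := norm_pos_iff.2 hS0
  obtain ⟨R, v0, hR, hv0, hSG⟩ := jet h hS0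
  set l : ℝ := 1 / ‖g z0‖ with hl
  have hl0 : 0 < l := by positivity
  have hl1 : 1 ≤ l := by rw [hl, le_div_iff₀ hg0]; linarith
  set ρ : ℝ := R * ‖g z0‖ with hρd
  have hρ : 0 < ρ := by positivity
  have hlρ : l * ρ = R := by rw [hl, hρd]; field_simp
  have hv0n : v0 ≠ 0 := by intro h0; rw [h0, norm_zero] at hv0; norm_num at hv0
  set x0 : ℂ := X q v0 with hx0
  have hx0n : x0 ≠ 0 := X_ne h hv0n
  have hx06 : ‖x0‖ ≤ 6 := by
    have := X_lip h v0 0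
    rwa [X_zero, sub_zero, sub_zero, hv0, mul_one] at this
  set e : ℂ := conj (v0 * ‖g z0‖ / g z0) with he
  have hen : ‖e‖ = 1 := by
    rw [he, RCLike.norm_conj, norm_div, norm_mul, hv0, Complex.norm_real, norm_norm, one_mul,
      div_self hg0.ne']
  have hce : conj e = v0 * ‖g z0‖ / g z0 := by rw [he, Complex.conj_conj]
  -- smallness of ρ
  have hR1 : R * ‖S g z0‖ ≤ CG := by
    have h1 := (hGb v0 hv0).2
    rwa [hSG, norm_mul, Complex.norm_real, Real.norm_of_nonneg hR.le] at h1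
  have hla : l ^ a = ‖g z0‖ ^ (-a) := by
    rw [hl, one_div, Real.inv_rpow hg0.le, Real.rpow_neg hg0.le]
  have hkey : ρ * l ^ a * Q a g z0 ≤ CG := by
    have e1 : ρ * l ^ a * Q a g z0 = R * ‖S g z0‖ := by
      rw [hla, hρd, Q]
      have e2 : ‖g z0‖ * ‖g z0‖ ^ (-a) * ‖g z0‖ ^ (a - 1) = 1 := by
        nth_rewrite 1 [← Real.rpow_one ‖g z0‖]
        rw [← Real.rpow_add hg0, ← Real.rpow_add hg0]
        have : 1 + -a + (a - 1) = 0 := by ring
        rw [this, Real.rpow_zero]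
      calc R * ‖g z0‖ * ‖g z0‖ ^ (-a) * (‖g z0‖ ^ (a - 1) * ‖S g z0‖) =
          R * (‖g z0‖ * ‖g z0‖ ^ (-a) * ‖g z0‖ ^ (a - 1)) * ‖S g z0‖ := by ring
        _ = R * ‖S g z0‖ := by rw [e2, mul_one]
    rw [e1]; exact hR1
  have hρm' : ρ * l ^ a < m := by
    have h1 : CG < m * Q a g z0 := by
      rw [div_lt_iff₀ hm0] at hQ
      linarith
    by_contra hcon
    push Not at hcon
    have := mul_le_mul_of_nonneg_right hcon hQ0.le
    linarith
  have hla1 : 1 ≤ l ^ a := Real.one_le_rpow hl1 ha.le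
  have hρm : ρ < m := by
    have : ρ * 1 ≤ ρ * l ^ a := mul_le_mul_of_nonneg_left hla1 hρ.le
    linarith
  set τ : ℝ := 1 / (24 * ρ) with hτ
  have hτpos : 0 < τ := by positivity
  have hτ1 : τ0 ≤ τ := by
    rw [hτ, le_div_iff₀ (by positivity)]
    have h1 : ρ ≤ 1 / (24 * τ0) := hρm.le.trans hm2
    rw [le_div_iff₀ (by positivity)] at h1
    linarith
  have hlη : l ≤ η * τ ^ (1 / a) := by
    have h1 : ρ * l ^ a ≤ η ^ a / 24 := hρm'.le.trans hm3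
    have h2 : l ^ a ≤ η ^ a * τ := by
      rw [hτ, mul_one_div, le_div_iff₀ (by positivity)]
      linarith
    have h3 : (l ^ a) ^ (1 / a) ≤ (η ^ a * τ) ^ (1 / a) :=
      Real.rpow_le_rpow (by positivity) h2 (by positivity)
    rw [Real.mul_rpow (by positivity) hτpos.le, ← Real.rpow_mul hl0.le, ← Real.rpow_mul hη.le,
      mul_one_div_cancel ha.ne', Real.rpow_one, Real.rpow_one] at h3
    exact h3
  obtain ⟨s1, s2⟩ := sim hg z0 x0 e hρ hl0 hen
  obtain ⟨t1, t2⟩ := sim_harm (by linarith) hg.isOpen hu z0 x0 e hρ hl0 hen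
  have hzz : z0 + (ρ : ℂ) * e * (x0 - x0) = z0 := by simp
  have hmap : ∀ x ∈ closedBall (0 : ℂ) (6 * τ),
      z0 + (ρ : ℂ) * e * (x - x0) ∈ closedBall (0 : ℂ) 1 := by
    intro x hx
    rw [mem_closedBall, dist_zero_right] at *
    rw [mem_ball, dist_zero_right] at hz0
    have h1 : ‖z0 + (ρ : ℂ) * e * (x - x0)‖ ≤ ‖z0‖ + ρ * (‖x‖ + ‖x0‖) := by
      refine (norm_add_le _ _).trans ?_
      rw [norm_mul, norm_mul, hen, Complex.norm_real, Real.norm_of_nonneg hρ.le, mul_one]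
      have := norm_sub_le x x0
      gcongr
    have h2 : ρ * ‖x‖ ≤ 1 / 4 := by
      have : ρ * ‖x‖ ≤ ρ * (6 * τ) := mul_le_mul_of_nonneg_left hx hρ.le
      have h3 : ρ * (6 * τ) = 1 / 4 := by rw [hτ]; field_simp; norm_num
      linarith
    have h3 : ρ * ‖x0‖ ≤ 1 / 4 := by
      have : ρ * ‖x0‖ ≤ ρ * 6 := mul_le_mul_of_nonneg_left hx06 hρ.le
      linarith
    nlinarith
  have hg'0 : (l : ℂ) * conj e * g (z0 + ρ * e * (x0 - x0)) = v0 := by
    have hn : (‖g z0‖ : ℂ) ≠ 0 := by exact_mod_cast hg0.ne'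
    rw [hzz, hce, hl]
    push_cast
    field_simp
  have hGx : G q x0 = v0 := G_X h hv0
  have hzΩ' : z0 + (ρ : ℂ) * e * (x0 - x0) ∈ Ω := by rw [hzz]; exact hz0Ω
  have hS' : S (fun x => l * conj e * g (z0 + ρ * e * (x - x0))) x0 = S (G q) x0 := by
    rw [s2 x0 hzΩ' (by rw [hzz]; exact hgz), hzz, hSG, ← hlρ]
    push_cast
    ring
  have hfd := hrado τ _ (fun x => l * conj e * g (z0 + ρ * e * (x - x0)))
    (fun x => l / ρ * u (z0 + ρ * e * (x - x0))) v0 hτ1 s1 t1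
    (fun x hx => by rw [t2 x hx, hug _ hx]) (fun x hx => hB (hmap x hx))
    (fun x hx => by
      rw [norm_mul, norm_mul, Complex.norm_real, Real.norm_of_nonneg hl0.le, RCLike.norm_conj, hen,
        mul_one]
      have h1 := hg1 _ (hmap x hx)
      have h2 : l * ‖g (z0 + (ρ : ℂ) * e * (x - x0))‖ ≤ l * 1 :=
        mul_le_mul_of_nonneg_left h1 hl0.le
      linarith) hv0
    (by
      show (l : ℂ) * conj e * g (z0 + ρ * e * (x0 - x0)) = G q x0
      rw [hg'0, hGx]) hS'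
  have hc := cen_eq hK ha s1 (pgrad_mono (G_pgrad h).1 s1.isOpen (subset_univ _)) (z0 := x0)
    hzΩ' (by rw [hg'0]; exact hv0n) (by rw [hg'0, hGx]) hS'
    (by rw [hS']; exact ((G_pgrad h).2 v0 hv0n).1) hfd (G_cen h hx0n)
  exact cen_sim hK ha hg z0 x0 e hρ hl0 hen hz0Ω hgz hS0 s2 hc

end Pool.Agent.H74.UC
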