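import Pool.Agent.H74.UC.XDER

/-! # UC-GPG: the gradient of the homogeneous saddle satisfies the equation (helper75) -/

set_option autoImplicit false

open Complex MeasureTheory Set Filter Topology Metric
open scoped ContDiff RealInnerProductSpace ComplexConjugate

namespace Pool.Agent.H74.UC

open Pool.Agent.H74.PH

namespace GpgAux

/-- `|v|^c v` -/
noncomputable def psi (c : ℝ) (v : ℂ) : ℂ := ((‖v‖ ^ c : ℝ) : ℂ) * v

theorem psi_smooth (c : ℝ) {v : ℂ} (hv : v ≠ 0) : ContDiffAt ℝ ∞ (psi c) v := by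
  have h1 : ContDiffAt ℝ ∞ (fun v : ℂ => ‖v‖) v := contDiffAt_norm ℝ hv
  have h2 : ContDiffAt ℝ ∞ (fun v : ℂ => ‖v‖ ^ c) v :=
    h1.rpow_const_of_ne (norm_ne_zero_iff.2 hv)
  have h3 : ContDiffAt ℝ ∞ (fun v : ℂ => ((‖v‖ ^ c : ℝ) : ℂ)) v :=
    Complex.ofRealCLM.contDiff.contDiffAt.comp v h2
  exact h3.mul contDiffAt_id

theorem psi_smul (c : ℝ) {l : ℝ} (hl : 0 < l) (v : ℂ) :
    psi c ((l : ℂ) * v) = ((l ^ (c + 1) : ℝ) : ℂ) * psi c v := by
  unfold psi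
  rw [norm_mul, Complex.norm_real, Real.norm_of_nonneg hl.le, Real.mul_rpow hl.le (norm_nonneg _),
    Real.rpow_add_one hl.ne']
  push_cast
  ring

theorem psi_rot (c : ℝ) (u v : ℂ) (hu : ‖u‖ = 1) : psi c (u * v) = u * psi c v := by
  unfold psi
  rw [norm_mul, hu, one_mul]
  ring

theorem psi_radial (c : ℝ) {v : ℂ} (hv : v ≠ 0) :
    fderiv ℝ (psi c) v v = ((1 + c : ℝ) : ℂ) * psi c v := by
  have hd : HasFDerivAt (psi c) (fderiv ℝ (psi c) v) v :=
    ((psi_smooth c hv).differentiableAt (by norm_num)).hasFDerivAt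
  have hg : HasDerivAt (fun t : ℝ => ((1 + t : ℝ) : ℂ) * v) v 0 := by
    have h1 := (((hasDerivAt_id (0 : ℝ)).const_add 1).ofReal_comp).mul_const v
    simpa using h1
  have h0 : ((1 + 0 : ℝ) : ℂ) * v = v := by simp
  have hd' : HasFDerivAt (psi c) (fderiv ℝ (psi c) v) (((1 + 0 : ℝ) : ℂ) * v) := by
    rw [h0]; exact hd
  have h1 := hd'.comp_hasDerivAt (0 : ℝ) hg
  have h2 : HasDerivAt (fun t : ℝ => (((1 + t) ^ (c + 1) : ℝ) : ℂ) * psi c v)
      (((1 + c : ℝ) : ℂ) * psi c v) 0 := by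
    have h3 : HasDerivAt (fun t : ℝ => (1 + t) ^ (c + 1)) (1 + c) 0 := by
      have h4 : HasDerivAt (fun t : ℝ => 1 + t) 1 0 := by
        simpa using (hasDerivAt_id (0 : ℝ)).const_add 1
      have h5 := h4.rpow_const (p := c + 1) (Or.inl (by norm_num))
      have e : 1 * (c + 1) * (1 + 0) ^ (c + 1 - 1) = 1 + c := by
        rw [add_zero, Real.one_rpow]; ring
      rw [e] at h5
      exact h5
    exact (h3.ofReal_comp).mul_const _
  have h3 : (fun t : ℝ => (((1 + t) ^ (c + 1) : ℝ) : ℂ) * psi c v) =ᶠ[𝓝 0]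
      (psi c ∘ fun t : ℝ => ((1 + t : ℝ) : ℂ) * v) := by
    have : ∀ᶠ t : ℝ in 𝓝 0, -1 < t := lt_mem_nhds (by norm_num)
    filter_upwards [this] with t ht
    exact (psi_smul c (by linarith) v).symm
  exact (h1.congr_of_eventuallyEq h3).unique h2

theorem psi_ang (c : ℝ) {v : ℂ} (hv : v ≠ 0) :
    fderiv ℝ (psi c) v (I * v) = I * psi c v := by
  have hd : HasFDerivAt (psi c) (fderiv ℝ (psi c) v) v :=
    ((psi_smooth c hv).differentiableAt (by norm_num)).hasFDerivAt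
  have hexp : HasDerivAt (fun t : ℝ => exp (t * I)) I 0 := by
    have h1 : HasDerivAt (fun t : ℝ => (t : ℂ) * I) I 0 := by
      simpa using ((hasDerivAt_id (0 : ℝ)).ofReal_comp).mul_const I
    have h2 := h1.cexp
    simpa using h2
  have hg := hexp.mul_const v
  have h0 : exp (((0 : ℝ) : ℂ) * I) * v = v := by simp
  have hd' : HasFDerivAt (psi c) (fderiv ℝ (psi c) v) (exp (((0 : ℝ) : ℂ) * I) * v) := by
    rw [h0]; exact hd
  have h1 := hd'.comp_hasDerivAt (0 : ℝ) hg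
  have h2 := hexp.mul_const (psi c v)
  have h3 : (fun t : ℝ => exp (t * I) * psi c v) = (psi c ∘ fun t : ℝ => exp (t * I) * v) := by
    funext t
    exact (psi_rot c _ v (Complex.norm_exp_ofReal_mul_I t)).symm
  rw [h3] at h2
  exact h1.unique h2

theorem psi_cont {c : ℝ} (hc : -1 < c) : Continuous (psi c) := by
  rw [continuous_iff_continuousAt]
  intro v
  rcases eq_or_ne v 0 with rfl | hv
  · have e : psi c 0 = 0 := by unfold psi; simp
    unfold ContinuousAt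
    rw [e]
    rw [tendsto_zero_iff_norm_tendsto_zero]
    have h1 : ∀ v : ℂ, v ≠ 0 → ‖psi c v‖ = ‖v‖ ^ (c + 1) := by
      intro v hv
      have hn : 0 < ‖v‖ := norm_pos_iff.2 hv
      unfold psi
      rw [norm_mul, Complex.norm_real, Real.norm_of_nonneg (Real.rpow_nonneg hn.le _),
        Real.rpow_add_one hn.ne']
    have h2 : ∀ v : ℂ, ‖psi c v‖ = ‖v‖ ^ (c + 1) := by
      intro v
      rcases eq_or_ne v 0 with rfl | hv
      · rw [e, norm_zero, Real.zero_rpow (by linarith)]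
      · exact h1 v hv
    simp only [h2]
    have h3 : Tendsto (fun v : ℂ => ‖v‖ ^ (c + 1)) (𝓝 0) (𝓝 (‖(0 : ℂ)‖ ^ (c + 1))) :=
      (continuous_norm.rpow_const fun _ => Or.inr (by linarith)).continuousAt
    rw [norm_zero, Real.zero_rpow (by linarith)] at h3
    exact h3
  · exact (psi_smooth c hv).continuousAt

/-- the algebra -/
theorem alg {K q c0 s0 : ℝ} (h : Par K q) (h1 : c0 ^ 2 + s0 ^ 2 = 1) :
    0 < q * (2 - q) * c0 ^ 2 + (2 * q - 1) * s0 ^ 2 := by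
  have := h.q1
  have := h.q2
  have k1 : 0 < q * (2 - q) := mul_pos (by linarith) (by linarith)
  have k2 : 0 < 2 * q - 1 := by linarith
  rcases eq_or_ne s0 0 with h0 | h0
  · have : c0 ^ 2 = 1 := by rw [h0] at h1; linarith
    rw [this, h0]
    linarith
  · have : 0 < s0 ^ 2 := by positivity
    have : 0 ≤ c0 ^ 2 := sq_nonneg _
    positivity

/-- everything at one point -/
theorem at_point {K q : ℝ} (h : Par K q) {v : ℂ} (hv : v ≠ 0) : ∃ c0 s0 E : ℝ,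
    c0 ^ 2 + s0 ^ 2 = 1 ∧ E = q * (2 - q) * c0 ^ 2 + (2 * q - 1) * s0 ^ 2 ∧
    X q v = (((2 * q * c0 : ℝ) : ℂ) - ((2 * s0 : ℝ) : ℂ) * I) * v ∧
    ∀ s r : ℝ, fderiv ℝ (G q) (X q v) ((s + r * I) * G q (X q v)) =
      ((‖v‖ ^ (1 / (2 * q - 1) - 1) : ℝ) : ℂ) *
        (((((2 - q) * c0 * s / (2 * q - 1) - s0 * r) / (2 * E) : ℝ) : ℂ) +
          (((-(s0 * s) - q * c0 * r) / (2 * E) : ℝ) : ℂ) * I) * G q (X q v) := by
  have hn : 0 < ‖v‖ := norm_pos_iff.2 hv
  have ha : 0 < 2 * q - 1 := by linarith [h.q1]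
  obtain ⟨w, hw⟩ : ∃ w : ℂ, w = v ^ 2 / ((‖v‖ ^ 2 : ℝ) : ℂ) := ⟨_, rfl⟩
  have hnC : ((‖v‖ ^ 2 : ℝ) : ℂ) ≠ 0 := by exact_mod_cast (pow_pos hn 2).ne'
  have hvv : conj v * v = ((‖v‖ ^ 2 : ℝ) : ℂ) := by
    rw [mul_comm, Complex.mul_conj, Complex.normSq_eq_norm_sq]
  have hw1 : w.re ^ 2 + w.im ^ 2 = 1 := by
    have h2 : ‖w‖ ^ 2 = w.re ^ 2 + w.im ^ 2 := by
      rw [Complex.sq_norm, Complex.normSq_apply]; ring
    rw [← h2, hw, norm_div, norm_pow, Complex.norm_real, Real.norm_of_nonneg (by positivity),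
      div_self (by positivity), one_pow]
  have hwc : w = (w.re : ℂ) + (w.im : ℂ) * I := (Complex.re_add_im w).symm
  have hwb : conj w = (w.re : ℂ) - (w.im : ℂ) * I := by
    apply Complex.ext <;> simp
  have hcv : conj v = conj w * v := by
    rw [hw, map_div₀, map_pow, Complex.conj_ofReal, div_mul_eq_mul_div, eq_div_iff hnC, ← hvv]
    ring
  have hv3 : v ^ 3 / ((‖v‖ ^ 2 : ℝ) : ℂ) = w * v := by
    rw [hw]; ring
  have hX : X q v = (((2 * q * w.re : ℝ) : ℂ) - ((2 * w.im : ℝ) : ℂ) * I) * v := by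
    unfold X
    rw [hcv, hv3, hwb]
    nth_rewrite 3 [hwc]
    push_cast
    ring
  obtain ⟨N, hN1, -, hN2, -, hN⟩ := X_deriv h hv
  have hNv : N v = X q v := by
    rw [hN]
    have e1 : ((conj v * v).re : ℂ) = ((‖v‖ ^ 2 : ℝ) : ℂ) := by rw [hvv, Complex.ofReal_re]
    rw [e1]
    unfold X
    congr 2
    have e2 : ((‖v‖ ^ 4 : ℝ) : ℂ) = ((‖v‖ ^ 2 : ℝ) : ℂ) * ((‖v‖ ^ 2 : ℝ) : ℂ) := by
      push_cast; ring
    rw [e2]
    field_simp
    ring
  have hNI : N (I * v) = (((2 * (1 - 2 * q) * w.im : ℝ) : ℂ) +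
      ((2 * (q - 2) * w.re : ℝ) : ℂ) * I) * v := by
    rw [hN]
    have e1 : (conj v * (I * v)).re = 0 := by
      have : conj v * (I * v) = I * ((‖v‖ ^ 2 : ℝ) : ℂ) := by rw [← hvv]; ring
      rw [this, Complex.mul_re, Complex.I_re, Complex.ofReal_im]
      ring
    have e3 : conj (I * v) = -I * (conj w * v) := by
      rw [map_mul, Complex.conj_I, hcv]
    rw [e1, e3]
    have e4 : 3 * v ^ 2 * (I * v) / ((‖v‖ ^ 2 : ℝ) : ℂ) = 3 * I * (w * v) := by
      rw [← hv3]; ring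
    rw [e4, hwb]
    have e5 : w * v = ((w.re : ℂ) + (w.im : ℂ) * I) * v := by rw [← hwc]
    rw [e5]
    push_cast
    linear_combination ((4 * (q : ℂ) - 2) * (w.im : ℂ) * v) * I_sq
  obtain ⟨E, hE⟩ : ∃ E, E = q * (2 - q) * w.re ^ 2 + (2 * q - 1) * w.im ^ 2 := ⟨_, rfl⟩
  have hE0 : 0 < E := by rw [hE]; exact alg h hw1
  refine ⟨w.re, w.im, E, hw1, hE, hX, ?_⟩
  intro s r
  obtain ⟨c, hc⟩ : ∃ c : ℝ, c = 1 / (2 * q - 1) - 1 := ⟨_, rfl⟩
  have hG : G q = psi c ∘ Xi q := by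
    funext x
    rw [hc]
    rfl
  have hGv : G q (X q v) = psi c v := by
    rw [hG, Function.comp_apply, Xi_X h]
  have hd : HasFDerivAt (G q) ((fderiv ℝ (psi c) v).comp (N.symm : ℂ →L[ℝ] ℂ)) (X q v) := by
    rw [hG]
    have h1 : HasFDerivAt (psi c) (fderiv ℝ (psi c) v) (Xi q (X q v)) := by
      rw [Xi_X h]
      exact ((psi_smooth c hv).differentiableAt (by norm_num)).hasFDerivAt
    exact h1.comp _ hN2
  rw [hd.fderiv, hGv, ← hc]
  obtain ⟨l, hl⟩ : ∃ l : ℝ, l = ((2 - q) * w.re * s - (2 * q - 1) * w.im * r) / (2 * E) := ⟨_, rfl⟩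
  obtain ⟨m, hm⟩ : ∃ m : ℝ, m = (-(w.im * s) - q * w.re * r) / (2 * E) := ⟨_, rfl⟩
  -- the decomposition
  have hdec : (s + r * I : ℂ) * v = (l : ℂ) * X q v + (m : ℂ) * N (I * v) := by
    rw [hX, hNI]
    have e1 : l * (2 * q * w.re) + m * (2 * (1 - 2 * q) * w.im) = s := by
      rw [hl, hm]
      have : (((2 - q) * w.re * s - (2 * q - 1) * w.im * r) / (2 * E)) * (2 * q * w.re) +
          ((-(w.im * s) - q * w.re * r) / (2 * E)) * (2 * (1 - 2 * q) * w.im) =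
          s * (q * (2 - q) * w.re ^ 2 + (2 * q - 1) * w.im ^ 2) / E := by
        field_simp
        ring
      rw [this, ← hE, mul_div_assoc, div_self hE0.ne', mul_one]
    have e2 : -(l * (2 * w.im)) + m * (2 * (q - 2) * w.re) = r := by
      rw [hl, hm]
      have : -((((2 - q) * w.re * s - (2 * q - 1) * w.im * r) / (2 * E)) * (2 * w.im)) +
          ((-(w.im * s) - q * w.re * r) / (2 * E)) * (2 * (q - 2) * w.re) =
          r * (q * (2 - q) * w.re ^ 2 + (2 * q - 1) * w.im ^ 2) / E := by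
        field_simp
        ring
      rw [this, ← hE, mul_div_assoc, div_self hE0.ne', mul_one]
    have e3 : (s : ℂ) = (l * (2 * q * w.re) + m * (2 * (1 - 2 * q) * w.im) : ℝ) := by rw [e1]
    have e4 : (r : ℂ) = (-(l * (2 * w.im)) + m * (2 * (q - 2) * w.re) : ℝ) := by rw [e2]
    rw [e3, e4]
    push_cast
    ring
  have h5 : (s + r * I : ℂ) * psi c v = (‖v‖ ^ c) • ((l : ℝ) • N v + (m : ℝ) • N (I * v)) := by
    have : (s + r * I : ℂ) * psi c v = ((‖v‖ ^ c : ℝ) : ℂ) * ((s + r * I : ℂ) * v) := by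
      unfold psi; ring
    rw [this, hdec, hNv, Complex.real_smul, Complex.real_smul, Complex.real_smul]
  rw [h5]
  have h6 : ((fderiv ℝ (psi c) v).comp (N.symm : ℂ →L[ℝ] ℂ))
      ((‖v‖ ^ c) • ((l : ℝ) • N v + (m : ℝ) • N (I * v))) =
      (‖v‖ ^ c) • ((l : ℝ) • fderiv ℝ (psi c) v v + (m : ℝ) • fderiv ℝ (psi c) v (I * v)) := by
    rw [map_smul, map_add, map_smul, map_smul]
    simp
  rw [h6, psi_radial c hv, psi_ang c hv, Complex.real_smul, Complex.real_smul, Complex.real_smul,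
    hl, hm]
  have e7 : (1 + c : ℝ) = 1 / (2 * q - 1) := by rw [hc]; ring
  rw [e7]
  have e8 : ((2 - q) * w.re * s - (2 * q - 1) * w.im * r) / (2 * E) * (1 / (2 * q - 1)) =
      ((2 - q) * w.re * s / (2 * q - 1) - w.im * r) / (2 * E) := by
    field_simp
  rw [← e8]
  push_cast
  ring

end GpgAux

open GpgAux in
/-- UC-GPG (may use `X_deriv`) -/
theorem G_pgrad {K q : ℝ} (h : Par K q) : PGrad K univ (G q) ∧
    ∀ v : ℂ, v ≠ 0 → S (G q) (X q v) ≠ 0 ∧ J K (S (G q) (X q v)) =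
      ((2 * q - 1 : ℝ) : ℂ) * ((‖v‖ ^ (1 - 1 / (2 * q - 1)) : ℝ) : ℂ) * (X q v / v) := by
  have ha : 0 < 2 * q - 1 := by linarith [h.q1]
  have haq : (2 * q - 1) * q = K * (2 - q) := by linarith [h.eq]
  obtain ⟨c, hc⟩ : ∃ c : ℝ, c = 1 / (2 * q - 1) - 1 := ⟨_, rfl⟩
  have hc1 : -1 < c := by
    rw [hc]
    have : 0 < 1 / (2 * q - 1) := by positivity
    linarith
  have hG : G q = psi c ∘ Xi q := by
    funext x
    rw [hc]
    rfl
  have hX0 : X q 0 = 0 := by unfold X; simp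
  have hXi0 : Xi q 0 = 0 := by
    have := Xi_X h 0
    rwa [hX0] at this
  have hGne : ∀ x, G q x ≠ 0 → ∃ v, v ≠ 0 ∧ X q v = x := by
    intro x hx
    refine ⟨Xi q x, ?_, X_Xi h x⟩
    intro h0
    apply hx
    rw [hG, Function.comp_apply, h0]
    unfold psi
    simp
  have hGv : ∀ v, v ≠ 0 → G q (X q v) ≠ 0 := by
    intro v hv
    have hn : 0 < ‖v‖ := norm_pos_iff.2 hv
    rw [hG, Function.comp_apply, Xi_X h]
    unfold psi
    exact mul_ne_zero (by exact_mod_cast (Real.rpow_pos_of_pos hn _).ne') hv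
  -- the values of `S`
  have hS : ∀ v, v ≠ 0 → ∃ c0 s0 E : ℝ, c0 ^ 2 + s0 ^ 2 = 1 ∧ 0 < E ∧
      E = q * (2 - q) * c0 ^ 2 + (2 * q - 1) * s0 ^ 2 ∧
      X q v = (((2 * q * c0 : ℝ) : ℂ) - ((2 * s0 : ℝ) : ℂ) * I) * v ∧
      (S (G q) (X q v)).re = ‖v‖ ^ c * ((2 - q) * c0 / (2 * q - 1) / (2 * E)) ∧
      (S (G q) (X q v)).im = ‖v‖ ^ c * (-s0 / (2 * E)) ∧
      ∀ s r : ℝ, fderiv ℝ (G q) (X q v) ((s + r * I) * G q (X q v)) =
        ((‖v‖ ^ c : ℝ) : ℂ) * (((((2 - q) * c0 * s / (2 * q - 1) - s0 * r) / (2 * E) : ℝ) : ℂ) +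
          (((-(s0 * s) - q * c0 * r) / (2 * E) : ℝ) : ℂ) * I) * G q (X q v) := by
    intro v hv
    obtain ⟨c0, s0, E, h1, h2, h3, h4⟩ := at_point h hv
    rw [← hc] at h4
    have hSv : S (G q) (X q v) = ((‖v‖ ^ c : ℝ) : ℂ) *
        ((((2 - q) * c0 / (2 * q - 1) / (2 * E) : ℝ) : ℂ) + ((-s0 / (2 * E) : ℝ) : ℂ) * I) := by
      have h5 := h4 1 0
      have e1 : (((1 : ℝ) : ℂ) + ((0 : ℝ) : ℂ) * I) * G q (X q v) = G q (X q v) := by simp
      rw [e1] at h5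
      unfold S
      rw [h5, mul_div_assoc, div_self (hGv v hv), mul_one]
      congr 3
      · congr 1; ring
      · congr 2; ring
    refine ⟨c0, s0, E, h1, by rw [h2]; exact alg h h1, h2, h3, ?_, ?_, h4⟩
    · rw [hSv, Complex.re_ofReal_mul, Complex.add_re, Complex.ofReal_re, Complex.re_ofReal_mul,
        Complex.I_re, mul_zero, add_zero]
    · rw [hSv, Complex.im_ofReal_mul, Complex.add_im, Complex.ofReal_im, Complex.im_ofReal_mul,
        Complex.I_im, mul_one, zero_add]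
  refine ⟨⟨isOpen_univ, ?_, ?_, ?_⟩, ?_⟩
  · rw [hG]
    exact ((psi_cont hc1).comp (Xi_cont h)).continuousOn
  · intro z _ hz
    obtain ⟨v, hv, rfl⟩ := hGne z hz
    obtain ⟨N, -, -, -, hN, -⟩ := X_deriv h hv
    rw [hG]
    have h1 : ContDiffAt ℝ ∞ (psi c) (Xi q (X q v)) := by
      rw [Xi_X h]; exact psi_smooth c hv
    exact (h1.comp _ hN).of_le (WithTop.coe_le_coe.2 le_top)
  · intro z _ hz s r
    obtain ⟨v, hv, rfl⟩ := hGne z hz
    obtain ⟨c0, s0, E, h1, hE, h2, h3, hre, him, h4⟩ := hS v hv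
    rw [h4, hre, him]
    have e1 : (‖v‖ ^ c * ((2 - q) * c0 / (2 * q - 1) / (2 * E))) * s +
        (‖v‖ ^ c * (-s0 / (2 * E))) * r =
        ‖v‖ ^ c * (((2 - q) * c0 * s / (2 * q - 1) - s0 * r) / (2 * E)) := by ring
    have e2 : (‖v‖ ^ c * (-s0 / (2 * E))) * s -
        K * (‖v‖ ^ c * ((2 - q) * c0 / (2 * q - 1) / (2 * E))) * r =
        ‖v‖ ^ c * ((-(s0 * s) - q * c0 * r) / (2 * E)) := by
      have e3 : K * (‖v‖ ^ c * ((2 - q) * c0 / (2 * q - 1) / (2 * E))) =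
          ‖v‖ ^ c * (q * c0 / (2 * E)) := by
        have : K * ((2 - q) * c0 / (2 * q - 1) / (2 * E)) = q * c0 / (2 * E) := by
          have e4 : K * ((2 - q) * c0 / (2 * q - 1) / (2 * E)) =
              (K * (2 - q)) * c0 / (2 * q - 1) / (2 * E) := by ring
          rw [e4, ← haq]
          field_simp
        calc K * (‖v‖ ^ c * ((2 - q) * c0 / (2 * q - 1) / (2 * E))) =
            ‖v‖ ^ c * (K * ((2 - q) * c0 / (2 * q - 1) / (2 * E))) := by ring
          _ = _ := by rw [this]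
      rw [e3]
      ring
    rw [e1, e2]
    push_cast
    ring
  · intro v hv
    obtain ⟨c0, s0, E, h1, hE, h2, h3, hre, him, h4⟩ := hS v hv
    have hn : 0 < ‖v‖ := norm_pos_iff.2 hv
    have hr : 0 < ‖v‖ ^ c := Real.rpow_pos_of_pos hn _
    have hq2 : 0 < 2 - q := by linarith [h.q2]
    have hden : K * (S (G q) (X q v)).re ^ 2 + (S (G q) (X q v)).im ^ 2 =
        (‖v‖ ^ c) ^ 2 / (4 * (2 * q - 1) * E) := by
      rw [hre, him]
      have e1 : K * (‖v‖ ^ c * ((2 - q) * c0 / (2 * q - 1) / (2 * E))) ^ 2 +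
          (‖v‖ ^ c * (-s0 / (2 * E))) ^ 2 =
          (‖v‖ ^ c) ^ 2 * ((K * (2 - q)) * (2 - q) * c0 ^ 2 / (2 * q - 1) ^ 2 + s0 ^ 2) /
            (4 * E ^ 2) := by
        field_simp
        ring
      rw [e1, ← haq]
      have e2 : (2 * q - 1) * q * (2 - q) * c0 ^ 2 / (2 * q - 1) ^ 2 + s0 ^ 2 =
          E / (2 * q - 1) := by
        rw [h2]
        field_simp
      rw [e2]
      field_simp
    have hSne : S (G q) (X q v) ≠ 0 := by
      intro h0
      rw [h0] at hden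
      have h5 : 0 < (‖v‖ ^ c) ^ 2 / (4 * (2 * q - 1) * E) := by positivity
      rw [← hden] at h5
      simp at h5
    refine ⟨hSne, ?_⟩
    have hXv : X q v / v = ((2 * q * c0 : ℝ) : ℂ) - ((2 * s0 : ℝ) : ℂ) * I := by
      rw [h3, mul_div_assoc, div_self hv, mul_one]
    unfold J
    rw [hden, hre, him, hXv]
    have hcc : 1 - 1 / (2 * q - 1) = -c := by rw [hc]; ring
    rw [hcc, Real.rpow_neg hn.le]
    have e3 : K * (‖v‖ ^ c * ((2 - q) * c0 / (2 * q - 1) / (2 * E))) =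
        ‖v‖ ^ c * (q * c0) / (2 * E) := by
      have e4 : K * (‖v‖ ^ c * ((2 - q) * c0 / (2 * q - 1) / (2 * E))) =
          ‖v‖ ^ c * ((K * (2 - q)) * c0) / (2 * q - 1) / (2 * E) := by ring
      rw [e4, ← haq]
      field_simp
    rw [e3]
    apply Complex.ext
    · rw [Complex.div_ofReal_re]
      simp only [add_re, mul_re, ofReal_re, I_re, mul_zero, ofReal_im, I_im, mul_one, sub_self,
        add_zero, sub_re, mul_im, zero_mul, sub_zero, sub_im, add_im, zero_add]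
      field_simp
      ring
    · rw [Complex.div_ofReal_im]
      simp only [add_re, mul_re, ofReal_re, I_re, mul_zero, ofReal_im, I_im, mul_one, sub_self,
        add_zero, sub_re, mul_im, zero_mul, sub_zero, sub_im, add_im, zero_add]
      field_simp
      ring

end Pool.Agent.H74.UC
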