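import Pool.Agent.H74.UC.L2

set_option autoImplicit false

open Complex MeasureTheory Set Filter Topology Metric
open scoped ContDiff RealInnerProductSpace ComplexConjugate

namespace Pool.Agent.H74.UC

open Pool.Agent.H74.PH

theorem jet_D_pos {K : ℝ} (hK : 0 < K) {s : ℂ} (hs : s ≠ 0) : 0 < K * s.re ^ 2 + s.im ^ 2 := by
  rcases eq_or_ne s.re 0 with h | h
  · have h2 : s.im ≠ 0 := fun h2 => hs (Complex.ext h h2)
    positivity
  · have := mul_pos hK (pow_pos (abs_pos.2 h) 2)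
    rw [sq_abs] at this
    positivity

theorem jet_J_mul {K : ℝ} (hK : 0 < K) {s : ℂ} (hs : s ≠ 0) :
    J K s * ((K * s.re ^ 2 + s.im ^ 2 : ℝ) : ℂ) = (K * s.re : ℝ) + (s.im : ℝ) * I := by
  unfold J
  have h : ((K * s.re ^ 2 + s.im ^ 2 : ℝ) : ℂ) ≠ 0 := by
    exact_mod_cast (jet_D_pos hK hs).ne'
  rw [div_mul_cancel₀ _ h]

theorem jet_X_div {q : ℝ} {v : ℂ} (hv : ‖v‖ = 1) :
    X q v / v = 2 * ((q * (v ^ 2).re : ℝ) - ((v ^ 2).im : ℝ) * I) := by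
  have h1 : v * conj v = 1 := by
    rw [Complex.mul_conj, Complex.normSq_eq_norm_sq, hv]; norm_num
  have hv0 : v ≠ 0 := by
    rintro rfl
    simp at hv
  have h2 : (v ^ 2).re = v.re ^ 2 - v.im ^ 2 := by rw [sq, Complex.mul_re]; ring
  have h3 : (v ^ 2).im = 2 * v.re * v.im := by rw [sq, Complex.mul_im]; ring
  have h4 : X q v / v = ((q + 1 : ℝ) : ℂ) * conj v ^ 2 + ((q - 1 : ℝ) : ℂ) * v ^ 2 := by
    unfold X
    rw [hv]
    rw [div_eq_iff hv0]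
    have : conj v ^ 2 * v = conj v := by
      calc conj v ^ 2 * v = conj v * (v * conj v) := by ring
        _ = conj v := by rw [h1, mul_one]
    rw [add_mul, mul_assoc, this]
    push_cast
    ring
  rw [h4, h2, h3]
  have hvv : v = (v.re : ℂ) + (v.im : ℂ) * I := (Complex.re_add_im v).symm
  have hvc : conj v = (v.re : ℂ) - (v.im : ℂ) * I := by
    apply Complex.ext <;> simp
  rw [hvc]
  conv_lhs => rw [hvv]
  push_cast
  simp only [Complex.add_re, Complex.ofReal_re, Complex.mul_re, Complex.I_re, mul_zero,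
    Complex.ofReal_im, Complex.I_im, mul_one, sub_zero, add_zero, Complex.add_im, Complex.mul_im,
    zero_add, zero_mul]
  ring_nf
  simp only [Complex.I_sq]
  ring

/-- UC-JET: matching of the `1`-jet of the gradient. -/
theorem jet {K q : ℝ} (h : Par K q) {s : ℂ} (hs : s ≠ 0) : ∃ (R : ℝ) (v : ℂ), 0 < R ∧ ‖v‖ = 1 ∧
    S (G q) (X q v) = R * s := by
  have hK := h.K0
  have hq : 0 < q := by linarith [h.q1]
  have ha : 0 < 2 * q - 1 := by linarith [h.q1]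
  obtain ⟨w, hw⟩ : ∃ w : ℂ, w = ⟨K * s.re / q, -s.im⟩ := ⟨_, rfl⟩
  have hw0 : w ≠ 0 := by
    intro h0
    rw [hw] at h0
    have h1 := congrArg Complex.re h0
    have h2 := congrArg Complex.im h0
    simp only [Complex.zero_re, Complex.zero_im] at h1 h2
    apply hs
    apply Complex.ext
    · have : K * s.re = 0 := by
        rcases div_eq_zero_iff.1 h1 with h3 | h3
        · exact h3
        · exact absurd h3 hq.ne'
      rcases mul_eq_zero.1 this with h3 | h3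
      · exact absurd h3 hK.ne'
      · simpa using h3
    · simpa using h2
  have hwn : 0 < ‖w‖ := norm_pos_iff.2 hw0
  obtain ⟨v, hv⟩ := IsAlgClosed.exists_pow_nat_eq (((‖w‖⁻¹ : ℝ) : ℂ) * w) (n := 2) two_pos
  have hv1 : ‖v‖ = 1 := by
    have h1 : ‖v‖ ^ 2 = 1 := by
      rw [← norm_pow, hv, norm_mul, Complex.norm_real, Real.norm_of_nonneg (by positivity),
        inv_mul_cancel₀ hwn.ne']
    nlinarith [norm_nonneg v]
  have hv0 : v ≠ 0 := by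
    rintro rfl
    simp at hv1
  obtain ⟨hG, hJ⟩ := (G_pgrad h).2 v hv0
  obtain ⟨s', hs'⟩ : ∃ s', s' = S (G q) (X q v) := ⟨_, rfl⟩
  rw [← hs'] at hG hJ
  rw [hv1, Real.one_rpow, Complex.ofReal_one, mul_one, jet_X_div hv1, hv] at hJ
  have hre : (((‖w‖⁻¹ : ℝ) : ℂ) * w).re = ‖w‖⁻¹ * (K * s.re / q) := by
    rw [Complex.re_ofReal_mul, show w.re = K * s.re / q by rw [hw]]
  have him : (((‖w‖⁻¹ : ℝ) : ℂ) * w).im = ‖w‖⁻¹ * (-s.im) := by
    rw [Complex.im_ofReal_mul, show w.im = -s.im by rw [hw]]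
  rw [hre, him] at hJ
  have hD := jet_D_pos hK hG
  obtain ⟨D, hDd⟩ : ∃ D, D = K * s'.re ^ 2 + s'.im ^ 2 := ⟨_, rfl⟩
  have h1 := jet_J_mul hK hG
  rw [hJ] at h1
  rw [← hDd] at h1 hD
  have hl : ((2 * q - 1 : ℝ) : ℂ) * (2 * ((q * (‖w‖⁻¹ * (K * s.re / q)) : ℝ) -
      ((‖w‖⁻¹ * (-s.im) : ℝ) : ℂ) * I)) * ((D : ℝ) : ℂ) =
      (⟨(2 * q - 1) * 2 * ‖w‖⁻¹ * D * (K * s.re), (2 * q - 1) * 2 * ‖w‖⁻¹ * D * s.im⟩ : ℂ) := by
    have : q * (‖w‖⁻¹ * (K * s.re / q)) = ‖w‖⁻¹ * (K * s.re) := by field_simp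
    rw [this]
    rw [← Complex.re_add_im (⟨(2 * q - 1) * 2 * ‖w‖⁻¹ * D * (K * s.re),
      (2 * q - 1) * 2 * ‖w‖⁻¹ * D * s.im⟩ : ℂ)]
    push_cast
    ring
  rw [hl] at h1
  have hr : ((K * s'.re : ℝ) : ℂ) + (s'.im : ℝ) * I = (⟨K * s'.re, s'.im⟩ : ℂ) := by
    apply Complex.ext <;> simp
  rw [hr] at h1
  have e1 : (2 * q - 1) * 2 * ‖w‖⁻¹ * D * (K * s.re) = K * s'.re := congrArg Complex.re h1
  have e2 : (2 * q - 1) * 2 * ‖w‖⁻¹ * D * s.im = s'.im := congrArg Complex.im h1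
  refine ⟨(2 * q - 1) * 2 * ‖w‖⁻¹ * D, v, by positivity, hv1, ?_⟩
  rw [← hs']
  apply Complex.ext
  · rw [Complex.re_ofReal_mul]
    have : K * s'.re = K * ((2 * q - 1) * 2 * ‖w‖⁻¹ * D * s.re) := by rw [← e1]; ring
    exact mul_left_cancel₀ hK.ne' this
  · rw [Complex.im_ofReal_mul, e2]

theorem jet_X_norm {K q : ℝ} (h : Par K q) {v : ℂ} (hv : ‖v‖ = 1) :
    1 ≤ ‖X q v‖ ∧ ‖X q v‖ ≤ 4 := by
  have h1 := h.q1
  have h2 := h.q2
  have h3 : ‖((q + 1 : ℝ) : ℂ) * conj v‖ = q + 1 := by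
    rw [norm_mul, Complex.norm_real, Complex.norm_conj, hv, Real.norm_of_nonneg (by linarith),
      mul_one]
  have h4 : ‖((q - 1 : ℝ) : ℂ) * (v ^ 3 / ((‖v‖ ^ 2 : ℝ) : ℂ))‖ = |q - 1| := by
    rw [norm_mul, Complex.norm_real, norm_div, norm_pow, hv, Real.norm_eq_abs]
    simp
  unfold X
  constructor
  · have := norm_sub_le_norm_add (((q + 1 : ℝ) : ℂ) * conj v)
      (((q - 1 : ℝ) : ℂ) * (v ^ 3 / ((‖v‖ ^ 2 : ℝ) : ℂ)))
    rw [h3, h4] at this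
    refine le_trans ?_ this
    rcases abs_cases (q - 1) with h5 | h5 <;> linarith
  · have := norm_add_le (((q + 1 : ℝ) : ℂ) * conj v)
      (((q - 1 : ℝ) : ℂ) * (v ^ 3 / ((‖v‖ ^ 2 : ℝ) : ℂ)))
    rw [h3, h4] at this
    refine this.trans ?_
    rcases abs_cases (q - 1) with h5 | h5 <;> linarith

/-- UC-JET2: `|S G|` is bounded above and below on `X {|v| = 1}`, and the centre of `G` is `0`. -/
theorem G_bounds {K q : ℝ} (h : Par K q) : ∃ c C : ℝ, 0 < c ∧ 0 < C ∧ ∀ v : ℂ, ‖v‖ = 1 →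
    c ≤ ‖S (G q) (X q v)‖ ∧ ‖S (G q) (X q v)‖ ≤ C := by
  have hK := h.K0
  have hq : 0 < q := by linarith [h.q1]
  have ha : 0 < 2 * q - 1 := by linarith [h.q1]
  obtain ⟨m, hm⟩ : ∃ m, m = min K 1 := ⟨_, rfl⟩
  obtain ⟨M, hM⟩ : ∃ M, M = max K 1 := ⟨_, rfl⟩
  have hm0 : 0 < m := by rw [hm]; exact lt_min hK one_pos
  have hM0 : 0 < M := by rw [hM]; exact lt_max_of_lt_right one_pos
  have hmK : m ≤ K := by rw [hm]; exact min_le_left _ _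
  have hm1 : m ≤ 1 := by rw [hm]; exact min_le_right _ _
  have hKM : K ≤ M := by rw [hM]; exact le_max_left _ _
  have h1M : 1 ≤ M := by rw [hM]; exact le_max_right _ _
  refine ⟨m / (M * ((2 * q - 1) * 4)), M / (m * (2 * q - 1)), by positivity, by positivity,
    fun v hv => ?_⟩
  have hv0 : v ≠ 0 := by
    rintro rfl
    simp at hv
  obtain ⟨hG, hJ⟩ := (G_pgrad h).2 v hv0
  obtain ⟨s, hs⟩ : ∃ s, s = S (G q) (X q v) := ⟨_, rfl⟩
  rw [← hs] at hG hJ ⊢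
  have hn : 0 < ‖s‖ := norm_pos_iff.2 hG
  rw [hv, Real.one_rpow, Complex.ofReal_one, mul_one] at hJ
  have h1 : ‖J K s‖ = (2 * q - 1) * ‖X q v‖ := by
    rw [hJ, norm_mul, Complex.norm_real, norm_div, hv, div_one, Real.norm_of_nonneg ha.le]
  have h2 : ‖J K s‖ * (K * s.re ^ 2 + s.im ^ 2) = ‖(⟨K * s.re, s.im⟩ : ℂ)‖ := by
    have := congrArg norm (jet_J_mul hK hG)
    rw [norm_mul, Complex.norm_real, Real.norm_of_nonneg (jet_D_pos hK hG).le] at this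
    rw [this]
    congr 1
    apply Complex.ext <;> simp
  have h3 : ‖(⟨K * s.re, s.im⟩ : ℂ)‖ ^ 2 = (K * s.re) ^ 2 + s.im ^ 2 := by
    rw [← Complex.normSq_eq_norm_sq, Complex.normSq_mk]; ring
  have h4 : ‖s‖ ^ 2 = s.re ^ 2 + s.im ^ 2 := by
    rw [← Complex.normSq_eq_norm_sq, Complex.normSq_apply]; ring
  have h5 : m * ‖s‖ ≤ ‖(⟨K * s.re, s.im⟩ : ℂ)‖ := by
    apply le_of_sq_le_sq _ (norm_nonneg _)
    rw [h3, mul_pow, h4]
    nlinarith [sq_nonneg s.re, sq_nonneg s.im, mul_self_le_mul_self hm0.le hmK,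
      mul_self_le_mul_self hm0.le hm1]
  have h6 : ‖(⟨K * s.re, s.im⟩ : ℂ)‖ ≤ M * ‖s‖ := by
    apply le_of_sq_le_sq _ (by positivity)
    rw [h3, mul_pow M, h4]
    nlinarith [sq_nonneg s.re, sq_nonneg s.im, mul_self_le_mul_self hK.le hKM,
      mul_self_le_mul_self zero_le_one h1M]
  have h7 : m * ‖s‖ ^ 2 ≤ K * s.re ^ 2 + s.im ^ 2 := by
    rw [h4]; nlinarith [sq_nonneg s.re, sq_nonneg s.im]
  have h8 : K * s.re ^ 2 + s.im ^ 2 ≤ M * ‖s‖ ^ 2 := by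
    rw [h4]; nlinarith [sq_nonneg s.re, sq_nonneg s.im]
  obtain ⟨hX1, hX2⟩ := jet_X_norm h hv
  rw [← h2, h1] at h5 h6
  constructor
  · rw [div_le_iff₀ (by positivity)]
    have h9 : m * ‖s‖ ≤ (2 * q - 1) * 4 * (M * ‖s‖ ^ 2) := by
      refine h5.trans ?_
      gcongr
    have h10 : ‖s‖ * m ≤ ‖s‖ * (‖s‖ * (M * ((2 * q - 1) * 4))) := by nlinarith
    exact le_of_mul_le_mul_left h10 hn
  · rw [le_div_iff₀ (by positivity)]
    have h9 : (2 * q - 1) * 1 * (m * ‖s‖ ^ 2) ≤ M * ‖s‖ := by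
      refine le_trans ?_ h6
      gcongr
    have h10 : ‖s‖ * (‖s‖ * (m * (2 * q - 1))) ≤ ‖s‖ * M := by nlinarith
    exact le_of_mul_le_mul_left h10 hn

theorem G_cen {K q : ℝ} (h : Par K q) {x : ℂ} (hx : x ≠ 0) :
    HasFDerivAt (cen K (2 * q - 1) (G q)) (0 : ℂ →L[ℝ] ℂ) x := by
  have ha : 0 < 2 * q - 1 := by linarith [h.q1]
  have hE : cen K (2 * q - 1) (G q) =ᶠ[𝓝 x] fun _ => 0 := by
    filter_upwards [isOpen_ne.mem_nhds hx] with y hy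
    have hXy := X_Xi h y
    obtain ⟨v, hv⟩ : ∃ v, v = Xi q y := ⟨_, rfl⟩
    have hv0 : v ≠ 0 := by
      rintro rfl
      rw [← hv] at hXy
      apply hy
      rw [← hXy]
      simp [X]
    rw [← hv] at hXy
    obtain ⟨hG, hJ⟩ := (G_pgrad h).2 v hv0
    rw [hXy] at hJ
    show y - J K (S (G q) y) * G q y / (2 * q - 1 : ℝ) = 0
    rw [hJ]
    unfold G
    rw [← hv]
    have hn : 0 < ‖v‖ := norm_pos_iff.2 hv0
    have h1 : ‖v‖ ^ (1 - 1 / (2 * q - 1)) * ‖v‖ ^ (1 / (2 * q - 1) - 1) = 1 := by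
      rw [← Real.rpow_add hn]
      simp
    have h2 : ((‖v‖ ^ (1 - 1 / (2 * q - 1)) : ℝ) : ℂ) * ((‖v‖ ^ (1 / (2 * q - 1) - 1) : ℝ) : ℂ) =
        1 := by
      rw [← Complex.ofReal_mul, h1, Complex.ofReal_one]
    have ha' : ((2 * q - 1 : ℝ) : ℂ) ≠ 0 := by exact_mod_cast ha.ne'
    have h3 : ((2 * q - 1 : ℝ) : ℂ) * ((‖v‖ ^ (1 - 1 / (2 * q - 1)) : ℝ) : ℂ) * (y / v) *
        (((‖v‖ ^ (1 / (2 * q - 1) - 1) : ℝ) : ℂ) * v) / ((2 * q - 1 : ℝ) : ℂ) =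
        (((‖v‖ ^ (1 - 1 / (2 * q - 1)) : ℝ) : ℂ) * ((‖v‖ ^ (1 / (2 * q - 1) - 1) : ℝ) : ℂ)) * y := by
      field_simp
    rw [h3, h2]
    ring
  exact (hasFDerivAt_const (0 : ℂ) x).congr_of_eventuallyEq hE

end Pool.Agent.H74.UC
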