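import Pool.Agent.H74.UC.XDER

set_option autoImplicit false

open Complex MeasureTheory Set Filter Topology Metric
open scoped ContDiff RealInnerProductSpace ComplexConjugate

namespace Pool.Agent.H74.UC

open Pool.Agent.H74.PH

theorem uc1_algebra {q : ℝ} {v k w : ℂ} (hv : v ≠ 0)
    (hw : w = ((q + 1 : ℝ) : ℂ) * conj k + ((q - 1 : ℝ) : ℂ) *
      (3 * v ^ 2 * k / ((‖v‖ ^ 2 : ℝ) : ℂ) - 2 * v ^ 3 * ((conj v * k).re : ℂ) /
        ((‖v‖ ^ 4 : ℝ) : ℂ))) :
    (conj v * w).re = (4 * q - 2) * (v * k).re -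
      2 * (q - 1) * (v ^ 2).re * ((conj v * k).re / ‖v‖ ^ 2) := by
  have hn : ‖v‖ ≠ 0 := norm_ne_zero_iff.2 hv
  have hn2 : ((‖v‖ ^ 2 : ℝ) : ℂ) ≠ 0 := by exact_mod_cast pow_ne_zero 2 hn
  have hvv : conj v * v = ((‖v‖ ^ 2 : ℝ) : ℂ) := by
    rw [mul_comm, Complex.mul_conj, Complex.normSq_eq_norm_sq]
  have h4 : ((‖v‖ ^ 4 : ℝ) : ℂ) = ((‖v‖ ^ 2 : ℝ) : ℂ) ^ 2 := by push_cast; ring
  have e : conj v * w = ((q + 1 : ℝ) : ℂ) * conj (v * k) + ((q - 1 : ℝ) : ℂ) *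
      (3 * (v * k) - 2 * v ^ 2 * (((conj v * k).re / ‖v‖ ^ 2 : ℝ) : ℂ)) := by
    rw [hw, h4, Complex.ofReal_div]
    obtain ⟨n, hnd⟩ : ∃ n, n = ((‖v‖ ^ 2 : ℝ) : ℂ) := ⟨_, rfl⟩
    obtain ⟨r, hrd⟩ : ∃ r, r = (((conj v * k).re : ℝ) : ℂ) := ⟨_, rfl⟩
    rw [← hnd] at hn2 hvv ⊢
    rw [← hrd, map_mul]
    have e1 : conj v * (3 * v ^ 2 * k / n) = 3 * (v * k) := by
      rw [← mul_div_assoc, div_eq_iff hn2, ← hvv]; ring
    have e2 : conj v * (2 * v ^ 3 * r / n ^ 2) = 2 * v ^ 2 * (r / n) := by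
      rw [← mul_div_assoc, div_eq_iff (pow_ne_zero 2 hn2)]
      have : 2 * v ^ 2 * (r / n) * n ^ 2 = 2 * v ^ 2 * r * n := by field_simp
      rw [this, ← hvv]; ring
    calc conj v * (((q + 1 : ℝ) : ℂ) * conj k + ((q - 1 : ℝ) : ℂ) *
          (3 * v ^ 2 * k / n - 2 * v ^ 3 * r / n ^ 2))
        = ((q + 1 : ℝ) : ℂ) * (conj v * conj k) + ((q - 1 : ℝ) : ℂ) *
          (conj v * (3 * v ^ 2 * k / n) - conj v * (2 * v ^ 3 * r / n ^ 2)) := by ring
      _ = _ := by rw [e1, e2]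
  rw [e, Complex.add_re, Complex.re_ofReal_mul, Complex.re_ofReal_mul, Complex.conj_re,
    Complex.sub_re]
  have e3 : (3 * (v * k) : ℂ).re = 3 * (v * k).re := by
    rw [show (3 : ℂ) = ((3 : ℝ) : ℂ) by norm_num, Complex.re_ofReal_mul]
  have e4 : (2 * v ^ 2 * (((conj v * k).re / ‖v‖ ^ 2 : ℝ) : ℂ)).re =
      2 * (v ^ 2).re * ((conj v * k).re / ‖v‖ ^ 2) := by
    rw [Complex.re_mul_ofReal, show (2 : ℂ) = ((2 : ℝ) : ℂ) by norm_num, Complex.re_ofReal_mul]
  rw [e3, e4]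
  ring

/-- the derivative of `a |v|^m Re v²` -/
theorem uc1_F (a m : ℝ) {v : ℂ} (hv : v ≠ 0) : ∃ L : ℂ →L[ℝ] ℝ,
    HasFDerivAt (fun v : ℂ => a * ‖v‖ ^ m * (v ^ 2).re) L v ∧
    ∀ k, L k = ‖v‖ ^ m * (a * m * (v ^ 2).re * ((conj v * k).re / ‖v‖ ^ 2) + 2 * a * (v * k).re) := by
  have hn : 0 < ‖v‖ := norm_pos_iff.2 hv
  have h1 : HasFDerivAt (fun v : ℂ => ‖v‖ ^ 2) (2 • innerSL ℝ v) v :=
    (hasStrictFDerivAt_norm_sq v).hasFDerivAt
  have h2 := h1.rpow_const (p := m / 2) (Or.inl (by positivity))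
  have h3 : (fun v : ℂ => (‖v‖ ^ 2) ^ (m / 2)) = fun v : ℂ => ‖v‖ ^ m := by
    funext v
    rw [← Real.rpow_natCast, ← Real.rpow_mul (norm_nonneg _)]
    congr 1
    push_cast
    ring
  rw [h3] at h2
  have h4 : HasFDerivAt (fun v : ℂ => (v ^ 2).re)
      (Complex.reCLM.comp (((2 * v) • ContinuousLinearMap.id ℂ ℂ).restrictScalars ℝ)) v := by
    have h5 : HasDerivAt (fun v : ℂ => v ^ 2) (2 * v) v := by simpa using hasDerivAt_pow 2 v
    have h6 := h5.hasFDerivAt.restrictScalars ℝ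
    have h7 : HasFDerivAt (fun v : ℂ => v ^ 2)
        (((2 * v) • ContinuousLinearMap.id ℂ ℂ).restrictScalars ℝ) v := by
      refine h6.congr_fderiv ?_
      ext <;> simp [mul_comm]
    exact Complex.reCLM.hasFDerivAt.comp v h7
  have h8 := (h2.const_mul a).mul h4
  refine ⟨_, h8, fun k => ?_⟩
  have h9 : (‖v‖ ^ 2) ^ (m / 2 - 1) = ‖v‖ ^ m / ‖v‖ ^ 2 := by
    rw [← Real.rpow_natCast ‖v‖ 2, ← Real.rpow_mul (norm_nonneg _), ← Real.rpow_sub hn]
    congr 1
    push_cast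
    ring
  have h10 : inner ℝ v k = (conj v * k).re := by
    rw [Complex.inner, mul_comm]
  have h11 : (2 * v * k : ℂ).re = 2 * (v * k).re := by
    rw [mul_assoc, show (2 : ℂ) = ((2 : ℝ) : ℂ) by norm_num, Complex.re_ofReal_mul]
  show (a * ‖v‖ ^ m) * (2 * v * k : ℂ).re + (v ^ 2).re * (a * (m / 2 * (‖v‖ ^ 2) ^ (m / 2 - 1) *
    (((2 : ℕ) • innerSL ℝ v) k))) = _
  have h12 : ((2 : ℕ) • innerSL ℝ v) k = 2 * inner ℝ v k := by
    rw [two_nsmul, two_mul]
    rfl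
  rw [h12, h9, h10, h11]
  ring

theorem uc1_cont {m : ℝ} (hm : -1 < m) : Continuous fun v : ℂ => ((‖v‖ ^ m : ℝ) : ℂ) * v := by
  rw [continuous_iff_continuousAt]
  intro v
  rcases eq_or_ne v 0 with rfl | hv
  · have h1 : Tendsto (fun v : ℂ => ‖v‖ ^ (m + 1)) (𝓝 0) (𝓝 0) := by
      have h2 : Continuous fun v : ℂ => ‖v‖ ^ (m + 1) :=
        continuous_norm.rpow_const fun _ => Or.inr (by linarith)
      have h3 := h2.tendsto 0
      simpa [Real.zero_rpow (show m + 1 ≠ 0 by linarith)] using h3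
    rw [ContinuousAt, mul_zero]
    refine squeeze_zero_norm (fun v => ?_) h1
    rw [norm_mul, Complex.norm_real, Real.norm_of_nonneg (Real.rpow_nonneg (norm_nonneg _) _)]
    rcases eq_or_ne v 0 with rfl | hv
    · simp [Real.zero_rpow (show m + 1 ≠ 0 by linarith)]
    · rw [Real.rpow_add_one (norm_ne_zero_iff.2 hv)]
  · have h1 : ContinuousAt (fun v : ℂ => ‖v‖ ^ m) v :=
      continuous_norm.continuousAt.rpow_const (Or.inl (norm_ne_zero_iff.2 hv))
    exact (Complex.continuous_ofReal.continuousAt.comp h1).mul continuousAt_id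

/-- UC-UC1 (may use `X_deriv`) -/
theorem U_grad {K q : ℝ} (h : Par K q) : ContDiff ℝ 1 (U q) ∧ ∀ x, grad (U q) x = G q x := by
  have ha : 0 < 2 * q - 1 := by linarith [h.q1]
  have hX0 : X q 0 = 0 := by simp [X]
  have hXi0 : Xi q 0 = 0 := by
    have := Xi_X h 0
    rwa [hX0] at this
  have hm : -1 < 1 / (2 * q - 1) - 1 := by
    have : 0 < 1 / (2 * q - 1) := by positivity
    linarith
  have hGc : Continuous (G q) := (uc1_cont hm).comp (Xi_cont h)
  have key : ∀ x, HasFDerivAt (U q) (innerSL ℝ (G q x)) x := by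
    intro x
    rcases eq_or_ne x 0 with rfl | hx
    · have hG0 : G q 0 = 0 := by
        unfold G
        rw [hXi0, mul_zero]
      rw [hG0, map_zero]
      obtain ⟨c, hc, hanti⟩ := X_anti h
      rw [hasFDerivAt_iff_isLittleO_nhds_zero]
      have hU0 : U q 0 = 0 := by
        unfold U
        rw [hXi0]
        simp
      have h1 : Tendsto (fun x : ℂ => (2 * q - 1) * ‖Xi q x‖ ^ (1 / (2 * q - 1)) * c⁻¹) (𝓝 0)
          (𝓝 0) := by
        have h2 : Continuous fun x : ℂ => (2 * q - 1) * ‖Xi q x‖ ^ (1 / (2 * q - 1)) * c⁻¹ :=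
          (continuous_const.mul ((Xi_cont h).norm.rpow_const fun _ => Or.inr (by positivity))).mul
            continuous_const
        have h3 := h2.tendsto 0
        simpa [hXi0, Real.zero_rpow (inv_pos.2 ha).ne'] using h3
      have h4 : ∀ x : ℂ, ‖U q x‖ ≤ (2 * q - 1) * ‖Xi q x‖ ^ (1 / (2 * q - 1)) * c⁻¹ * ‖x‖ := by
        intro x
        obtain ⟨v, hvd⟩ : ∃ v, v = Xi q x := ⟨_, rfl⟩
        have h5 := hanti v 0
        rw [hX0, sub_zero, sub_zero, hvd, X_Xi h x, ← hvd] at h5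
        unfold U
        rw [← hvd]
        rcases eq_or_ne v 0 with rfl | hv
        · simp [Real.zero_rpow (inv_pos.2 ha).ne']
        · have hn := norm_ne_zero_iff.2 hv
          have hn' : 0 < ‖v‖ := norm_pos_iff.2 hv
          rw [Real.rpow_sub_one hn, Real.norm_eq_abs, abs_mul, abs_mul, abs_of_pos ha,
            abs_of_nonneg (by positivity)]
          have h6 : |(v ^ 2).re| ≤ ‖v‖ ^ 2 := by
            rw [← norm_pow]; exact Complex.abs_re_le_norm _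
          have h7 : ‖v‖ ≤ c⁻¹ * ‖x‖ := by
            rw [le_inv_mul_iff₀ hc]; exact h5
          calc (2 * q - 1) * (‖v‖ ^ (1 / (2 * q - 1)) / ‖v‖) * |(v ^ 2).re|
              ≤ (2 * q - 1) * (‖v‖ ^ (1 / (2 * q - 1)) / ‖v‖) * ‖v‖ ^ 2 := by gcongr
            _ = (2 * q - 1) * ‖v‖ ^ (1 / (2 * q - 1)) * ‖v‖ := by field_simp
            _ ≤ (2 * q - 1) * ‖v‖ ^ (1 / (2 * q - 1)) * (c⁻¹ * ‖x‖) := by gcongr
            _ = _ := by ring
      rw [Asymptotics.isLittleO_iff]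
      intro ε hε
      filter_upwards [h1.eventually_lt_const hε] with x hx
      rw [zero_add, hU0, sub_zero, _root_.zero_apply, sub_zero]
      exact (h4 x).trans (mul_le_mul_of_nonneg_right hx.le (norm_nonneg _))
    · have hXx := X_Xi h x
      obtain ⟨v, hvd⟩ : ∃ v, v = Xi q x := ⟨_, rfl⟩
      have hv : v ≠ 0 := by
        rintro rfl
        rw [← hvd, hX0] at hXx
        exact hx hXx.symm
      obtain ⟨N, -, -, hN, -, hNk⟩ := X_deriv h hv
      obtain ⟨L, hL, hLk⟩ := uc1_F (2 * q - 1) (1 / (2 * q - 1) - 1) hv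
      rw [← hvd] at hXx
      rw [hXx] at hN
      have h1 : HasFDerivAt (fun v : ℂ => (2 * q - 1) * ‖v‖ ^ (1 / (2 * q - 1) - 1) * (v ^ 2).re) L
          (Xi q x) := by rw [← hvd]; exact hL
      have h2 := h1.comp x hN
      refine HasFDerivAt.congr_fderiv (f := U q) h2 ?_
      ext1 w
      obtain ⟨k, hk⟩ : ∃ k, k = N.symm w := ⟨_, rfl⟩
      have hw : w = N k := by rw [hk, ContinuousLinearEquiv.apply_symm_apply]
      show L (N.symm w) = inner ℝ (G q x) w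
      rw [← hk, hLk]
      have h3 : inner ℝ (G q x) w = ‖v‖ ^ (1 / (2 * q - 1) - 1) * (conj v * w).re := by
        rw [Complex.inner]
        unfold G
        rw [← hvd, map_mul, Complex.conj_ofReal]
        rw [show w * (((‖v‖ ^ (1 / (2 * q - 1) - 1) : ℝ) : ℂ) * conj v) =
          ((‖v‖ ^ (1 / (2 * q - 1) - 1) : ℝ) : ℂ) * (conj v * w) by ring, Complex.re_ofReal_mul]
      rw [h3, uc1_algebra hv (hw.trans (hNk k))]
      have h4 : (2 * q - 1) * (1 / (2 * q - 1) - 1) = 2 - 2 * q := by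
        field_simp
        ring
      rw [h4]
      ring
  constructor
  · rw [contDiff_one_iff_fderiv]
    refine ⟨fun x => (key x).differentiableAt, ?_⟩
    have : fderiv ℝ (U q) = fun x => innerSL ℝ (G q x) := by
      ext1 x
      exact (key x).fderiv
    rw [this]
    exact (innerSL ℝ).continuous.comp hGc
  · intro x
    unfold grad
    rw [(key x).fderiv]
    apply Complex.ext
    · simp [innerSL_apply_apply, Complex.inner]
    · simp [innerSL_apply_apply, Complex.inner]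

end Pool.Agent.H74.UC
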