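import Pool.Agent.H74.UC.XLIP

/-! # Project UC, stub UC-XDER -/

set_option autoImplicit false

open Complex MeasureTheory Set Filter Topology Metric
open scoped ContDiff RealInnerProductSpace ComplexConjugate

namespace Pool.Agent.H74.UC

open Pool.Agent.H74.PH

namespace XDER

theorem inner_eq (v k : ℂ) : (innerSL ℝ v) k = (conj v * k).re := by
  rw [innerSL_apply_apply, Complex.inner, mul_comm]

/-- the derivative of `X q` at `v` as a continuous linear map -/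
theorem hasFDerivAt_X (q : ℝ) {v : ℂ} (hv : v ≠ 0) : ∃ N : ℂ →L[ℝ] ℂ,
    HasFDerivAt (X q) N v ∧
    ∀ k : ℂ, N k = ((q + 1 : ℝ) : ℂ) * conj k + ((q - 1 : ℝ) : ℂ) *
      (3 * v ^ 2 * k / ((‖v‖ ^ 2 : ℝ) : ℂ) - 2 * v ^ 3 * ((conj v * k).re : ℂ) /
        ((‖v‖ ^ 4 : ℝ) : ℂ)) := by
  have hn : 0 < ‖v‖ := norm_pos_iff.2 hv
  have h1 : HasFDerivAt (fun x : ℂ => ‖x‖ ^ 2) (2 • innerSL ℝ v) v :=
    (hasStrictFDerivAt_norm_sq v).hasFDerivAt
  have h2 : HasFDerivAt (fun x : ℂ => (‖x‖ ^ 2)⁻¹) _ v :=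
    (hasDerivAt_inv (pow_ne_zero 2 hn.ne')).comp_hasFDerivAt v h1
  have h3 : HasFDerivAt (fun x : ℂ => x ^ 3) _ v := (hasDerivAt_pow 3 v).hasFDerivAt.restrictScalars ℝ
  have h4 := h2.smul h3
  have h5 : HasFDerivAt (fun x : ℂ => conj x) (conjCLE : ℂ →L[ℝ] ℂ) v := conjCLE.hasFDerivAt
  have h6 := (h5.const_smul (q + 1)).add (h4.const_smul (q - 1))
  refine ⟨_, h6.congr_of_eventuallyEq (Eventually.of_forall fun x => ?_), fun k => ?_⟩
  · simp only [X, Pi.add_apply, Pi.smul_apply, Pi.smul_apply', Complex.real_smul]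
    push_cast
    ring
  · have hn' : ((‖v‖ : ℝ) : ℂ) ≠ 0 := by exact_mod_cast hn.ne'
    simp only [add_apply, smul_apply, ContinuousLinearMap.smulRight_apply,
      ContinuousLinearMap.coe_restrictScalars', ContinuousLinearMap.toSpanSingleton_apply,
      Complex.real_smul, ContinuousLinearEquiv.coe_coe, conjCLE_apply, nsmul_eq_mul, inner_eq,
      smul_eq_mul]
    push_cast
    field_simp
    ring

end XDER

/-- UC-XDER -/
theorem X_deriv {K q : ℝ} (h : Par K q) {v : ℂ} (hv : v ≠ 0) : ∃ N : ℂ ≃L[ℝ] ℂ,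
    HasFDerivAt (X q) (N : ℂ →L[ℝ] ℂ) v ∧ ContDiffAt ℝ ∞ (X q) v ∧
    HasFDerivAt (Xi q) (N.symm : ℂ →L[ℝ] ℂ) (X q v) ∧ ContDiffAt ℝ ∞ (Xi q) (X q v) ∧
    ∀ k : ℂ, N k = ((q + 1 : ℝ) : ℂ) * conj k + ((q - 1 : ℝ) : ℂ) *
      (3 * v ^ 2 * k / ((‖v‖ ^ 2 : ℝ) : ℂ) - 2 * v ^ 3 * ((conj v * k).re : ℂ) /
        ((‖v‖ ^ 4 : ℝ) : ℂ)) := by
  have hn : 0 < ‖v‖ := norm_pos_iff.2 hv
  obtain ⟨N0, hN0, hNk⟩ := XDER.hasFDerivAt_X q hv
  obtain ⟨c, hc, hanti⟩ := X_anti h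
  -- `N0` is bounded below
  have hlow : ∀ k : ℂ, c * ‖k‖ ≤ ‖N0 k‖ := by
    intro k
    have h1 : HasDerivAt (fun t : ℝ => X q (v + t • k)) (N0 k) 0 := by
      have hl : HasDerivAt (fun t : ℝ => v + t • k) k 0 := by
        simpa using ((hasDerivAt_id (0 : ℝ)).smul_const k).const_add v
      have hN0' : HasFDerivAt (X q) N0 (v + (0 : ℝ) • k) := by simpa using hN0
      exact hN0'.comp_hasDerivAt (0 : ℝ) hl
    rw [hasDerivAt_iff_tendsto_slope_zero] at h1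
    refine ge_of_tendsto h1.norm ?_
    filter_upwards [self_mem_nhdsWithin] with t ht
    have ht' : t ≠ 0 := ht
    simp only [zero_add, zero_smul, add_zero]
    rw [norm_smul, norm_inv, Real.norm_eq_abs]
    have h2 := hanti (v + t • k) v
    rw [add_sub_cancel_left, norm_smul, Real.norm_eq_abs] at h2
    rw [← div_eq_inv_mul, le_div_iff₀ (abs_pos.2 ht')]
    linarith
  have hinj : Function.Injective (N0 : ℂ →ₗ[ℝ] ℂ) := by
    rw [← LinearMap.ker_eq_bot, LinearMap.ker_eq_bot']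
    intro k hk
    have := hlow k
    have hk' : N0 k = 0 := hk
    rw [hk', norm_zero] at this
    have h3 : ‖k‖ ≤ 0 := by
      by_contra hcon
      push Not at hcon
      nlinarith
    exact norm_le_zero_iff.1 h3
  set N : ℂ ≃L[ℝ] ℂ := (LinearEquiv.ofInjectiveEndo (N0 : ℂ →ₗ[ℝ] ℂ) hinj).toContinuousLinearEquiv
    with hN
  have hNe : (N : ℂ →L[ℝ] ℂ) = N0 := by
    ext1 k
    rfl
  have hd : HasFDerivAt (X q) (N : ℂ →L[ℝ] ℂ) v := by rw [hNe]; exact hN0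
  have hsm : ContDiffAt ℝ ∞ (X q) v := by
    have hX : X q = fun v : ℂ => ((q + 1 : ℝ) : ℂ) * conj v + ((q - 1 : ℝ) : ℂ) *
        (v ^ 3 * (((‖v‖ ^ 2 : ℝ) : ℂ))⁻¹) := by
      funext x
      rw [X, div_eq_mul_inv]
    rw [hX]
    refine (contDiffAt_const.mul conjCLE.contDiff.contDiffAt).add (contDiffAt_const.mul
      ((contDiffAt_id.pow 3).mul (ContDiffAt.inv ?_ ?_)))
    · exact ofRealCLM.contDiff.contDiffAt.comp v (contDiff_norm_sq ℝ).contDiffAt
    · exact_mod_cast (pow_ne_zero 2 hn.ne')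
  have hXc : Continuous (X q) := by
    refine (LipschitzWith.of_dist_le_mul (K := 6) fun x y => ?_).continuous
    rw [dist_eq_norm, dist_eq_norm]
    exact X_lip h x y
  let Φ : ℂ ≃ₜ ℂ :=
    { toFun := X q
      invFun := Xi q
      left_inv := Xi_X h
      right_inv := X_Xi h
      continuous_toFun := hXc
      continuous_invFun := Xi_cont h }
  refine ⟨N, hd, hsm, ?_, ?_, fun k => ?_⟩
  · refine HasFDerivAt.of_local_left_inverse (Xi_cont h).continuousAt ?_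
      (Eventually.of_forall (X_Xi h))
    rw [Xi_X h]
    exact hd
  · have := Φ.toOpenPartialHomeomorph.contDiffAt_symm (n := ∞) (𝕜 := ℝ) (f₀' := N) (a := X q v)
      (mem_univ _) (by
        show HasFDerivAt (X q) (N : ℂ →L[ℝ] ℂ) (Xi q (X q v))
        rw [Xi_X h]; exact hd) (by
        show ContDiffAt ℝ ∞ (X q) (Xi q (X q v))
        rw [Xi_X h]; exact hsm)
    exact this
  · rw [← hNk k, ← hNe]
    rfl

end Pool.Agent.H74.UC
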