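import Pool.Agent.H74.UC.L1
import Pool.Agent.H74.UC.ARCS
import Pool.Agent.H74.UC.COMP
import Pool.Agent.H74.UC.XDER
import Pool.Agent.H74.UC.GPG
import Pool.Agent.H74.UC.UC1
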