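import Pool.Agent.H74.UC.L2

/-! # Project UC, stub TOPO (helper82) -/

set_option autoImplicit false

open Complex MeasureTheory Set Filter Topology Metric
open scoped ContDiff RealInnerProductSpace ComplexConjugate

namespace Pool.Agent.H74.UC

open Pool.Agent.H74.PH

namespace TOP

/-- the direction `e^(i π m / 3)` -/
noncomputable def dir (m : ℕ) : ℂ := exp (((Real.pi * m / 3 : ℝ) : ℂ) * I)

lemma norm_dir (m : ℕ) : ‖dir m‖ = 1 := norm_exp_ofReal_mul_I _

lemma dir_cube (m : ℕ) : dir m ^ 3 = (-1) ^ m := by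
  unfold dir
  rw [← Complex.exp_nat_mul]
  have e : ((3 : ℕ) : ℂ) * (((Real.pi * m / 3 : ℝ) : ℂ) * I) = (m : ℕ) * (Real.pi * I) := by
    push_cast
    ring
  rw [e, Complex.exp_nat_mul, Complex.exp_pi_mul_I]

lemma re_even (m : ℕ) (hm : Even m) (r : ℝ) : (((r : ℂ) * dir m) ^ 3).re = r ^ 3 := by
  rw [mul_pow, dir_cube, hm.neg_one_pow, mul_one]
  norm_cast

lemma re_odd (m : ℕ) (hm : Odd m) (r : ℝ) : (((r : ℂ) * dir m) ^ 3).re = - r ^ 3 := by
  rw [mul_pow, dir_cube, hm.neg_one_pow]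
  have : (r : ℂ) ^ 3 * (-1) = ((-(r ^ 3) : ℝ) : ℂ) := by push_cast; ring
  rw [this, Complex.ofReal_re]

lemma norm_ray (r : ℝ) (hr : 0 ≤ r) (m : ℕ) : ‖(r : ℂ) * dir m‖ = r := by
  rw [norm_mul, norm_dir, mul_one, Complex.norm_real, Real.norm_eq_abs, abs_of_nonneg hr]

/-- a path avoids a neighbourhood of a point outside -/
lemma avoid {S : Set ℂ} {x y : ℂ} (h : JoinedIn S x y) (h0 : (0 : ℂ) ∉ S) :
    ∃ ε : ℝ, 0 < ε ∧ JoinedIn {z | z ∈ S ∧ ε ≤ ‖z‖} x y := by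
  obtain ⟨γ, hγ⟩ := h
  obtain ⟨t0, -, ht0⟩ := isCompact_univ.exists_isMinOn (univ_nonempty (α := unitInterval))
    (γ.continuous.norm.continuousOn (s := univ))
  refine ⟨‖γ t0‖, norm_pos_iff.2 fun h => h0 (h ▸ hγ t0), γ, fun t => ⟨hγ t, ?_⟩⟩
  exact ht0 (mem_univ t)

/-- radial points outside of a convex set -/
lemma not_mem_of_gt {D : Set ℂ} (hc : Convex ℝ D) (h0 : (0 : ℂ) ∈ interior D) {y : ℂ}
    (hy : y ∈ frontier D) {l : ℝ} (hl : 1 < l) : (l : ℂ) * y ∉ D := by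
  intro h
  have h1 := hc.openSegment_interior_self_subset_interior h0 h
  have h2 : y ∈ openSegment ℝ (0 : ℂ) ((l : ℂ) * y) := by
    refine ⟨1 - 1 / l, 1 / l, ?_, by positivity, by ring, ?_⟩
    · have : 1 / l < 1 := by rw [div_lt_one (by linarith)]; exact hl
      linarith
    · rw [smul_zero, zero_add, Complex.real_smul, ← mul_assoc, ← Complex.ofReal_mul,
        one_div_mul_cancel (by linarith), Complex.ofReal_one, one_mul]
  exact hy.2 (h1 h2)

end TOP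

open TOP in
/-- UC-TOPO (from `two_arcs`) -/
theorem topo {D : Set ℂ} (hD : IsCompact D) (hc : Convex ℝ D) (h0 : (0 : ℂ) ∈ interior D)
    {W : ℂ → ℝ} (hW : ContinuousOn W D)
    (hexp : (fun ζ : ℂ => W ζ - (ζ ^ 3).re) =o[𝓝 0] (fun ζ : ℂ => ‖ζ‖ ^ 3))
    (hT : ∀ x ∈ D, W x ≠ 0 → ∃ y ∈ frontier D, JoinedIn {z | z ∈ D ∧ 0 < W x * W z} x y)
    {A1 A2 : Set ℂ} (hcov : ∀ z ∈ frontier D, 0 < W z → z ∈ A1 ∨ z ∈ A2)
    (hA1 : ∀ x ∈ A1, ∀ y ∈ A1, JoinedIn {z | z ∈ D ∧ 0 < W z} x y)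
    (hA2 : ∀ x ∈ A2, ∀ y ∈ A2, JoinedIn {z | z ∈ D ∧ 0 < W z} x y) : False := by
  -- the radius
  have e1 := hexp.def (c := 1 / 2) (by norm_num)
  have e2 : D ∈ 𝓝 (0 : ℂ) := mem_interior_iff_mem_nhds.1 h0
  obtain ⟨r0, hr0, hr0'⟩ := Metric.nhds_basis_closedBall.mem_iff.1 (Filter.inter_mem e1 e2)
  have hWr : ∀ ζ : ℂ, ‖ζ‖ ≤ r0 → |W ζ - (ζ ^ 3).re| ≤ 1 / 2 * ‖ζ‖ ^ 3 ∧ ζ ∈ D := by
    intro ζ hζ
    have h := hr0' (mem_closedBall_zero_iff.2 hζ)
    refine ⟨?_, h.2⟩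
    have h1 : ‖W ζ - (ζ ^ 3).re‖ ≤ 1 / 2 * ‖‖ζ‖ ^ 3‖ := h.1
    rwa [Real.norm_eq_abs, Real.norm_eq_abs, abs_of_nonneg (by positivity : 0 ≤ ‖ζ‖ ^ 3)] at h1
  have hW0 : W 0 = 0 := by
    have h := (hWr 0 (by rw [norm_zero]; exact hr0.le)).1
    simpa using h
  have pos : ∀ (m : ℕ) (r : ℝ), Even m → 0 < r → r ≤ r0 → 0 < W ((r : ℂ) * dir m) := by
    intro m r hm hr hr'
    have h := (hWr ((r : ℂ) * dir m) (by rw [norm_ray r hr.le]; exact hr')).1
    rw [norm_ray r hr.le, re_even m hm] at h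
    have := (abs_le.1 h).1
    have : 0 < r ^ 3 := by positivity
    linarith
  have neg : ∀ (m : ℕ) (r : ℝ), Odd m → 0 < r → r ≤ r0 → W ((r : ℂ) * dir m) < 0 := by
    intro m r hm hr hr'
    have h := (hWr ((r : ℂ) * dir m) (by rw [norm_ray r hr.le]; exact hr')).1
    rw [norm_ray r hr.le, re_odd m hm] at h
    have := (abs_le.1 h).2
    have : 0 < r ^ 3 := by positivity
    linarith
  have memD : ∀ (m : ℕ) (r : ℝ), 0 ≤ r → r ≤ r0 → (r : ℂ) * dir m ∈ D := by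
    intro m r hr hr'
    exact (hWr ((r : ℂ) * dir m) (by rw [norm_ray r hr]; exact hr')).2
  -- the negative rays
  have negp : ∀ m : ℕ, Odd m → ∃ y ∈ frontier D, ∃ ε : ℝ, 0 < ε ∧
      JoinedIn {z | (z ∈ D ∧ W z < 0) ∧ ε ≤ ‖z‖} ((r0 : ℂ) * dir m) y := by
    intro m hm
    have hn := neg m r0 hm hr0 le_rfl
    obtain ⟨y, hy, hj⟩ := hT _ (memD m r0 hr0.le le_rfl) hn.ne
    have hj2 : JoinedIn {z | z ∈ D ∧ W z < 0} ((r0 : ℂ) * dir m) y :=
      hj.mono fun z hz => ⟨hz.1, by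
        by_contra h
        push Not at h
        exact absurd hz.2 (not_lt.2 (mul_nonpos_of_nonpos_of_nonneg hn.le h))⟩
    obtain ⟨ε, hε, hj3⟩ := avoid hj2 (by
      rintro ⟨-, h⟩
      rw [hW0] at h
      exact lt_irrefl _ h)
    exact ⟨y, hy, ε, hε, hj3⟩
  -- two positive rays are joined
  have posp : ∀ m : ℕ, Even m → ∃ y, JoinedIn {z | z ∈ D ∧ 0 < W z} ((r0 : ℂ) * dir m) y ∧
      (y ∈ A1 ∨ y ∈ A2) := by
    intro m hm
    have hn := pos m r0 hm hr0 le_rfl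
    obtain ⟨y, hy, hj⟩ := hT _ (memD m r0 hr0.le le_rfl) hn.ne'
    have hj2 : JoinedIn {z | z ∈ D ∧ 0 < W z} ((r0 : ℂ) * dir m) y :=
      hj.mono fun z hz => ⟨hz.1, pos_of_mul_pos_right hz.2 hn.le⟩
    exact ⟨y, hj2, hcov y hy hj2.target_mem.2⟩
  have pair : ∃ j k : ℕ, Even j ∧ Even k ∧ j < k ∧ k ≤ 4 ∧
      JoinedIn {z | z ∈ D ∧ 0 < W z} ((r0 : ℂ) * dir j) ((r0 : ℂ) * dir k) := by
    obtain ⟨y0, j0, c0⟩ := posp 0 (by decide)
    obtain ⟨y2, j2, c2⟩ := posp 2 (by decide)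
    obtain ⟨y4, j4, c4⟩ := posp 4 (by decide)
    have q1 : ∀ y y', y ∈ A1 → y' ∈ A1 → JoinedIn {z | z ∈ D ∧ 0 < W z} y y' :=
      fun y y' h h' => hA1 y h y' h'
    have q2 : ∀ y y', y ∈ A2 → y' ∈ A2 → JoinedIn {z | z ∈ D ∧ 0 < W z} y y' :=
      fun y y' h h' => hA2 y h y' h'
    rcases c0 with c0 | c0 <;> rcases c2 with c2 | c2 <;> rcases c4 with c4 | c4
    · exact ⟨0, 2, by decide, by decide, by omega, by omega, (j0.trans (q1 _ _ c0 c2)).trans j2.symm⟩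
    · exact ⟨0, 2, by decide, by decide, by omega, by omega, (j0.trans (q1 _ _ c0 c2)).trans j2.symm⟩
    · exact ⟨0, 4, by decide, by decide, by omega, by omega, (j0.trans (q1 _ _ c0 c4)).trans j4.symm⟩
    · exact ⟨2, 4, by decide, by decide, by omega, by omega, (j2.trans (q2 _ _ c2 c4)).trans j4.symm⟩
    · exact ⟨2, 4, by decide, by decide, by omega, by omega, (j2.trans (q1 _ _ c2 c4)).trans j4.symm⟩
    · exact ⟨0, 4, by decide, by decide, by omega, by omega, (j0.trans (q2 _ _ c0 c4)).trans j4.symm⟩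
    · exact ⟨0, 2, by decide, by decide, by omega, by omega, (j0.trans (q2 _ _ c0 c2)).trans j2.symm⟩
    · exact ⟨0, 2, by decide, by decide, by omega, by omega, (j0.trans (q2 _ _ c0 c2)).trans j2.symm⟩
  obtain ⟨j, k, hj, hk, hjk, hk4, hJ⟩ := pair
  obtain ⟨ε0, hε0, hJ0⟩ := avoid hJ (by
    rintro ⟨-, h⟩
    rw [hW0] at h
    exact lt_irrefl _ h)
  obtain ⟨y1, hy1, ε1, hε1, hJ1⟩ := negp (j + 1) hj.add_one
  obtain ⟨y2, hy2, ε2, hε2, hJ2⟩ := negp (k + 1) hk.add_one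
  -- the radius of the small circle
  obtain ⟨δ, hδ, d0, d1, d2, d3⟩ : ∃ δ : ℝ, 0 < δ ∧ δ < ε0 ∧ δ < ε1 ∧ δ < ε2 ∧ δ < r0 := by
    refine ⟨min (min ε0 ε1) (min ε2 r0) / 2, by positivity, ?_, ?_, ?_, ?_⟩
    · have : min (min ε0 ε1) (min ε2 r0) ≤ ε0 := (min_le_left _ _).trans (min_le_left _ _)
      have : 0 < min (min ε0 ε1) (min ε2 r0) := by positivity
      linarith
    · have : min (min ε0 ε1) (min ε2 r0) ≤ ε1 := (min_le_left _ _).trans (min_le_right _ _)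
      have : 0 < min (min ε0 ε1) (min ε2 r0) := by positivity
      linarith
    · have : min (min ε0 ε1) (min ε2 r0) ≤ ε2 := (min_le_right _ _).trans (min_le_left _ _)
      have : 0 < min (min ε0 ε1) (min ε2 r0) := by positivity
      linarith
    · have : min (min ε0 ε1) (min ε2 r0) ≤ r0 := (min_le_right _ _).trans (min_le_right _ _)
      have : 0 < min (min ε0 ε1) (min ε2 r0) := by positivity
      linarith
  obtain ⟨R, hR⟩ : ∃ R : ℝ, ∀ z ∈ D, ‖z‖ < R := by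
    obtain ⟨R, hR⟩ := hD.isBounded.exists_norm_le
    exact ⟨R + 1, fun z hz => (hR z hz).trans_lt (by linarith)⟩
  have hδR : δ < R := by
    have h := hR _ (memD 0 r0 hr0.le le_rfl)
    rw [norm_ray r0 hr0.le] at h
    exact d3.trans h
  have hR0 : 0 < R := hδ.trans hδR
  set B : Set ℂ := {z | z ∈ D ∧ 0 < W z ∧ δ ≤ ‖z‖} with hB
  -- norms of the points of an arc
  have arcn : ∀ α β : ℝ, ∀ z ∈ arc δ α β, ‖z‖ = δ := by
    rintro α β _ ⟨θ, -, rfl⟩
    show ‖(δ : ℂ) * exp (θ * I)‖ = δ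
    rw [norm_mul, norm_exp_ofReal_mul_I, mul_one, Complex.norm_real, Real.norm_eq_abs,
      abs_of_pos hδ]
  -- escape to infinity
  have esc : ∀ (n : ℕ) (y : ℂ) (ε : ℝ), Odd n → y ∈ frontier D →
      JoinedIn {z | (z ∈ D ∧ W z < 0) ∧ ε ≤ ‖z‖} ((r0 : ℂ) * dir n) y → δ < ε → ∀ α β : ℝ,
      (∀ θ ∈ Icc α β, ∀ l : ℤ, θ ≠ Real.pi * n / 3 + 2 * Real.pi * l) →
      ∃ p : ℂ, R ≤ ‖p‖ ∧ JoinedIn (B ∪ arc δ α β)ᶜ 0 p := by
    intro n y ε hn hy hJn hε α β hang
    have hyn : ε ≤ ‖y‖ := hJn.target_mem.2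
    have hy0 : 0 < ‖y‖ := by linarith
    have hyW : W y < 0 := hJn.target_mem.1.2
    -- the first segment
    have s1 : JoinedIn (B ∪ arc δ α β)ᶜ 0 ((r0 : ℂ) * dir n) := by
      refine JoinedIn.of_segment_subset ?_
      rintro z ⟨a, b, ha, hb, hab, rfl⟩
      have e : a • (0 : ℂ) + b • ((r0 : ℂ) * dir n) = ((b * r0 : ℝ) : ℂ) * dir n := by
        rw [smul_zero, zero_add, Complex.real_smul]
        push_cast
        ring
      rw [e]
      have hbr : 0 ≤ b * r0 := by positivity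
      have hbr1 : b * r0 ≤ r0 := by nlinarith
      rintro (h | h)
      · obtain ⟨-, h2, h3⟩ := h
        rw [norm_ray _ hbr] at h3
        have := neg n (b * r0) hn (hδ.trans_le h3) hbr1
        linarith
      · have h4 := arcn α β _ h
        rw [norm_ray _ hbr] at h4
        obtain ⟨θ, hθ, h5⟩ := h
        have h6 : (δ : ℂ) * exp (θ * I) = ((b * r0 : ℝ) : ℂ) * dir n := h5
        rw [h4] at h6
        have h7 : exp (θ * I) = dir n :=
          mul_left_cancel₀ (by exact_mod_cast hδ.ne' : (δ : ℂ) ≠ 0) h6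
        unfold dir at h7
        obtain ⟨l, hl⟩ := Complex.exp_eq_exp_iff_exists_int.1 h7
        refine hang θ hθ l ?_
        have h8 : (θ : ℂ) * I = ((Real.pi * n / 3 + 2 * Real.pi * l : ℝ) : ℂ) * I := by
          rw [hl]
          push_cast
          ring
        exact_mod_cast mul_right_cancel₀ Complex.I_ne_zero h8
    -- the path
    have s2 : JoinedIn (B ∪ arc δ α β)ᶜ ((r0 : ℂ) * dir n) y := by
      refine hJn.mono fun z hz => ?_
      rintro (h | h)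
      · exact absurd h.2.1 (not_lt.2 hz.1.2.le)
      · have := arcn α β _ h
        have := hz.2
        linarith
    -- the radial segment
    set l : ℝ := 1 + R / ‖y‖ with hl
    have hl1 : 1 < l := by
      have : 0 < R / ‖y‖ := by positivity
      linarith
    have s3 : JoinedIn (B ∪ arc δ α β)ᶜ y ((l : ℂ) * y) := by
      refine JoinedIn.of_segment_subset ?_
      rintro z ⟨a, b, ha, hb, hab, rfl⟩
      have e : a • y + b • ((l : ℂ) * y) = ((a + b * l : ℝ) : ℂ) * y := by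
        rw [Complex.real_smul, Complex.real_smul]
        push_cast
        ring
      rw [e]
      have h1 : 1 ≤ a + b * l := by nlinarith
      have hn2 : ‖((a + b * l : ℝ) : ℂ) * y‖ = (a + b * l) * ‖y‖ := by
        rw [norm_mul, Complex.norm_real, Real.norm_eq_abs, abs_of_nonneg (by linarith)]
      rintro (h | h)
      · rcases h1.eq_or_lt with h2 | h2
        · rw [← h2, Complex.ofReal_one, one_mul] at h
          exact absurd h.2.1 (not_lt.2 hyW.le)
        · exact not_mem_of_gt hc h0 hy h2 h.1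
      · have h3 := arcn α β _ h
        rw [hn2] at h3
        nlinarith
    refine ⟨(l : ℂ) * y, ?_, (s1.trans s2).trans s3⟩
    rw [norm_mul, Complex.norm_real, Real.norm_eq_abs, abs_of_pos (by linarith), hl, add_mul,
      one_mul, div_mul_cancel₀ _ hy0.ne']
    linarith
  -- the positive path
  have ray : ∀ m : ℕ, Even m → JoinedIn B ((δ : ℂ) * dir m) ((r0 : ℂ) * dir m) := by
    intro m hm
    refine JoinedIn.of_segment_subset ?_
    rintro z ⟨a, b, ha, hb, hab, rfl⟩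
    have e : a • ((δ : ℂ) * dir m) + b • ((r0 : ℂ) * dir m) = ((a * δ + b * r0 : ℝ) : ℂ) * dir m := by
      rw [Complex.real_smul, Complex.real_smul]
      push_cast
      ring
    rw [e]
    have h1 : δ ≤ a * δ + b * r0 := by nlinarith
    have h2 : a * δ + b * r0 ≤ r0 := by nlinarith
    exact ⟨memD m _ (by linarith) h2, pos m _ hm (by linarith) h2, by
      rw [norm_ray _ (by linarith)]; exact h1⟩
  have hBj : JoinedIn B ((δ : ℂ) * dir j) ((δ : ℂ) * dir k) := by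
    refine ((ray j hj).trans (hJ0.mono fun z hz => ?_)).trans (ray k hk).symm
    exact ⟨hz.1.1, hz.1.2, d0.le.trans hz.2⟩
  have hpi := Real.pi_pos
  have hjk' : (j : ℝ) + 2 ≤ k := by
    have : j + 2 ≤ k := by
      rcases hj with ⟨a, rfl⟩
      rcases hk with ⟨b, rfl⟩
      omega
    exact_mod_cast this
  have hk4' : (k : ℝ) ≤ 4 := by exact_mod_cast hk4
  have hj0' : (0 : ℝ) ≤ j := by positivity
  obtain ⟨p1, hp1, hq1⟩ := esc (k + 1) y2 ε2 hk.add_one hy2 hJ2 d2 (Real.pi * j / 3)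
    (Real.pi * k / 3) (by
      intro θ hθ l hl
      rw [hl] at hθ
      obtain ⟨h1, h2⟩ := hθ
      push_cast at h1 h2
      have h3 : (l : ℝ) < 0 := by
        by_contra h
        push Not at h
        nlinarith [mul_nonneg hpi.le h]
      have h4 : (-1 : ℝ) < l := by
        by_contra h
        push Not at h
        nlinarith [mul_nonneg hpi.le (by linarith : (0 : ℝ) ≤ -1 - l),
          mul_le_mul_of_nonneg_left hk4' hpi.le, mul_nonneg hpi.le hj0']
      have h5 : l < 0 := by exact_mod_cast h3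
      have h6 : (-1 : ℤ) < l := by exact_mod_cast h4
      omega)
  obtain ⟨p2, hp2, hq2⟩ := esc (j + 1) y1 ε1 hj.add_one hy1 hJ1 d1 (Real.pi * k / 3)
    (Real.pi * j / 3 + 2 * Real.pi) (by
      intro θ hθ l hl
      rw [hl] at hθ
      obtain ⟨h1, h2⟩ := hθ
      push_cast at h1 h2
      have h3 : (0 : ℝ) < l := by
        by_contra h
        push Not at h
        nlinarith [mul_nonneg hpi.le (by linarith : (0 : ℝ) ≤ -l),
          mul_le_mul_of_nonneg_left hjk' hpi.le]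
      have h4 : (l : ℝ) < 1 := by
        by_contra h
        push Not at h
        nlinarith [mul_nonneg hpi.le (by linarith : (0 : ℝ) ≤ l - 1)]
      have h5 : 0 < l := by exact_mod_cast h3
      have h6 : l < 1 := by exact_mod_cast h4
      omega)
  refine two_arcs (B := B) (s := Real.pi * j / 3) (t := Real.pi * k / 3) hδ ?_ ?_ hBj
    (fun z hz => hR z hz.1) hδR hp1 hp2 hq1 hq2
  · nlinarith [mul_le_mul_of_nonneg_left hjk' hpi.le]
  · nlinarith [mul_le_mul_of_nonneg_left hk4' hpi.le, mul_nonneg hpi.le hj0']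

end Pool.Agent.H74.UC
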