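import Pool.Agent.H74.UC.L2
import Pool.Agent.H74.PH.WEAK

/-! # Project UC, stub UC-UWEAK -/

set_option autoImplicit false

open Complex MeasureTheory Set Filter Topology Metric
open scoped ContDiff RealInnerProductSpace ComplexConjugate

namespace Pool.Agent.H74.UC

open Pool.Agent.H74.PH

namespace UWEAK

/-- `A(g)` is divergence free off the zeros of `g` -/
theorem div_A {K : ℝ} {Ω : Set ℂ} {g : ℂ → ℂ} (hg : PGrad K Ω g) {z : ℂ} (hz : z ∈ Ω)
    (h0 : g z ≠ 0) : (fderiv ℝ (fun z => A (K + 1) (g z)) z 1).re +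
      (fderiv ℝ (fun z => A (K + 1) (g z)) z I).im = 0 := by
  have hgd : DifferentiableAt ℝ g z := (hg.smooth z hz h0).differentiableAt (by norm_num)
  obtain ⟨ψ, hψ, hψ'⟩ := WeakH.X_fderiv (p := K + 1) hgd h0
  rw [hψ', hψ']
  have heq := hg.eq z hz h0
  obtain ⟨g1, hg1⟩ : ∃ g1, g1 = (g z).re := ⟨_, rfl⟩
  obtain ⟨g2, hg2⟩ : ∃ g2, g2 = (g z).im := ⟨_, rfl⟩
  obtain ⟨α, hα⟩ : ∃ α, α = (S g z).re := ⟨_, rfl⟩
  obtain ⟨β, hβ⟩ : ∃ β, β = (S g z).im := ⟨_, rfl⟩
  have hgz : g z = g1 + g2 * I := by rw [hg1, hg2, re_add_im]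
  have hN : g1 ^ 2 + g2 ^ 2 ≠ 0 := by
    intro h
    apply h0
    have a1 : g1 = 0 := by nlinarith [sq_nonneg g1, sq_nonneg g2]
    have a2 : g2 = 0 := by nlinarith [sq_nonneg g1, sq_nonneg g2]
    rw [hgz, a1, a2]
    simp
  obtain ⟨n, hn⟩ : ∃ n : ℝ, n = (g1 ^ 2 + g2 ^ 2)⁻¹ := ⟨_, rfl⟩
  have hnN : n * (g1 ^ 2 + g2 ^ 2) = 1 := by rw [hn]; exact inv_mul_cancel₀ hN
  have hnC : (n : ℂ) * ((g1 : ℂ) ^ 2 + (g2 : ℂ) ^ 2) = 1 := by exact_mod_cast hnN
  rw [← hα, ← hβ] at heq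
  have e1 : (1 : ℂ) = (((g1 * n : ℝ) : ℂ) + ((-g2 * n : ℝ) : ℂ) * I) * g z := by
    rw [hgz]
    push_cast
    linear_combination -hnC + (g2 : ℂ) ^ 2 * n * I_sq
  have e2 : I = (((g2 * n : ℝ) : ℂ) + ((g1 * n : ℝ) : ℂ) * I) * g z := by
    rw [hgz]
    push_cast
    linear_combination -I * hnC - (g1 : ℂ) * g2 * n * I_sq
  have d1 : fderiv ℝ g z 1 = _ := (congrArg (fderiv ℝ g z) e1).trans (heq (g1 * n) (-g2 * n))
  have d2 : fderiv ℝ g z I = _ := (congrArg (fderiv ℝ g z) e2).trans (heq (g2 * n) (g1 * n))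
  rw [← hg1, ← hg2, d1, d2, hgz]
  simp only [add_re, add_im, ofReal_re, ofReal_im, mul_re, mul_im, I_re, I_im]
  ring

theorem inner_grad (X : ℂ) (φ : ℂ → ℝ) (z : ℂ) : ⟪X, grad φ z⟫ =
    X.re * fderiv ℝ φ z 1 + X.im * fderiv ℝ φ z I := by
  rw [Complex.inner]
  unfold grad
  simp
  ring

/-- the weak equation for test functions supported off the zeros of `g` -/
theorem weak_off {K : ℝ} {g : ℂ → ℂ} (hg : PGrad K univ g) {G : Set ℂ} (hG : IsOpen G)
    (hne : ∀ z ∈ G, g z ≠ 0) {φ : ℂ → ℝ} (hφ : ContDiff ℝ ∞ φ) (hc : HasCompactSupport φ)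
    (hs : tsupport φ ⊆ G) : ∫ z, ⟪A (K + 1) (g z), grad φ z⟫ = 0 := by
  obtain ⟨X, hXd⟩ : ∃ X : ℂ → ℂ, X = fun z => A (K + 1) (g z) := ⟨_, rfl⟩
  have hX : ContDiffOn ℝ 1 X G := by
    intro z hz
    have h0 := hne z hz
    have hg3 := hg.smooth z (mem_univ z) h0
    have h1 : ContDiffAt ℝ 3 (fun z => ‖g z‖) z := hg3.norm ℝ h0
    have h2 : ContDiffAt ℝ 3 (fun z => ‖g z‖ ^ (K + 1 - 2)) z :=
      h1.rpow_const_of_ne (norm_ne_zero_iff.2 h0)
    have h3 : ContDiffAt ℝ 3 X z := by rw [hXd]; exact h2.smul hg3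
    exact (h3.of_le (by norm_num)).contDiffWithinAt
  have hXre : ContDiffOn ℝ 1 (fun z => (X z).re) G := reCLM.contDiff.comp_contDiffOn hX
  have hXim : ContDiffOn ℝ 1 (fun z => (X z).im) G := imCLM.contDiff.comp_contDiffOn hX
  have hdre : ∀ z ∈ G, ∀ v, fderiv ℝ (fun z => (X z).re) z v = (fderiv ℝ X z v).re := by
    intro z hz v
    have h1 := ((hX.contDiffAt (hG.mem_nhds hz)).differentiableAt (by norm_num)).hasFDerivAt
    have h2 : HasFDerivAt (fun z => (X z).re) (reCLM.comp (fderiv ℝ X z)) z :=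
      reCLM.hasFDerivAt.comp z h1
    rw [h2.fderiv]
    rfl
  have hdim : ∀ z ∈ G, ∀ v, fderiv ℝ (fun z => (X z).im) z v = (fderiv ℝ X z v).im := by
    intro z hz v
    have h1 := ((hX.contDiffAt (hG.mem_nhds hz)).differentiableAt (by norm_num)).hasFDerivAt
    have h2 : HasFDerivAt (fun z => (X z).im) (imCLM.comp (fderiv ℝ X z)) z :=
      imCLM.hasFDerivAt.comp z h1
    rw [h2.fderiv]
    rfl
  have hdc1 : ContinuousOn (fun z => fderiv ℝ (fun z => (X z).re) z 1) G :=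
    (hXre.continuousOn_fderiv_of_isOpen hG le_rfl).clm_apply continuousOn_const
  have hdc2 : ContinuousOn (fun z => fderiv ℝ (fun z => (X z).im) z I) G :=
    (hXim.continuousOn_fderiv_of_isOpen hG le_rfl).clm_apply continuousOn_const
  have p1 := WeakH.parts hG hXre hφ hc hs 1
  have p2 := WeakH.parts hG hXim hφ hc hs I
  have e1 : ∀ z, ⟪A (K + 1) (g z), grad φ z⟫ =
      (X z).re * fderiv ℝ φ z 1 + (X z).im * fderiv ℝ φ z I := by
    intro z
    rw [inner_grad, hXd]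
  have hφ1 : ∀ v, Continuous (fun x => fderiv ℝ φ x v) := fun v =>
    (hφ.continuous_fderiv (by simp)).clm_apply continuous_const
  have j1 := WeakH.int_of hG hXre.continuousOn (hφ1 1) (hc.fderiv_apply (𝕜 := ℝ) 1)
    ((tsupport_fderiv_apply_subset ℝ 1).trans hs)
  have j2 := WeakH.int_of hG hXim.continuousOn (hφ1 I) (hc.fderiv_apply (𝕜 := ℝ) I)
    ((tsupport_fderiv_apply_subset ℝ I).trans hs)
  simp only [e1]
  rw [integral_add j1 j2, p1, p2]
  have j3 := WeakH.int_of hG hdc1 hφ.continuous hc hs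
  have j4 := WeakH.int_of hG hdc2 hφ.continuous hc hs
  rw [← neg_add, ← integral_add j3 j4, neg_eq_zero, ← integral_zero ℂ ℝ (μ := volume)]
  refine integral_congr_ae (Eventually.of_forall fun x => ?_)
  simp only
  by_cases hx : x ∈ tsupport φ
  · rw [hdre x (hs hx), hdim x (hs hx), ← add_mul, hXd, div_A hg (mem_univ x) (hne x (hs hx)),
      zero_mul]
  · rw [image_eq_zero_of_notMem_tsupport hx, mul_zero, mul_zero, add_zero]

theorem norm_A {K : ℝ} (hK : 0 < K) (ξ : ℂ) : ‖A (K + 1) ξ‖ = ‖ξ‖ ^ K := by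
  unfold A
  rcases eq_or_ne ξ 0 with h | h
  · rw [h, smul_zero, norm_zero, Real.zero_rpow hK.ne']
  · have hn : 0 < ‖ξ‖ := norm_pos_iff.2 h
    rw [norm_smul, Real.norm_eq_abs, abs_of_pos (Real.rpow_pos_of_pos hn _)]
    nth_rewrite 2 [← Real.rpow_one ‖ξ‖]
    rw [← Real.rpow_add hn]
    congr 1
    ring

theorem A_cont {K : ℝ} (hK : 0 < K) {g : ℂ → ℂ} (hg : Continuous g) :
    Continuous (fun z => A (K + 1) (g z)) := by
  rw [continuous_iff_continuousAt]
  intro z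
  rcases eq_or_ne (g z) 0 with h | h
  · rw [ContinuousAt]
    have h0 : A (K + 1) (g z) = 0 := by unfold A; rw [h, smul_zero]
    rw [h0, tendsto_zero_iff_norm_tendsto_zero]
    have h1 : (fun x : ℂ => ‖A (K + 1) (g x)‖) = fun x => ‖g x‖ ^ K := by
      funext x; exact norm_A hK _
    rw [h1]
    have h2 : ContinuousAt (fun x : ℂ => ‖g x‖ ^ K) z :=
      hg.continuousAt.norm.rpow_const (Or.inr hK.le)
    have h3 := h2.tendsto
    simp only [h, norm_zero] at h3
    rwa [Real.zero_rpow hK.ne'] at h3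
  · unfold A
    exact (hg.continuousAt.norm.rpow_const (Or.inl (norm_ne_zero_iff.2 h))).smul hg.continuousAt

/-- the weak equation, if `g` vanishes at most at `0` -/
theorem weak_all {K : ℝ} (hK : 0 < K) {g : ℂ → ℂ} (hg : PGrad K univ g)
    (hne : ∀ z, z ≠ 0 → g z ≠ 0) {φ : ℂ → ℝ} (hφ : ContDiff ℝ ∞ φ) (hc : HasCompactSupport φ) :
    ∫ z, ⟪A (K + 1) (g z), grad φ z⟫ = 0 := by
  have hgc : Continuous g := continuousOn_univ.1 hg.cont
  have hAc := A_cont hK hgc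
  -- bounds
  obtain ⟨M, hM⟩ : ∃ M : ℝ, ∀ z ∈ closedBall (0 : ℂ) 2, ‖A (K + 1) (g z)‖ ≤ M :=
    (isCompact_closedBall (0 : ℂ) 2).exists_bound_of_continuousOn hAc.continuousOn
  have hM0 : 0 ≤ M := (norm_nonneg _).trans (hM 0 (by simp))
  obtain ⟨C1, hC1⟩ := hφ.continuous.bounded_above_of_compact_support hc
  obtain ⟨C2, hC2⟩ := (hφ.continuous_fderiv (by simp)).bounded_above_of_compact_support
    (hc.fderiv (𝕜 := ℝ))
  have hC1' : 0 ≤ C1 := (norm_nonneg _).trans (hC1 0)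
  have hC2' : 0 ≤ C2 := (norm_nonneg _).trans (hC2 0)
  let χ : ContDiffBump (0 : ℂ) := ⟨1, 2, one_pos, one_lt_two⟩
  have hχ : ContDiff ℝ ∞ (χ : ℂ → ℝ) := χ.contDiff
  obtain ⟨C3, hC3⟩ := (hχ.continuous_fderiv (by simp)).bounded_above_of_compact_support
    (χ.hasCompactSupport.fderiv (𝕜 := ℝ))
  have hC3' : 0 ≤ C3 := (norm_nonneg _).trans (hC3 0)
  have hint : ∀ ψ : ℂ → ℝ, ContDiff ℝ ∞ ψ → HasCompactSupport ψ →
      Integrable (fun z => ⟪A (K + 1) (g z), grad ψ z⟫) := by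
    intro ψ hψ hψc
    have hψ1 : ∀ v, Continuous (fun x => fderiv ℝ ψ x v) := fun v =>
      (hψ.continuous_fderiv (by simp)).clm_apply continuous_const
    have e1 : ∀ z, ⟪A (K + 1) (g z), grad ψ z⟫ =
        (A (K + 1) (g z)).re * fderiv ℝ ψ z 1 + (A (K + 1) (g z)).im * fderiv ℝ ψ z I :=
      fun z => inner_grad _ _ _
    simp only [e1]
    exact (WeakH.int_of isOpen_univ (continuous_re.comp hAc).continuousOn (hψ1 1)
      (hψc.fderiv_apply (𝕜 := ℝ) 1) (subset_univ _)).add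
      (WeakH.int_of isOpen_univ (continuous_im.comp hAc).continuousOn (hψ1 I)
      (hψc.fderiv_apply (𝕜 := ℝ) I) (subset_univ _))
  -- the estimate
  have key : ∀ r : ℝ, 0 < r → r ≤ 1 → ‖∫ z, ⟪A (K + 1) (g z), grad φ z⟫‖ ≤
      8 * Real.pi * (2 * (M * (C2 + C1 * C3))) * r := by
    intro r hr hr1
    obtain ⟨θ, hθ⟩ : ∃ θ : ℂ → ℝ, θ = fun z => χ (r⁻¹ • z) * φ z := ⟨_, rfl⟩
    have hχr : ContDiff ℝ ∞ (fun z : ℂ => χ (r⁻¹ • z)) := hχ.comp (contDiff_const_smul _)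
    have hθs : ContDiff ℝ ∞ θ := by rw [hθ]; exact hχr.mul hφ
    have hθc : HasCompactSupport θ := by rw [hθ]; exact hc.mul_left
    have hθ0 : ∀ z, z ∉ closedBall (0 : ℂ) (2 * r) → fderiv ℝ θ z = 0 := by
      intro z hz
      have hev : θ =ᶠ[𝓝 z] fun _ => 0 := by
        filter_upwards [isClosed_closedBall.isOpen_compl.mem_nhds hz] with x hx
        rw [hθ]
        simp only
        rw [χ.zero_of_le_dist, zero_mul]
        rw [mem_compl_iff, mem_closedBall, dist_zero_right, not_le] at hx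
        rw [dist_zero_right, norm_smul, norm_inv, Real.norm_eq_abs, abs_of_pos hr]
        show (2 : ℝ) ≤ r⁻¹ * ‖x‖
        rw [inv_mul_eq_div, le_div_iff₀ hr]
        exact hx.le
      rw [hev.fderiv_eq]
      simp
    have hθd : ∀ z, ‖fderiv ℝ θ z‖ ≤ C2 + C1 * C3 / r := by
      intro z
      have h1 : HasFDerivAt (fun z : ℂ => χ (r⁻¹ • z)) ((fderiv ℝ χ (r⁻¹ • z)).comp
          (r⁻¹ • ContinuousLinearMap.id ℝ ℂ)) z := by
        have h2 : HasFDerivAt (fun z : ℂ => r⁻¹ • z) (r⁻¹ • ContinuousLinearMap.id ℝ ℂ) z :=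
          (hasFDerivAt_id (𝕜 := ℝ) z).const_smul r⁻¹
        exact ((hχ.differentiable (by simp)) _).hasFDerivAt.comp z h2
      have h3 : HasFDerivAt φ (fderiv ℝ φ z) z := ((hφ.differentiable (by simp)) z).hasFDerivAt
      have h4 : fderiv ℝ θ z = χ (r⁻¹ • z) • fderiv ℝ φ z + φ z •
          ((fderiv ℝ χ (r⁻¹ • z)).comp (r⁻¹ • ContinuousLinearMap.id ℝ ℂ)) := by
        rw [hθ]
        exact (h1.mul h3).fderiv
      rw [h4]
      refine (norm_add_le _ _).trans (add_le_add ?_ ?_)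
      · rw [norm_smul, Real.norm_eq_abs, abs_of_nonneg χ.nonneg]
        calc χ (r⁻¹ • z) * ‖fderiv ℝ φ z‖ ≤ 1 * C2 :=
              mul_le_mul χ.le_one (hC2 z) (norm_nonneg _) zero_le_one
          _ = C2 := one_mul _
      · rw [norm_smul, ContinuousLinearMap.comp_smul, norm_smul, ContinuousLinearMap.comp_id,
          norm_inv, Real.norm_of_nonneg hr.le]
        calc ‖φ z‖ * (r⁻¹ * ‖fderiv ℝ χ (r⁻¹ • z)‖) ≤ C1 * (r⁻¹ * C3) :=
              mul_le_mul (hC1 z) (mul_le_mul_of_nonneg_left (hC3 _) (by positivity))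
                (by positivity) hC1'
          _ = C1 * C3 / r := by ring
    -- the test function `φ - θ` is supported off `0`
    have hsub : ∫ z, ⟪A (K + 1) (g z), grad (fun z => φ z - θ z) z⟫ = 0 := by
      refine weak_off hg (G := {0}ᶜ) isOpen_compl_singleton (fun z hz => hne z hz)
        (hφ.sub hθs) (hc.sub hθc) ?_
      intro z hz hz0
      have hz0' : z = 0 := hz0
      subst hz0'
      rw [tsupport, mem_closure_iff_nhds] at hz
      obtain ⟨x, hx1, hx2⟩ := hz (ball 0 r) (ball_mem_nhds _ hr)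
      apply hx2
      simp only [hθ]
      rw [χ.one_of_mem_closedBall, one_mul, sub_self]
      rw [mem_ball, dist_zero_right] at hx1
      rw [mem_closedBall, dist_zero_right, norm_smul, norm_inv, Real.norm_eq_abs, abs_of_pos hr]
      show r⁻¹ * ‖x‖ ≤ (1 : ℝ)
      rw [inv_mul_eq_div, div_le_one hr]
      exact hx1.le
    have hfd : ∀ z, fderiv ℝ (fun z => φ z - θ z) z = fderiv ℝ φ z - fderiv ℝ θ z := fun z =>
      fderiv_sub ((hφ.differentiable (by simp)) z) ((hθs.differentiable (by simp)) z)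
    have hsplit : ∀ z, ⟪A (K + 1) (g z), grad φ z⟫ =
        ⟪A (K + 1) (g z), grad (fun z => φ z - θ z) z⟫ + ⟪A (K + 1) (g z), grad θ z⟫ := by
      intro z
      rw [inner_grad, inner_grad, inner_grad, hfd]
      simp only [_root_.sub_apply]
      ring
    have hI : ∫ z, ⟪A (K + 1) (g z), grad φ z⟫ = ∫ z, ⟪A (K + 1) (g z), grad θ z⟫ := by
      simp only [hsplit]
      rw [integral_add (hint _ (hφ.sub hθs) (hc.sub hθc)) (hint _ hθs hθc), hsub, zero_add]
    rw [hI, ← setIntegral_eq_integral_of_forall_compl_eq_zero (s := closedBall (0 : ℂ) (2 * r))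
      (fun z hz => by rw [inner_grad, hθ0 z hz]; simp)]
    have hbd : ∀ z ∈ closedBall (0 : ℂ) (2 * r), ‖⟪A (K + 1) (g z), grad θ z⟫‖ ≤
        M * (2 * (C2 + C1 * C3 / r)) := by
      intro z hz
      refine (norm_inner_le_norm _ _).trans ?_
      refine mul_le_mul (hM z (closedBall_subset_closedBall (by linarith) hz)) ?_ (norm_nonneg _) hM0
      rw [WeakH.grad_eq]
      refine (norm_add_le _ _).trans ?_
      rw [norm_mul, norm_I, mul_one, norm_real, norm_real]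
      have a1 := (fderiv ℝ θ z).le_opNorm 1
      have a2 := (fderiv ℝ θ z).le_opNorm I
      rw [norm_one, mul_one] at a1
      rw [norm_I, mul_one] at a2
      linarith [hθd z]
    refine (norm_setIntegral_le_of_norm_le_const (by
      exact (isCompact_closedBall (0 : ℂ) (2 * r)).measure_lt_top) hbd).trans ?_
    have hvol : volume.real (closedBall (0 : ℂ) (2 * r)) = (2 * r) ^ 2 * Real.pi := by
      rw [Measure.real, Complex.volume_closedBall, ENNReal.toReal_mul, ENNReal.toReal_pow,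
        ENNReal.toReal_ofReal (by positivity)]
      rfl
    rw [hvol]
    have b1 : M * (2 * (C2 + C1 * C3 / r)) * ((2 * r) ^ 2 * Real.pi) =
        8 * Real.pi * (M * (C2 * r + C1 * C3)) * r := by
      field_simp
      ring
    rw [b1]
    have b2 : C2 * r ≤ C2 := mul_le_of_le_one_right hC2' hr1
    have b3 : M * (C2 * r + C1 * C3) ≤ 2 * (M * (C2 + C1 * C3)) := by
      have : 0 ≤ M * (C2 + C1 * C3) := by positivity
      nlinarith [mul_le_mul_of_nonneg_left b2 hM0]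
    gcongr
  have h0 : ‖∫ z, ⟪A (K + 1) (g z), grad φ z⟫‖ ≤ 0 := by
    have hlim : Tendsto (fun r : ℝ => 8 * Real.pi * (2 * (M * (C2 + C1 * C3))) * r) (𝓝[>] 0)
        (𝓝 0) := by
      have h1 : Continuous (fun r : ℝ => 8 * Real.pi * (2 * (M * (C2 + C1 * C3))) * r) := by
        fun_prop
      have h2 := h1.tendsto 0
      rw [mul_zero] at h2
      exact h2.mono_left nhdsWithin_le_nhds
    refine ge_of_tendsto hlim ?_
    filter_upwards [Ioc_mem_nhdsGT (zero_lt_one' ℝ)] with r hr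
    exact key r hr.1 hr.2
  exact norm_le_zero_iff.1 h0

theorem G_ne {K q : ℝ} (h : Par K q) {x : ℂ} (hx : x ≠ 0) : G q x ≠ 0 := by
  intro h0
  apply hx
  have h1 : Xi q x = 0 := by
    unfold G at h0
    rcases mul_eq_zero.1 h0 with h2 | h2
    · have h3 : ‖Xi q x‖ ^ (1 / (2 * q - 1) - 1) = 0 := by exact_mod_cast h2
      by_contra hne
      exact absurd h3 (Real.rpow_pos_of_pos (norm_pos_iff.2 hne) _).ne'
    · exact h2
  rw [← X_Xi h x, h1]
  simp [X]

end UWEAK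

/-- UC-UWEAK: the comparison function is `p`-harmonic across `0`. -/
theorem U_harm {K q : ℝ} (h : Par K q) : IsPHarmonicOn (K + 1) univ (U q) := by
  refine ⟨(U_grad h).1.contDiffOn, fun φ hφ hc _ => ?_⟩
  simp only [(U_grad h).2]
  exact UWEAK.weak_all h.K0 (G_pgrad h).1 (fun z hz => UWEAK.G_ne h hz) hφ hc

end Pool.Agent.H74.UC
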