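import Pool.Agent.H74.UC.L2
import Pool.Agent.H74.UC.UWEAK
import Pool.Agent.H74.UC.JET
import Pool.Agent.H74.UC.TOPO
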