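import Pool.Agent.H74.UC.GEN

set_option autoImplicit false

open Complex MeasureTheory Set Filter Topology Metric
open scoped ContDiff RealInnerProductSpace ComplexConjugate

namespace Pool.Agent.H74.UC

open Pool.Agent.H74.PH

/-- `gen → Q_bound` -/
theorem qb_of_gen {K q : ℝ} (h : Par K q)
    (hgen : ∃ C : ℝ, 0 < C ∧ ∀ (Ω : Set ℂ) (g : ℂ → ℂ) (u : ℂ → ℝ),
    PGrad K Ω g → IsPHarmonicOn (K + 1) Ω u → (∀ z ∈ Ω, grad u z = g z) → closedBall 0 1 ⊆ Ω →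
    (∀ z ∈ closedBall (0 : ℂ) 1, ‖g z‖ ≤ 1) → ∀ z0 ∈ ball (0 : ℂ) (1 / 2), g z0 ≠ 0 →
    C < Q (2 * q - 1) g z0 → HasFDerivAt (cen K (2 * q - 1) g) (0 : ℂ →L[ℝ] ℂ) z0) :
    ∃ C : ℝ, 0 < C ∧ ∀ (Ω : Set ℂ) (g : ℂ → ℂ) (u : ℂ → ℝ)
    (z0 : ℂ) (R M : ℝ), PGrad K Ω g → IsPHarmonicOn (K + 1) Ω u → (∀ z ∈ Ω, grad u z = g z) →
    0 < R → 0 < M → closedBall z0 R ⊆ Ω → (∀ z ∈ closedBall z0 R, ‖g z‖ ≤ M) →
    Q (2 * q - 1) g z0 ≤ C * M ^ (2 * q - 1) / R := by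
  have hK := h.K0
  have ha : 0 < 2 * q - 1 := by linarith [h.q1]
  obtain ⟨C, hC, hg1⟩ := hgen
  obtain ⟨C', hC', hray⟩ := ray hK ha hC
  refine ⟨C', hC', fun Ω g u z0 R M hg hu hgu hR hM hball hgM => ?_⟩
  rcases eq_or_ne (g z0) 0 with h0 | h0
  · have : Q (2 * q - 1) g z0 = 0 := by
      unfold Q S
      rw [h0]
      simp
    rw [this]
    positivity
  obtain ⟨hsg, hsS⟩ := sim hg z0 0 1 hR (inv_pos.2 hM) (by simp)
  obtain ⟨hsu, hsgr⟩ := sim_harm (by linarith) hg.isOpen hu z0 0 1 hR (inv_pos.2 hM) (by simp)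
  have hT : ∀ x ∈ closedBall (0 : ℂ) 1, z0 + R * 1 * (x - 0) ∈ closedBall z0 R := by
    intro x hx
    rw [mem_closedBall_zero_iff] at hx
    rw [mem_closedBall_iff_norm, add_sub_cancel_left, mul_one, sub_zero, norm_mul,
      Complex.norm_real, Real.norm_of_nonneg hR.le]
    nlinarith
  have hb : closedBall (0 : ℂ) 1 ⊆ {x | z0 + R * 1 * (x - 0) ∈ Ω} := fun x hx => hball (hT x hx)
  have hn : ∀ x ∈ closedBall (0 : ℂ) 1,
      ‖((M⁻¹ : ℝ) : ℂ) * conj 1 * g (z0 + R * 1 * (x - 0))‖ ≤ 1 := by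
    intro x hx
    have h5 := hgM _ (hT x hx)
    rw [norm_mul, norm_mul, Complex.norm_real, Real.norm_of_nonneg (inv_pos.2 hM).le, map_one,
      norm_one, mul_one (M⁻¹), inv_mul_le_iff₀ hM, mul_one M]
    exact h5
  have key := hray _ _ hsg hb hn fun z hz hz0 hQ =>
    hg1 _ _ _ hsg hsu (fun x hx => by rw [hsgr x hx, hgu _ hx]) hb hn z hz hz0 hQ
  have h1 := hsS 0 (by simpa using hball (mem_closedBall_self hR.le)) (by simpa using h0)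
  unfold Q at key ⊢
  rw [h1] at key
  simp only [sub_self, mul_zero, add_zero, map_one, mul_one] at key
  rw [norm_mul, norm_mul, norm_mul, Complex.norm_real, Complex.norm_real,
    Real.norm_of_nonneg (inv_pos.2 hM).le, Real.norm_of_nonneg hR.le,
    Real.mul_rpow (inv_pos.2 hM).le (norm_nonneg _), Real.inv_rpow hM.le] at key
  rw [le_div_iff₀ hR]
  have h2 : M ^ (2 * q - 1) = M ^ (2 * q - 1 - 1) * M := by
    rw [← Real.rpow_add_one hM.ne']; congr 1; ring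
  have h3 : 0 < M ^ (2 * q - 1 - 1) := Real.rpow_pos_of_pos hM _
  rw [h2]
  have h4 : ‖g z0‖ ^ (2 * q - 1 - 1) * ‖S g z0‖ * R =
      ((M ^ (2 * q - 1 - 1))⁻¹ * ‖g z0‖ ^ (2 * q - 1 - 1) * (M⁻¹ * R * ‖S g z0‖)) *
        (M ^ (2 * q - 1 - 1) * M) := by
    field_simp
  rw [h4]
  exact mul_le_mul_of_nonneg_right key (by positivity)

/-- UC-QB (from `gen`, `ray`, `sim`, `sim_harm`): the main estimate. -/
theorem Q_bound {K q : ℝ} (h : Par K q) : ∃ C : ℝ, 0 < C ∧ ∀ (Ω : Set ℂ) (g : ℂ → ℂ) (u : ℂ → ℝ)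
    (z0 : ℂ) (R M : ℝ), PGrad K Ω g → IsPHarmonicOn (K + 1) Ω u → (∀ z ∈ Ω, grad u z = g z) →
    0 < R → 0 < M → closedBall z0 R ⊆ Ω → (∀ z ∈ closedBall z0 R, ‖g z‖ ≤ M) →
    Q (2 * q - 1) g z0 ≤ C * M ^ (2 * q - 1) / R := qb_of_gen h (gen h)

end Pool.Agent.H74.UC
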