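import Pool.Agent.H74.UC.L3

/-!
Project UC, stub RADO: a solution with small gradient which agrees with the saddle `U` to second
order at a point agrees with it to third order.
-/

set_option autoImplicit false

open Complex MeasureTheory Set Filter Topology Metric
open scoped ContDiff RealInnerProductSpace ComplexConjugate

namespace Pool.Agent.H74.UC

open Pool.Agent.H74.PH

theorem rado_fderiv_bound (u : ℂ → ℝ) (z : ℂ) : ‖fderiv ℝ u z‖ ≤ ‖grad u z‖ := by
  refine ContinuousLinearMap.opNorm_le_bound _ (norm_nonneg _) (fun h => ?_)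
  have h1 : fderiv ℝ u z h = (conj (grad u z) * h).re := by
    have h2 : h = h.re • (1 : ℂ) + h.im • I := by
      apply Complex.ext <;> simp
    have h3 : fderiv ℝ u z h = h.re * fderiv ℝ u z 1 + h.im * fderiv ℝ u z I := by
      conv_lhs => rw [h2, map_add, map_smul, map_smul]
      simp only [smul_eq_mul]
    rw [h3]
    simp [grad]
    ring
  rw [h1, Real.norm_eq_abs]
  calc |(conj (grad u z) * h).re| ≤ ‖conj (grad u z) * h‖ := Complex.abs_re_le_norm _
    _ = ‖grad u z‖ * ‖h‖ := by rw [norm_mul, RCLike.norm_conj]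

theorem rado_lip {Ω : Set ℂ} (hΩ : IsOpen Ω) {u : ℂ → ℝ} {g : ℂ → ℂ} {R C : ℝ}
    (hu : ContDiffOn ℝ 1 u Ω) (hg : ∀ z ∈ Ω, grad u z = g z) (hB : closedBall (0 : ℂ) R ⊆ Ω)
    (hC : ∀ z ∈ closedBall (0 : ℂ) R, ‖g z‖ ≤ C) :
    ∀ x ∈ closedBall (0 : ℂ) R, ∀ y ∈ closedBall (0 : ℂ) R, |u x - u y| ≤ C * ‖x - y‖ := by
  intro x hx y hy
  have := (convex_closedBall (0 : ℂ) R).norm_image_sub_le_of_norm_fderiv_le (𝕜 := ℝ) (f := u)
    (C := C) (x := y) (y := x)
    (fun z hz => (hu.differentiableOn (by norm_num)).differentiableAt (hΩ.mem_nhds (hB hz)))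
    (fun z hz => (rado_fderiv_bound u z).trans (by rw [hg z (hB hz)]; exact hC z hz)) hy hx
  rwa [Real.norm_eq_abs] at this

theorem rado_X0 (q : ℝ) : X q 0 = 0 := by
  simp [X]

theorem rado_X_norm {K q : ℝ} (h : Par K q) (v : ℂ) : ‖X q v‖ ≤ 6 * ‖v‖ := by
  have := X_lip h v 0
  rwa [rado_X0, sub_zero, sub_zero] at this

theorem rado_X_cont {K q : ℝ} (h : Par K q) : Continuous (X q) := by
  refine (LipschitzWith.of_dist_le_mul (K := 6) (fun v w => ?_)).continuous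
  rw [dist_eq_norm, dist_eq_norm]
  exact X_lip h v w

/-- `ζ ↔ x`, `x = X (v0 + L ζ)` -/
noncomputable def radoHomeo {K q : ℝ} (h : Par K q) (L : ℂ ≃L[ℝ] ℂ) (v0 : ℂ) : ℂ ≃ₜ ℂ where
  toFun x := L.symm (Xi q x - v0)
  invFun ζ := X q (v0 + L ζ)
  left_inv x := by
    simp only [ContinuousLinearEquiv.apply_symm_apply]
    rw [add_sub_cancel]
    exact X_Xi h x
  right_inv ζ := by
    simp only
    rw [Xi_X h, add_sub_cancel_left]
    exact L.symm_apply_apply ζ
  continuous_toFun := L.symm.continuous.comp ((Xi_cont h).sub continuous_const)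
  continuous_invFun := (rado_X_cont h).comp (continuous_const.add L.continuous)

theorem IsPHarmonicOn_mono {p : ℝ} {Ω Ω' : Set ℂ} {u : ℂ → ℝ} (hu : IsPHarmonicOn p Ω u)
    (hs : Ω' ⊆ Ω) : IsPHarmonicOn p Ω' u :=
  ⟨hu.contDiff.mono hs, fun φ h1 h2 h3 => hu.weak φ h1 h2 (h3.trans hs)⟩

/-- the topological part -/
theorem rado_core {K q : ℝ} (h : Par K q) {τ : ℝ} (hτ : 1 < τ) {Ω : Set ℂ} (hΩ : IsOpen Ω)
    {u : ℂ → ℝ} {v0 : ℂ} (hv0 : ‖v0‖ = 1) (hu : IsPHarmonicOn (K + 1) Ω u)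
    (hB : closedBall 0 (6 * τ) ⊆ Ω) {c k : ℝ} (hc : 0 < c)
    (hU : ∀ v, ‖v‖ = τ → U q (X q v) = c * (v ^ 2).re / τ ^ 2)
    (hF : ∀ v, ‖v‖ = τ → |u (X q v) - k| ≤ c / 4)
    (hL : ∀ v w, ‖v‖ = τ → ‖w‖ = τ → |u (X q v) - u (X q w)| ≤ c / τ * ‖v - w‖)
    (L : ℂ ≃L[ℝ] ℂ)
    (hexp : (fun ζ : ℂ => (u (X q (v0 + L ζ)) - U q (X q (v0 + L ζ)) - k) - (ζ ^ 3).re) =o[𝓝 0]
      (fun ζ : ℂ => ‖ζ‖ ^ 3)) : False := by
  have hτ0 : 0 < τ := by linarith
  have hUh := U_harm h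
  have hXc := rado_X_cont h
  obtain ⟨hUc, -⟩ := U_grad h
  set e : ℂ ≃ₜ ℂ := radoHomeo h L v0 with he
  -- the affine map
  set A : ℂ ≃ₜ ℂ := L.toHomeomorph.trans (Homeomorph.addLeft v0) with hA
  have hAz : ∀ ζ, A ζ = v0 + L ζ := fun ζ => rfl
  have hAs : ∀ v, A.symm v = L.symm (v - v0) := by
    intro v
    rw [Homeomorph.symm_apply_eq, hAz, ContinuousLinearEquiv.apply_symm_apply]
    ring
  set D : Set ℂ := A ⁻¹' closedBall 0 τ with hD
  have hDc : IsCompact D := by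
    rw [hD, ← Homeomorph.image_symm]
    exact (isCompact_closedBall 0 τ).image A.symm.continuous
  have hDconv : Convex ℝ D := by
    have h1 : D = (L : ℂ →ₗ[ℝ] ℂ) ⁻¹' ((fun z => v0 + z) ⁻¹' closedBall 0 τ) := rfl
    rw [h1]
    exact ((convex_closedBall (0 : ℂ) τ).translate_preimage_right v0).linear_preimage _
  have hD0 : (0 : ℂ) ∈ interior D := by
    rw [hD, ← Homeomorph.preimage_interior, interior_closedBall _ (by positivity)]
    simp only [mem_preimage, hAz, map_zero, add_zero, mem_ball_zero_iff, hv0]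
    exact hτ
  have hfrD : frontier D = A ⁻¹' sphere 0 τ := by
    rw [hD, ← Homeomorph.preimage_frontier, frontier_closedBall _ (by positivity)]
  set W : ℂ → ℝ := fun ζ => u (X q (v0 + L ζ)) - U q (X q (v0 + L ζ)) - k with hW
  have hX6 : ∀ v, ‖v‖ ≤ τ → X q v ∈ closedBall (0 : ℂ) (6 * τ) := by
    intro v hv
    rw [mem_closedBall_zero_iff]
    exact (rado_X_norm h v).trans (by linarith)
  have hDX : ∀ ζ ∈ D, X q (v0 + L ζ) ∈ closedBall (0 : ℂ) (6 * τ) := by
    intro ζ hζ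
    apply hX6
    have : A ζ ∈ closedBall 0 τ := hζ
    rwa [mem_closedBall_zero_iff, hAz] at this
  have hWc : ContinuousOn W D := by
    have h1 : Continuous (fun ζ : ℂ => X q (v0 + L ζ)) :=
      hXc.comp (continuous_const.add L.continuous)
    refine ContinuousOn.sub (ContinuousOn.sub ?_ ?_) continuousOn_const
    · exact hu.contDiff.continuousOn.comp h1.continuousOn (fun ζ hζ => hB (hDX ζ hζ))
    · exact (hUc.continuous.comp h1).continuousOn
  have he' : ∀ ζ, e.symm ζ = X q (v0 + L ζ) := fun ζ => rfl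
  -- T1
  have hcomp : ∀ (O : Set ℂ) (s : ℝ), IsOpen O → O.Nonempty → closure O ⊆ D →
      (s = 1 ∨ s = -1) → (∀ z ∈ O, 0 < s * W z) → (∀ z ∈ frontier O, W z = 0) → False := by
    intro O s hO hne hcl hs hpos hfr
    set O' : Set ℂ := e ⁻¹' O with hO'
    have hO'o : IsOpen O' := hO.preimage e.continuous
    have hO'n : O'.Nonempty := by
      obtain ⟨ζ, hζ⟩ := hne
      exact ⟨e.symm ζ, by rw [hO', mem_preimage, e.apply_symm_apply]; exact hζ⟩
    have hO's : O' ⊆ closedBall (0 : ℂ) (6 * τ) := by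
      intro x hx
      have h1 := hDX (e x) (hcl (subset_closure hx))
      rwa [← he', e.symm_apply_apply] at h1
    have hO'b : Bornology.IsBounded O' := isBounded_closedBall.subset hO's
    have hO'cl : closure O' ⊆ Ω := (closure_minimal hO's isClosed_closedBall).trans hB
    have hWe : ∀ x, W (e x) = u x - U q x - k := by
      intro x
      have h1 : X q (v0 + L (e x)) = x := by rw [← he', e.symm_apply_apply]
      simp only [hW, h1]
    have hfr' : ∀ z ∈ frontier O', u z = U q z + k := by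
      intro z hz
      rw [hO', ← Homeomorph.preimage_frontier] at hz
      have := hfr (e z) hz
      rw [hWe] at this
      linarith
    rcases hs with rfl | rfl
    · refine comparison (by linarith [h.K0] : (1 : ℝ) < K + 1) hΩ hu
        (IsPHarmonicOn_mono hUh (subset_univ Ω)) hO'o hO'n hO'b hO'cl (c := k) ?_ hfr'
      intro z hz
      have := hpos (e z) hz
      rw [hWe] at this
      linarith
    · refine comparison (by linarith [h.K0] : (1 : ℝ) < K + 1) hΩ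
        (IsPHarmonicOn_mono hUh (subset_univ Ω)) hu hO'o hO'n hO'b hO'cl (c := -k) ?_ ?_
      · intro z hz
        have := hpos (e z) hz
        rw [hWe] at this
        linarith
      · intro z hz
        rw [hfr' z hz]
        ring
  have hT := joined_frontier hDc hDconv hWc hcomp
  -- boundary
  obtain ⟨A1, A2, hcov, hA1, hA2⟩ := bdry hτ0 hc (F := fun v => u (X q v) - k) hF
    (fun v w hv hw => by
      have := hL v w hv hw
      simpa using this)
  have hWF : ∀ ζ, ‖A ζ‖ = τ → (u (X q (A ζ)) - k) - c * ((A ζ) ^ 2).re / τ ^ 2 = W ζ := by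
    intro ζ hζ
    simp only [hW]
    rw [← hU (A ζ) hζ, hAz]
    ring
  have hjoin : ∀ B : Set ℂ, (∀ x ∈ B, ∀ y ∈ B, JoinedIn {v | ‖v‖ = τ ∧
      0 < (u (X q v) - k) - c * (v ^ 2).re / τ ^ 2} x y) →
      ∀ x ∈ A ⁻¹' B, ∀ y ∈ A ⁻¹' B, JoinedIn {z | z ∈ D ∧ 0 < W z} x y := by
    intro B hBj x hx y hy
    have h1 := (hBj (A x) hx (A y) hy).map A.symm.continuous
    rw [A.symm_apply_apply, A.symm_apply_apply] at h1
    refine h1.mono ?_
    rintro _ ⟨v, ⟨hv1, hv2⟩, rfl⟩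
    have h2 : A (A.symm v) = v := A.apply_symm_apply v
    refine ⟨?_, ?_⟩
    · rw [hD, mem_preimage, h2, mem_closedBall_zero_iff, hv1]
    · have h3 := hWF (A.symm v) (by rw [h2]; exact hv1)
      rw [h2] at h3
      rw [← h3]
      exact hv2
  refine topo hDc hDconv hD0 hWc hexp hT (A1 := A ⁻¹' A1) (A2 := A ⁻¹' A2) ?_
    (hjoin A1 hA1) (hjoin A2 hA2)
  intro z hz hpos
  rw [hfrD, mem_preimage, mem_sphere_zero_iff_norm] at hz
  exact hcov (A z) hz (by rw [hWF z hz]; exact hpos)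

/-- UC-RADO -/
theorem rado {K q : ℝ} (h : Par K q) : ∃ η τ0 : ℝ, 0 < η ∧ 0 < τ0 ∧ ∀ (τ : ℝ) (Ω : Set ℂ)
    (g : ℂ → ℂ) (u : ℂ → ℝ) (v0 : ℂ), τ0 ≤ τ → PGrad K Ω g → IsPHarmonicOn (K + 1) Ω u →
    (∀ z ∈ Ω, grad u z = g z) → closedBall 0 (6 * τ) ⊆ Ω →
    (∀ z ∈ closedBall (0 : ℂ) (6 * τ), ‖g z‖ ≤ η * τ ^ (1 / (2 * q - 1))) → ‖v0‖ = 1 →
    g (X q v0) = G q (X q v0) → S g (X q v0) = S (G q) (X q v0) →
    fderiv ℝ (S g) (X q v0) = fderiv ℝ (S (G q)) (X q v0) := by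
  have hK := h.K0
  have ha : 0 < 2 * q - 1 := by linarith [h.q1]
  set a : ℝ := 2 * q - 1 with haa
  refine ⟨a / 96, 8, by positivity, by norm_num, ?_⟩
  intro τ Ω g u v0 hτ hg hu hgrad hB hbd hv0 h0 hS
  have hΩ : IsOpen Ω := hg.isOpen
  have hτ1 : 1 < τ := by linarith
  have hτ0 : 0 < τ := by linarith
  obtain ⟨hUc, hUg⟩ := U_grad h
  obtain ⟨hG, -⟩ := G_pgrad h
  have hGΩ : PGrad K Ω (G q) :=
    ⟨hΩ, hG.cont.mono (subset_univ _), fun z _ hz => hG.smooth z (mem_univ z) hz,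
      fun z _ hz => hG.eq z (mem_univ z) hz⟩
  have hUX : ∀ v, U q (X q v) = a * ‖v‖ ^ (1 / a - 1) * (v ^ 2).re := by
    intro v
    simp only [U, Xi_X h]
    rfl
  have hv0n : v0 ≠ 0 := by
    rintro rfl
    simp at hv0
  have hGX : G q (X q v0) = v0 := by
    simp only [G, Xi_X h, hv0, Real.one_rpow, Complex.ofReal_one, one_mul]
  have hX6 : ∀ v, ‖v‖ ≤ τ → X q v ∈ closedBall (0 : ℂ) (6 * τ) := by
    intro v hv
    rw [mem_closedBall_zero_iff]
    exact (rado_X_norm h v).trans (by linarith)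
  have hx0 : X q v0 ∈ closedBall (0 : ℂ) (6 * τ) := hX6 v0 (by linarith)
  by_contra hne
  obtain ⟨M, hM⟩ := cubic hK hg hGΩ hu.contDiff (hUc.contDiffOn) hgrad (fun z _ => hUg z)
    (hB hx0) (by rw [h0, hGX]; exact hv0n) h0 hS hne
  obtain ⟨N, hN, -⟩ := X_deriv h hv0n
  set k : ℝ := u (X q v0) - U q (X q v0) with hk
  have hw : (fun h : ℂ => (fun x => u x - U q x - k) (X q v0 + h) - (M h ^ 3).re) =o[𝓝 0]
      (fun h : ℂ => ‖h‖ ^ 3) := hM
  have hexp := cubic_pull (w := fun x => u x - U q x - k) (M := M) hN rfl hw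
  -- sizes
  have hp0 : 0 < τ ^ (1 / a) := Real.rpow_pos_of_pos hτ0 _
  have hp1 : 1 ≤ τ ^ (1 / a) := Real.one_le_rpow hτ1.le (by positivity)
  set c : ℝ := a * (τ ^ (1 / a) * τ) with hc
  have hc0 : 0 < c := by positivity
  have hlip := rado_lip hΩ hu.contDiff hgrad hB hbd
  refine rado_core h hτ1 hΩ hv0 hu hB hc0 (k := k) ?_ ?_ ?_ (N.trans M).symm hexp
  · intro v hv
    rw [hUX, hv, Real.rpow_sub_one hτ0.ne']
    field_simp
    rw [hc]
    ring
  · intro v hv
    have h1 := hlip _ (hX6 v hv.le) _ hx0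
    have h2 : ‖X q v - X q v0‖ ≤ 12 * τ := by
      calc ‖X q v - X q v0‖ ≤ ‖X q v‖ + ‖X q v0‖ := norm_sub_le _ _
        _ ≤ 6 * τ + 6 * τ := by
          have := rado_X_norm h v
          have := rado_X_norm h v0
          rw [hv0] at this
          linarith
        _ = 12 * τ := by ring
    have h3 : |U q (X q v0)| ≤ a := by
      rw [hUX, hv0, Real.one_rpow, mul_one, abs_mul, abs_of_pos ha]
      have : |(v0 ^ 2).re| ≤ 1 := by
        calc |(v0 ^ 2).re| ≤ ‖v0 ^ 2‖ := Complex.abs_re_le_norm _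
          _ = 1 := by rw [norm_pow, hv0, one_pow]
      nlinarith
    have h4 : |u (X q v) - k| ≤ |u (X q v) - u (X q v0)| + |U q (X q v0)| := by
      have : u (X q v) - k = (u (X q v) - u (X q v0)) + U q (X q v0) := by rw [hk]; ring
      rw [this]
      exact abs_add_le _ _
    have h5 : |u (X q v) - u (X q v0)| ≤ c / 8 := by
      calc |u (X q v) - u (X q v0)| ≤ a / 96 * τ ^ (1 / a) * ‖X q v - X q v0‖ := h1
        _ ≤ a / 96 * τ ^ (1 / a) * (12 * τ) := by gcongr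
        _ = c / 8 := by rw [hc]; ring
    have h6 : a ≤ c / 8 := by
      rw [hc]
      have : 8 ≤ τ ^ (1 / a) * τ := by nlinarith
      nlinarith
    linarith
  · intro v w hv hw
    have h1 := hlip _ (hX6 v hv.le) _ (hX6 w hw.le)
    have h2 := X_lip h v w
    calc |u (X q v) - u (X q w)| ≤ a / 96 * τ ^ (1 / a) * ‖X q v - X q w‖ := h1
      _ ≤ a / 96 * τ ^ (1 / a) * (6 * ‖v - w‖) := by gcongr
      _ ≤ a * τ ^ (1 / a) * ‖v - w‖ := by
        have : 0 ≤ a * τ ^ (1 / a) * ‖v - w‖ := by positivity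
        linarith
      _ = c / τ * ‖v - w‖ := by rw [hc]; field_simp

end Pool.Agent.H74.UC
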