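import Pool.Agent.H74.UC.Defs

/-!
Project UC, statements of the stubs, level 1.  Prove stub X in `Pool/Agent/H74/UC/X.lean`
(`import Pool.Agent.H74.UC.Defs`, same namespace, same name, same statement).
-/

set_option autoImplicit false

open Complex MeasureTheory Set Filter Topology Metric
open scoped ContDiff RealInnerProductSpace ComplexConjugate

namespace Pool.Agent.H74.UC

open Pool.Agent.H74.PH

/-- UC-PAR -/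
theorem par_exists {K : ℝ} (hK : 0 < K) : ∃ q : ℝ, Par K q ∧ 2 * q - 1 ≤ (K + 1) / 2 ∧
    (K ≠ 1 → 2 * q - 1 < (K + 1) / 2) := sorry

/-- UC-XLIP (`v ↦ v³/|v|²` is `3`-Lipschitz and `3 |q - 1| < q + 1`) -/
theorem X_lip {K q : ℝ} (h : Par K q) (v w : ℂ) : ‖X q v - X q w‖ ≤ 6 * ‖v - w‖ := sorry

theorem X_anti {K q : ℝ} (h : Par K q) :
    ∃ c : ℝ, 0 < c ∧ ∀ v w : ℂ, c * ‖v - w‖ ≤ ‖X q v - X q w‖ := sorry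

theorem X_surj {K q : ℝ} (h : Par K q) : Function.Surjective (X q) := sorry

/-- consequences: `Xi q` is the inverse homeomorphism -/
theorem X_Xi {K q : ℝ} (h : Par K q) (x : ℂ) : X q (Xi q x) = x := sorry

theorem Xi_X {K q : ℝ} (h : Par K q) (v : ℂ) : Xi q (X q v) = v := sorry

theorem Xi_cont {K q : ℝ} (h : Par K q) : Continuous (Xi q) := sorry

/-- UC-TEST: the weak form extends to `C¹` test functions (mollify `φ`). -/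
theorem test_C1 {p : ℝ} (hp : 1 < p) {Ω : Set ℂ} (hΩ : IsOpen Ω) {u : ℂ → ℝ}
    (hu : IsPHarmonicOn p Ω u) {φ : ℂ → ℝ} (hφ : ContDiff ℝ 1 φ) (hc : HasCompactSupport φ)
    (hs : tsupport φ ⊆ Ω) : ∫ z, ⟪A p (grad u z), grad φ z⟫ = 0 := sorry

/-- UC-WIND: a closed curve which does not separate `b` from a far point has a closed logarithm
about `b`. -/
theorem wind {γ : ℝ → ℂ} (hγ : ContinuousOn γ (Icc 0 1)) (hcl : γ 0 = γ 1) {b p : ℂ}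
    (hj : JoinedIn (γ '' Icc 0 1)ᶜ b p) (hfar : ∀ t ∈ Icc (0 : ℝ) 1, ‖γ t‖ < ‖p‖) :
    ∃ l : ℝ → ℂ, ContinuousOn l (Icc 0 1) ∧ (∀ t ∈ Icc (0 : ℝ) 1, exp (l t) = γ t - b) ∧
      l 0 = l 1 := sorry

/-- UC-T2: a component of `{W > 0}` or `{W < 0}` in `D` reaches the frontier of `D`. -/
theorem joined_frontier {D : Set ℂ} (hD : IsCompact D) (hc : Convex ℝ D) {W : ℂ → ℝ}
    (hW : ContinuousOn W D)
    (hcomp : ∀ (O : Set ℂ) (s : ℝ), IsOpen O → O.Nonempty → closure O ⊆ D → (s = 1 ∨ s = -1) →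
      (∀ z ∈ O, 0 < s * W z) → (∀ z ∈ frontier O, W z = 0) → False) :
    ∀ x ∈ D, W x ≠ 0 → ∃ y ∈ frontier D, JoinedIn {z | z ∈ D ∧ 0 < W x * W z} x y := sorry

/-- UC-CUBIC: the difference of two solutions at a point of contact of order exactly two. -/
theorem cubic {K : ℝ} (hK : 0 < K) {Ω : Set ℂ} {g1 g2 : ℂ → ℂ} (h1 : PGrad K Ω g1)
    (h2 : PGrad K Ω g2) {u1 u2 : ℂ → ℝ} (hu1 : ContDiffOn ℝ 1 u1 Ω) (hu2 : ContDiffOn ℝ 1 u2 Ω)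
    (hg1 : ∀ z ∈ Ω, grad u1 z = g1 z) (hg2 : ∀ z ∈ Ω, grad u2 z = g2 z) {z0 : ℂ} (hz : z0 ∈ Ω)
    (h0 : g1 z0 ≠ 0) (hg : g1 z0 = g2 z0) (hS : S g1 z0 = S g2 z0)
    (hne : fderiv ℝ (S g1) z0 ≠ fderiv ℝ (S g2) z0) :
    ∃ M : ℂ ≃L[ℝ] ℂ, (fun h : ℂ => u1 (z0 + h) - u2 (z0 + h) - (u1 z0 - u2 z0) - (M h ^ 3).re)
      =o[𝓝 0] (fun h : ℂ => ‖h‖ ^ 3) := sorry

/-- UC-PULL: pull-back of a cubic expansion. -/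
theorem cubic_pull {w : ℂ → ℝ} {x0 v0 : ℂ} {M N : ℂ ≃L[ℝ] ℂ} {Φ : ℂ → ℂ}
    (hΦ : HasFDerivAt Φ (N : ℂ →L[ℝ] ℂ) v0) (h0 : Φ v0 = x0)
    (hw : (fun h : ℂ => w (x0 + h) - (M h ^ 3).re) =o[𝓝 0] (fun h : ℂ => ‖h‖ ^ 3)) :
    (fun ζ : ℂ => w (Φ (v0 + (N.trans M).symm ζ)) - (ζ ^ 3).re) =o[𝓝 0]
      (fun ζ : ℂ => ‖ζ‖ ^ 3) := sorry

/-- UC-BDRY: the sign structure on the boundary circle. -/
theorem bdry {τ c : ℝ} (hτ : 0 < τ) (hc : 0 < c) {F : ℂ → ℝ} (hF : ∀ v, ‖v‖ = τ → |F v| ≤ c / 4)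
    (hL : ∀ v w, ‖v‖ = τ → ‖w‖ = τ → |F v - F w| ≤ c / τ * ‖v - w‖) :
    ∃ A1 A2 : Set ℂ, (∀ v, ‖v‖ = τ → 0 < F v - c * (v ^ 2).re / τ ^ 2 → v ∈ A1 ∨ v ∈ A2) ∧
      (∀ x ∈ A1, ∀ y ∈ A1, JoinedIn {v | ‖v‖ = τ ∧ 0 < F v - c * (v ^ 2).re / τ ^ 2} x y) ∧
      (∀ x ∈ A2, ∀ y ∈ A2, JoinedIn {v | ‖v‖ = τ ∧ 0 < F v - c * (v ^ 2).re / τ ^ 2} x y) := sorry

/-- UC-SIM: similarities. -/
theorem sim {K : ℝ} {Ω : Set ℂ} {g : ℂ → ℂ} (hg : PGrad K Ω g) (z0 x0 e : ℂ) {ρ l : ℝ}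
    (hρ : 0 < ρ) (hl : 0 < l) (he : ‖e‖ = 1) :
    PGrad K {x | z0 + ρ * e * (x - x0) ∈ Ω} (fun x => l * conj e * g (z0 + ρ * e * (x - x0))) ∧
    ∀ x, z0 + ρ * e * (x - x0) ∈ Ω → g (z0 + ρ * e * (x - x0)) ≠ 0 →
      S (fun x => l * conj e * g (z0 + ρ * e * (x - x0))) x =
        l * ρ * S g (z0 + ρ * e * (x - x0)) := sorry

/-- UC-SIMU: similarities, for the potential. -/
theorem sim_harm {p : ℝ} (hp : 1 < p) {Ω : Set ℂ} (hΩ : IsOpen Ω) {u : ℂ → ℝ}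
    (hu : IsPHarmonicOn p Ω u) (z0 x0 e : ℂ) {ρ l : ℝ} (hρ : 0 < ρ) (hl : 0 < l) (he : ‖e‖ = 1) :
    IsPHarmonicOn p {x | z0 + ρ * e * (x - x0) ∈ Ω}
      (fun x => l / ρ * u (z0 + ρ * e * (x - x0))) ∧
    ∀ x, z0 + ρ * e * (x - x0) ∈ Ω → grad (fun x => l / ρ * u (z0 + ρ * e * (x - x0))) x =
      l * conj e * grad u (z0 + ρ * e * (x - x0)) := sorry

/-- UC-CENSIM: the centre under a similarity. -/
theorem cen_sim {K a : ℝ} (hK : 0 < K) (ha : 0 < a) {Ω : Set ℂ} {g : ℂ → ℂ} (hg : PGrad K Ω g)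
    (z0 x0 e : ℂ) {ρ l : ℝ} (hρ : 0 < ρ) (hl : 0 < l) (he : ‖e‖ = 1) (hz : z0 ∈ Ω)
    (h0 : g z0 ≠ 0) (hS0 : S g z0 ≠ 0)
    (hS : ∀ x, z0 + ρ * e * (x - x0) ∈ Ω → g (z0 + ρ * e * (x - x0)) ≠ 0 →
      S (fun x => l * conj e * g (z0 + ρ * e * (x - x0))) x =
        l * ρ * S g (z0 + ρ * e * (x - x0)))
    (hD : HasFDerivAt (cen K a (fun x => l * conj e * g (z0 + ρ * e * (x - x0))))
      (0 : ℂ →L[ℝ] ℂ) x0) : HasFDerivAt (cen K a g) (0 : ℂ →L[ℝ] ℂ) z0 := sorry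

/-- UC-CENEQ: the derivative of the centre depends on `g`, `S g` and `D (S g)` only. -/
theorem cen_eq {K a : ℝ} (hK : 0 < K) (ha : 0 < a) {Ω : Set ℂ} {g1 g2 : ℂ → ℂ}
    (h1 : PGrad K Ω g1) (h2 : PGrad K Ω g2) {z0 : ℂ} (hz : z0 ∈ Ω) (h0 : g1 z0 ≠ 0)
    (hg : g1 z0 = g2 z0) (hS : S g1 z0 = S g2 z0) (hS0 : S g1 z0 ≠ 0)
    (hd : fderiv ℝ (S g1) z0 = fderiv ℝ (S g2) z0)
    (h : HasFDerivAt (cen K a g2) (0 : ℂ →L[ℝ] ℂ) z0) :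
    HasFDerivAt (cen K a g1) (0 : ℂ →L[ℝ] ℂ) z0 := sorry

/-- UC-RAY: if the centre is locally constant where `Q > C`, then `Q` is bounded. -/
theorem ray {K a : ℝ} (hK : 0 < K) (ha : 0 < a) {C : ℝ} (hC : 0 < C) : ∃ C' : ℝ, 0 < C' ∧
    ∀ (Ω : Set ℂ) (g : ℂ → ℂ), PGrad K Ω g → closedBall 0 1 ⊆ Ω →
      (∀ z ∈ closedBall (0 : ℂ) 1, ‖g z‖ ≤ 1) →
      (∀ z ∈ ball (0 : ℂ) (1 / 2), g z ≠ 0 → C < Q a g z →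
        HasFDerivAt (cen K a g) (0 : ℂ →L[ℝ] ℂ) z) → Q a g 0 ≤ C' := sorry

/-- UC-VC1: regularity of `V g` from the bound for `Q`. -/
theorem V_C1 {K a : ℝ} (hK : 0 < K) (ha : 0 < a) (haK : a < (K + 1) / 2) {Ω : Set ℂ} {g : ℂ → ℂ}
    (hg : PGrad K Ω g)
    (hloc : ∀ z0 ∈ Ω, g z0 = 0 → ∃ r L : ℝ, 0 < r ∧ ball z0 r ⊆ Ω ∧ ∀ z ∈ ball z0 r,
      g z ≠ 0 → Q a g z ≤ L) :
    ContDiffOn ℝ 1 (fun z => V (K + 1) (g z)) Ω := sorry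

end Pool.Agent.H74.UC
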