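import Pool.Agent.H74.UC.Defs

/-!
Project UC, statements of the stubs, level 1 (continued).
-/

set_option autoImplicit false

open Complex MeasureTheory Set Filter Topology Metric
open scoped ContDiff RealInnerProductSpace ComplexConjugate

namespace Pool.Agent.H74.UC

open Pool.Agent.H74.PH

/-- UC-WEYL: Weyl's lemma for `C¹` functions in the plane. -/
theorem weyl {Ω : Set ℂ} (hΩ : IsOpen Ω) {u : ℂ → ℝ} (hu : IsPHarmonicOn 2 Ω u) :
    ContDiffOn ℝ ∞ (grad u) Ω := sorry

/-- UC-VCONT -/
theorem V_continuous {K : ℝ} (hK : 0 < K) : Continuous (V (K + 1)) := sorry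

end Pool.Agent.H74.UC
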