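import Pool.Agent.H74.UC.S1

/-!
Project UC, statements of the stubs, level 2.  Prove stub X in `Pool/Agent/H74/UC/X.lean`
(`import Pool.Agent.H74.UC.S1`, or the files of the proved stubs; same namespace, same name, same
statement).
-/

set_option autoImplicit false

open Complex MeasureTheory Set Filter Topology Metric
open scoped ContDiff RealInnerProductSpace ComplexConjugate

namespace Pool.Agent.H74.UC

open Pool.Agent.H74.PH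

/-- UC-ARCS (from `wind`): a curve in `B` from `δ e^(i s)` to `δ e^(i t)` cannot be closed by both
arcs without separating `0` from infinity. -/
theorem two_arcs {B : Set ℂ} {δ s t R : ℝ} (hδ : 0 < δ) (h1 : s < t) (h2 : t < s + 2 * Real.pi)
    (hj : JoinedIn B ((δ : ℂ) * exp (s * I)) ((δ : ℂ) * exp (t * I))) (hB : ∀ z ∈ B, ‖z‖ < R)
    (hδR : δ < R) {p1 p2 : ℂ} (hp1 : R ≤ ‖p1‖) (hp2 : R ≤ ‖p2‖)
    (ha1 : JoinedIn (B ∪ arc δ s t)ᶜ 0 p1) (ha2 : JoinedIn (B ∪ arc δ t (s + 2 * Real.pi))ᶜ 0 p2) :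
    False := sorry

/-- UC-COMP (from `test_C1`): comparison principle. -/
theorem comparison {p : ℝ} (hp : 1 < p) {Ω : Set ℂ} (hΩ : IsOpen Ω) {u v : ℂ → ℝ}
    (hu : IsPHarmonicOn p Ω u) (hv : IsPHarmonicOn p Ω v) {O : Set ℂ} (hO : IsOpen O)
    (hne : O.Nonempty) (hb : Bornology.IsBounded O) (hcl : closure O ⊆ Ω) {c : ℝ}
    (hpos : ∀ z ∈ O, v z + c < u z) (hfr : ∀ z ∈ frontier O, u z = v z + c) : False := sorry

/-- UC-XDER -/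
theorem X_deriv {K q : ℝ} (h : Par K q) {v : ℂ} (hv : v ≠ 0) : ∃ N : ℂ ≃L[ℝ] ℂ,
    HasFDerivAt (X q) (N : ℂ →L[ℝ] ℂ) v ∧ ContDiffAt ℝ ∞ (X q) v ∧
    HasFDerivAt (Xi q) (N.symm : ℂ →L[ℝ] ℂ) (X q v) ∧ ContDiffAt ℝ ∞ (Xi q) (X q v) ∧
    ∀ k : ℂ, N k = ((q + 1 : ℝ) : ℂ) * conj k + ((q - 1 : ℝ) : ℂ) *
      (3 * v ^ 2 * k / ((‖v‖ ^ 2 : ℝ) : ℂ) - 2 * v ^ 3 * ((conj v * k).re : ℂ) /
        ((‖v‖ ^ 4 : ℝ) : ℂ)) := sorry

/-- UC-GPG (may use `X_deriv`) -/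
theorem G_pgrad {K q : ℝ} (h : Par K q) : PGrad K univ (G q) ∧
    ∀ v : ℂ, v ≠ 0 → S (G q) (X q v) ≠ 0 ∧ J K (S (G q) (X q v)) =
      ((2 * q - 1 : ℝ) : ℂ) * ((‖v‖ ^ (1 - 1 / (2 * q - 1)) : ℝ) : ℂ) * (X q v / v) := sorry

/-- UC-UC1 (may use `X_deriv`) -/
theorem U_grad {K q : ℝ} (h : Par K q) : ContDiff ℝ 1 (U q) ∧ ∀ x, grad (U q) x = G q x := sorry

end Pool.Agent.H74.UC
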