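import Pool.Agent.H74.UC.S2

/-!
Project UC, statements of the stubs, level 3.  Prove stub X in `Pool/Agent/H74/UC/X.lean`
(`import Pool.Agent.H74.UC.S2`, or the files of the proved stubs; same namespace, same name, same
statement).
-/

set_option autoImplicit false

open Complex MeasureTheory Set Filter Topology Metric
open scoped ContDiff RealInnerProductSpace ComplexConjugate

namespace Pool.Agent.H74.UC

open Pool.Agent.H74.PH

/-- UC-UWEAK: the comparison function is `p`-harmonic across `0`. -/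
theorem U_harm {K q : ℝ} (h : Par K q) : IsPHarmonicOn (K + 1) univ (U q) := sorry

/-- UC-JET: matching of the `1`-jet of the gradient. -/
theorem jet {K q : ℝ} (h : Par K q) {s : ℂ} (hs : s ≠ 0) : ∃ (R : ℝ) (v : ℂ), 0 < R ∧ ‖v‖ = 1 ∧
    S (G q) (X q v) = R * s := sorry

/-- UC-JET2: `|S G|` is bounded above and below on `X {|v| = 1}`, and the centre of `G` is `0`. -/
theorem G_bounds {K q : ℝ} (h : Par K q) : ∃ c C : ℝ, 0 < c ∧ 0 < C ∧ ∀ v : ℂ, ‖v‖ = 1 →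
    c ≤ ‖S (G q) (X q v)‖ ∧ ‖S (G q) (X q v)‖ ≤ C := sorry

theorem G_cen {K q : ℝ} (h : Par K q) {x : ℂ} (hx : x ≠ 0) :
    HasFDerivAt (cen K (2 * q - 1) (G q)) (0 : ℂ →L[ℝ] ℂ) x := sorry

/-- UC-TOPO (from `two_arcs`) -/
theorem topo {D : Set ℂ} (hD : IsCompact D) (hc : Convex ℝ D) (h0 : (0 : ℂ) ∈ interior D)
    {W : ℂ → ℝ} (hW : ContinuousOn W D)
    (hexp : (fun ζ : ℂ => W ζ - (ζ ^ 3).re) =o[𝓝 0] (fun ζ : ℂ => ‖ζ‖ ^ 3))
    (hT : ∀ x ∈ D, W x ≠ 0 → ∃ y ∈ frontier D, JoinedIn {z | z ∈ D ∧ 0 < W x * W z} x y)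
    {A1 A2 : Set ℂ} (hcov : ∀ z ∈ frontier D, 0 < W z → z ∈ A1 ∨ z ∈ A2)
    (hA1 : ∀ x ∈ A1, ∀ y ∈ A1, JoinedIn {z | z ∈ D ∧ 0 < W z} x y)
    (hA2 : ∀ x ∈ A2, ∀ y ∈ A2, JoinedIn {z | z ∈ D ∧ 0 < W z} x y) : False := sorry

end Pool.Agent.H74.UC
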