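import Pool.Agent.H74.UC.S3

/-!
Project UC, statements of the stubs, level 4 (`import Pool.Agent.H74.UC.S3`, or the files of the
proved stubs).
-/

set_option autoImplicit false

open Complex MeasureTheory Set Filter Topology Metric
open scoped ContDiff RealInnerProductSpace ComplexConjugate

namespace Pool.Agent.H74.UC

open Pool.Agent.H74.PH

/-- UC-RADO (from `cubic`, `cubic_pull`, `X_deriv`, `U_harm`, `U_grad`, `G_pgrad`, `comparison`,
`joined_frontier`, `bdry`, `topo`, `X_lip`, `Xi_X`, ...) -/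
theorem rado {K q : ℝ} (h : Par K q) : ∃ η τ0 : ℝ, 0 < η ∧ 0 < τ0 ∧ ∀ (τ : ℝ) (Ω : Set ℂ)
    (g : ℂ → ℂ) (u : ℂ → ℝ) (v0 : ℂ), τ0 ≤ τ → PGrad K Ω g → IsPHarmonicOn (K + 1) Ω u →
    (∀ z ∈ Ω, grad u z = g z) → closedBall 0 (6 * τ) ⊆ Ω →
    (∀ z ∈ closedBall (0 : ℂ) (6 * τ), ‖g z‖ ≤ η * τ ^ (1 / (2 * q - 1))) → ‖v0‖ = 1 →
    g (X q v0) = G q (X q v0) → S g (X q v0) = S (G q) (X q v0) →
    fderiv ℝ (S g) (X q v0) = fderiv ℝ (S (G q)) (X q v0) := sorry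

end Pool.Agent.H74.UC
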