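import Pool.Agent.H74.UC.S4

/-!
Project UC, statements of the stubs, level 5 (`import Pool.Agent.H74.UC.S4`, or the files of the
proved stubs).
-/

set_option autoImplicit false

open Complex MeasureTheory Set Filter Topology Metric
open scoped ContDiff RealInnerProductSpace ComplexConjugate

namespace Pool.Agent.H74.UC

open Pool.Agent.H74.PH

/-- UC-GEN (from `rado`, `jet`, `G_bounds`, `G_cen`, `sim`, `sim_harm`, `cen_sim`, `cen_eq`) -/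
theorem gen {K q : ℝ} (h : Par K q) : ∃ C : ℝ, 0 < C ∧ ∀ (Ω : Set ℂ) (g : ℂ → ℂ) (u : ℂ → ℝ),
    PGrad K Ω g → IsPHarmonicOn (K + 1) Ω u → (∀ z ∈ Ω, grad u z = g z) → closedBall 0 1 ⊆ Ω →
    (∀ z ∈ closedBall (0 : ℂ) 1, ‖g z‖ ≤ 1) → ∀ z0 ∈ ball (0 : ℂ) (1 / 2), g z0 ≠ 0 →
    C < Q (2 * q - 1) g z0 → HasFDerivAt (cen K (2 * q - 1) g) (0 : ℂ →L[ℝ] ℂ) z0 := sorry

/-- UC-QB (from `gen`, `ray`, `sim`, `sim_harm`): the main estimate. -/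
theorem Q_bound {K q : ℝ} (h : Par K q) : ∃ C : ℝ, 0 < C ∧ ∀ (Ω : Set ℂ) (g : ℂ → ℂ) (u : ℂ → ℝ)
    (z0 : ℂ) (R M : ℝ), PGrad K Ω g → IsPHarmonicOn (K + 1) Ω u → (∀ z ∈ Ω, grad u z = g z) →
    0 < R → 0 < M → closedBall z0 R ⊆ Ω → (∀ z ∈ closedBall z0 R, ‖g z‖ ≤ M) →
    Q (2 * q - 1) g z0 ≤ C * M ^ (2 * q - 1) / R := sorry

/-- UC-MASTER (from `Q_bound`, `par_exists` and `Pool.Agent.H74.PH.{scale, caseB}`; compare
`Pool/Agent/H74/PH/MasterF.lean`): the estimate for `sig`, without any assumption on `sig`. -/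
theorem master' {K : ℝ} (hK : 0 < K) : ∃ C : ℝ, 0 < C ∧ ∀ (Ω : Set ℂ) (g : ℂ → ℂ) (u : ℂ → ℝ)
    (c0 z0 : ℂ) (R O : ℝ), PGrad K Ω g → IsPHarmonicOn (K + 1) Ω u → (∀ z ∈ Ω, grad u z = g z) →
    0 < R → 0 < O → closedBall z0 R ⊆ Ω →
    (∀ z ∈ closedBall z0 R, ‖V (K + 1) (g z) - c0‖ ≤ O) → sig K g z0 ≤ C * O / R := sorry

end Pool.Agent.H74.UC
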